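import Mathlib
import Pool.Agent.MT.Defs

set_option autoImplicit false

/-!
# PTB: Bombieri-Vinogradov for almost primes with free small factors (definitions)

General weights `w` on the integers up to `N`, in particular
`w m = (∑_{k ∣ m} a(k) 1[m/k prime]) η(m/N)` with arbitrary bounded coefficients `a`, supported on
integers `k` of `(N^κ, N^{1-κ}]` all of whose prime factors are larger than `N^κ`.
(MP_c0d11e_nt, theorem PT3 of helper5.)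
-/

namespace Pool.Agent.PTB

open Finset Filter Pool.Agent.MT

/-- `∑_{m ≤ N, m = b mod q} w(m)` -/
noncomputable def wAP (w : ℕ → ℝ) (N q b : ℕ) : ℝ :=
  ∑ m ∈ (range (N + 1)).filter (fun m => m % q = b % q), w m

/-- `∑_{m ≤ N} w(m)` -/
noncomputable def w0 (w : ℕ → ℝ) (N : ℕ) : ℝ := ∑ m ∈ range (N + 1), w m

/-- `∑_{m ≤ N, (m,e) = 1} w(m) χ(m)` -/
noncomputable def psiw (w : ℕ → ℝ) (N e : ℕ) {r : ℕ} (χ : DirichletCharacter ℂ r) : ℂ :=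
  ∑ m ∈ (range (N + 1)).filter (fun m => m.Coprime e), ((w m : ℝ) : ℂ) * χ (m : ZMod r)

/-- `∑_{k ∣ m} a(k) 1[m/k prime]` -/
noncomputable def bta (a : ℕ → ℝ) (m : ℕ) : ℝ :=
  ∑ k ∈ m.divisors, if (m / k).Prime then a k else 0

/-- the weight `(∑_{k ∣ m} a(k) 1[m/k prime]) η(m/N)` -/
noncomputable def wa (η : ℝ → ℝ) (a : ℕ → ℝ) (N m : ℕ) : ℝ := bta a m * η ((m : ℝ) / N)

/-- the weight `1[m prime] (log m / log N) η(m/N)` (at most the indicator of the primes) -/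
noncomputable def wp (η : ℝ → ℝ) (N m : ℕ) : ℝ :=
  if m.Prime then Real.log m / Real.log N * η ((m : ℝ) / N) else 0

/-- admissible coefficients -/
def Adm (κ : ℝ) (N : ℕ) (a : ℕ → ℝ) : Prop := ∀ k : ℕ, 0 ≤ a k ∧ a k ≤ 1 ∧
  (a k ≠ 0 → (N : ℝ) ^ κ < k ∧ (k : ℝ) ≤ (N : ℝ) ^ (1 - κ) ∧
    ∀ p : ℕ, p.Prime → p ∣ k → (N : ℝ) ^ κ < p)

/-- bounded nonnegative weight supported on positive integers without prime factors `≤ z` -/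
def Rgh (B z : ℝ) (N : ℕ) (w : ℕ → ℝ) : Prop := ∀ m : ℕ, m ≤ N → 0 ≤ w m ∧ w m ≤ B ∧
  (w m ≠ 0 → 1 ≤ m ∧ ∀ p : ℕ, p.Prime → p ∣ m → z < p)

/-- mean value over large conductors -/
def PLC (w : ℕ → ℝ) (N : ℕ) (θ δ : ℝ) (C : ℕ) : Prop := ∀ R e : ℕ, 1 ≤ R →
  (R : ℝ) ≤ (N : ℝ) ^ θ → ∑ q ∈ Ioc R (2 * R), ∑ χ ∈ prim q, ‖psiw w N e χ‖ ≤
    C * ((N : ℝ) + R * (N : ℝ) ^ (1 - δ)) * Real.log N ^ C

/-- small conductors -/
def PSW (w : ℕ → ℝ) (N A B : ℕ) : Prop := ∀ e r : ℕ, 1 ≤ e → e ≤ N → 1 ≤ r →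
  (r : ℝ) ≤ Real.log N ^ B → ∀ χ ∈ prim r, ‖psiw w N e χ‖ ≤ N / Real.log N ^ A

/-- level of distribution `θ` with weights `K^ω(q)` and error `N/(log N)^A` -/
def LevW (w : ℕ → ℝ) (N : ℕ) (θ : ℝ) (A K : ℕ) : Prop :=
  ∃ E : ℕ → ℝ, (∀ q, 0 ≤ E q) ∧
    (∀ q b : ℕ, 1 ≤ q → (q : ℝ) ≤ (N : ℝ) ^ θ → b.Coprime q →
      |wAP w N q b - w0 w N / (q.totient : ℝ)| ≤ E q) ∧
    ∑ q ∈ (Icc 1 N).filter (fun q : ℕ => (q : ℝ) ≤ (N : ℝ) ^ θ),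
      (K : ℝ) ^ q.primeFactors.card * E q ≤ N / Real.log N ^ A

end Pool.Agent.PTB
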