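import Mathlib
import Pool.Agent.PTB.Defs

set_option autoImplicit false

/-!
# PTB: statements of the modules
-/

namespace Pool.Agent.PTB

open Finset Filter Pool.Agent.MT

/-- one modulus -/
def St_Red : Prop := ∀ (B z : ℝ) (N : ℕ) (w : ℕ → ℝ), 1 ≤ z → Rgh B z N w → ∀ q b : ℕ, 1 ≤ q →
  b.Coprime q → |wAP w N q b - w0 w N / (q.totient : ℝ)| ≤
    1 / (q.totient : ℝ) * (B * q.primeFactors.card * ((N : ℝ) / z) +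
      ∑ r ∈ q.divisors.erase 1, ∑ χ ∈ prim r, ‖psiw w N q χ‖)

/-- abstract Bombieri-Vinogradov, without weights -/
def St_Abs : Prop := ∀ (θ δ κ Bd : ℝ) (C A : ℕ), 0 < θ → θ < 1 → 0 < δ → 0 < κ → κ < 1 →
  ∃ A' B' : ℕ, ∀ᶠ N : ℕ in atTop, ∀ w : ℕ → ℝ, Rgh Bd ((N : ℝ) ^ κ) N w →
    PLC w N θ δ C → PSW w N A' B' → LevW w N θ A 1

/-- insertion of the weights `K^ω(q)` -/
def St_Wei : Prop := ∀ (θ κ Bd : ℝ) (A K : ℕ), 0 < θ → θ < 1 → 0 < κ → κ < 1 →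
  ∃ A₁ : ℕ, ∀ᶠ N : ℕ in atTop, ∀ w : ℕ → ℝ, Rgh Bd ((N : ℝ) ^ κ) N w →
    LevW w N θ A₁ 1 → LevW w N θ A K

/-- the weights `wa` are bounded and rough -/
def St_Rgh : Prop := ∀ η : ℝ → ℝ, IsWt η → ∀ κ : ℝ, 0 < κ → κ < 1 / 2 → ∃ Bd : ℝ,
  ∀ᶠ N : ℕ in atTop, ∀ a : ℕ → ℝ, Adm κ N a → Rgh Bd ((N : ℝ) ^ (κ / 2)) N (wa η a N)

/-- large conductors -/
def St_LC : Prop := ∀ η : ℝ → ℝ, IsWt η → ∀ κ θ : ℝ, 0 < κ → κ < 1 / 2 → 0 < θ → θ < 1 / 2 →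
  ∃ (δ : ℝ) (C : ℕ), 0 < δ ∧ ∀ᶠ N : ℕ in atTop, ∀ a : ℕ → ℝ, Adm κ N a →
    PLC (wa η a N) N θ δ C

/-- small conductors -/
def St_SW : Prop := ∀ η : ℝ → ℝ, IsWt η → ∀ κ : ℝ, 0 < κ → κ < 1 / 2 → ∀ A B : ℕ,
  ∀ᶠ N : ℕ in atTop, ∀ a : ℕ → ℝ, Adm κ N a → PSW (wa η a N) N A B

/-- Bombieri-Vinogradov for the weights `wa` -/
def St_BVA : Prop := ∀ η : ℝ → ℝ, IsWt η → ∀ κ θ : ℝ, 0 < κ → κ < 1 / 2 → 0 < θ → θ < 1 / 2 →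
  ∀ A K : ℕ, ∀ᶠ N : ℕ in atTop, ∀ a : ℕ → ℝ, Adm κ N a → LevW (wa η a N) N θ A K

/-- Bombieri-Vinogradov for the primes -/
def St_BVP : Prop := ∀ η : ℝ → ℝ, IsWt η → ∀ θ : ℝ, 0 < θ → θ < 1 / 2 →
  ∀ A K : ℕ, ∀ᶠ N : ℕ in atTop, LevW (wp η N) N θ A K

/-- mass of the primes -/
def St_MassP : Prop := ∀ η : ℝ → ℝ, IsWt η → ∀ ε : ℝ, 0 < ε → ∀ᶠ N : ℕ in atTop,
  |w0 (wp η N) N - (∫ t in (0 : ℝ)..1, η t) * N / Real.log N| ≤ ε * N / Real.log N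

/-- prime number theorem with the smooth weight for the last prime, uniformly -/
def St_Last : Prop := ∀ η : ℝ → ℝ, IsWt η → ∀ κ ε : ℝ, 0 < κ → κ < 1 → 0 < ε →
  ∀ᶠ N : ℕ in atTop, ∀ k : ℕ, 1 ≤ k → (k : ℝ) ≤ (N : ℝ) ^ (1 - κ) →
    |∑ p ∈ (range (N / k + 1)).filter Nat.Prime, η (((k * p : ℕ) : ℝ) / N) -
      (∫ t in (0 : ℝ)..1, η t) * (((N : ℝ) / k) / Real.log ((N : ℝ) / k))| ≤
      ε * (((N : ℝ) / k) / Real.log N)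

/-- mass of the weights `wa` -/
def St_MassA : Prop := ∀ η : ℝ → ℝ, IsWt η → ∀ κ ε : ℝ, 0 < κ → κ < 1 / 2 → 0 < ε →
  ∀ᶠ N : ℕ in atTop, ∀ a : ℕ → ℝ, Adm κ N a →
    |w0 (wa η a N) N - (∫ t in (0 : ℝ)..1, η t) *
      (N * ∑ k ∈ Icc 1 N, a k / (k * Real.log ((N : ℝ) / k)))| ≤
      ε * (N / Real.log N) * ∑ k ∈ Icc 1 N, a k / k

end Pool.Agent.PTB
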