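import Mathlib
import Pool.Agent.PTB.Stmts

set_option autoImplicit false

/-!
# PTB / Abs

The abstract Bombieri-Vinogradov theorem for rough weights.
-/

namespace Pool.Agent.PTB

open Finset Filter Pool.Agent.MT

private theorem abs_prod (S : Finset ℕ) (hS : ∀ a ∈ S, 2 ≤ a) :
    ∏ a ∈ S, ((a : ℝ) / ((a : ℝ) - 1)) ≤ (S.card : ℝ) + 1 := by
  classical
  induction S using Finset.induction_on_max with
  | empty => simp
  | insert a s hmax ih =>
    have ha : a ∉ s := fun h => lt_irrefl a (hmax a h)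
    have ha2 : 2 ≤ a := hS a (mem_insert_self a s)
    have ih' := ih (fun b hb => hS b (mem_insert_of_mem hb))
    have hcard : s.card + 1 ≤ a - 1 := by
      have h1 : insert a s ⊆ Icc 2 a := by
        intro b hb
        rw [mem_Icc]
        refine ⟨hS b hb, ?_⟩
        rcases mem_insert.mp hb with h | h
        · exact h.le
        · exact (hmax b h).le
      have h2 := card_le_card h1
      rw [card_insert_of_notMem ha, Nat.card_Icc] at h2
      omega
    have hc : ((s.card : ℝ) + 1) ≤ (a : ℝ) - 1 := by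
      have h1 : ((s.card + 1 : ℕ) : ℝ) ≤ ((a - 1 : ℕ) : ℝ) := by exact_mod_cast hcard
      rw [Nat.cast_sub (by omega)] at h1
      push_cast at h1
      exact h1
    have hs0 : (0 : ℝ) ≤ s.card := Nat.cast_nonneg _
    rw [prod_insert ha, card_insert_of_notMem ha]
    have h3 : (a : ℝ) / ((a : ℝ) - 1) ≤ ((s.card : ℝ) + 2) / ((s.card : ℝ) + 1) := by
      rw [div_le_div_iff₀ (by linarith) (by linarith)]
      nlinarith
    have h4 : 0 ≤ ∏ a ∈ s, ((a : ℝ) / ((a : ℝ) - 1)) := by
      apply prod_nonneg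
      intro b hb
      have : (2 : ℝ) ≤ b := by exact_mod_cast hS b (mem_insert_of_mem hb)
      apply div_nonneg <;> linarith
    calc (a : ℝ) / ((a : ℝ) - 1) * ∏ a ∈ s, ((a : ℝ) / ((a : ℝ) - 1))
        ≤ ((s.card : ℝ) + 2) / ((s.card : ℝ) + 1) * ((s.card : ℝ) + 1) := by
          apply mul_le_mul h3 ih' h4 (by positivity)
      _ = (s.card : ℝ) + 2 := by field_simp
      _ = _ := by push_cast; ring

private theorem abs_omega (m : ℕ) (hm : 1 ≤ m) :
    (m.primeFactors.card : ℝ) ≤ Real.log m / Real.log 2 := by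
  have h1 : 2 ^ m.primeFactors.card ≤ m := by
    calc 2 ^ m.primeFactors.card ≤ ∏ p ∈ m.primeFactors, p := by
          apply pow_card_le_prod
          intro p hp
          exact (Nat.prime_of_mem_primeFactors hp).two_le
      _ ≤ m := Nat.le_of_dvd hm (Nat.prod_primeFactors_dvd m)
  have h2 : ((2 : ℝ)) ^ m.primeFactors.card ≤ m := by exact_mod_cast h1
  have h3 := Real.log_le_log (by positivity) h2
  rw [Real.log_pow] at h3
  rw [le_div_iff₀ (Real.log_pos (by norm_num))]
  exact h3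

private theorem abs_totient (m : ℕ) (hm : 1 ≤ m) :
    1 / (m.totient : ℝ) ≤ (1 + Real.log m / Real.log 2) / m := by
  have hm0 : (0 : ℝ) < m := by exact_mod_cast hm
  have hφ : (0 : ℝ) < m.totient := by exact_mod_cast Nat.totient_pos.mpr hm
  have h1 : ((m.totient * ∏ p ∈ m.primeFactors, p : ℕ) : ℝ) =
      ((m * ∏ p ∈ m.primeFactors, (p - 1) : ℕ) : ℝ) := by
    rw [Nat.totient_mul_prod_primeFactors]
  push_cast at h1
  have hp2 : ∀ p ∈ m.primeFactors, 2 ≤ p := fun p hp => (Nat.prime_of_mem_primeFactors hp).two_le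
  have h2 : ∏ p ∈ m.primeFactors, ((p - 1 : ℕ) : ℝ) = ∏ p ∈ m.primeFactors, ((p : ℝ) - 1) := by
    refine prod_congr rfl fun p hp => ?_
    have := hp2 p hp
    rw [Nat.cast_sub (by omega)]; simp
  have hpos : 0 < ∏ p ∈ m.primeFactors, ((p : ℝ) - 1) := by
    apply prod_pos
    intro p hp
    have : (2 : ℝ) ≤ p := by exact_mod_cast hp2 p hp
    linarith
  have h3 : (m : ℝ) / m.totient = ∏ p ∈ m.primeFactors, ((p : ℝ) / ((p : ℝ) - 1)) := by
    rw [prod_div_distrib, div_eq_div_iff hφ.ne' hpos.ne', ← h2, ← h1]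
    ring
  have h4 : (m : ℝ) / m.totient ≤ 1 + Real.log m / Real.log 2 := by
    rw [h3]
    have := abs_prod m.primeFactors hp2
    have h5 := abs_omega m hm
    linarith
  rw [le_div_iff₀ hm0]
  calc 1 / (m.totient : ℝ) * m = (m : ℝ) / m.totient := by ring
    _ ≤ _ := h4

private theorem abs_totient' (m N : ℕ) (hm : 1 ≤ m) (hmN : m ≤ N) (hL : 1 ≤ Real.log N) :
    1 / (m.totient : ℝ) ≤ 3 * Real.log N / m := by
  refine (abs_totient m hm).trans ?_
  have hm0 : (0 : ℝ) < m := by exact_mod_cast hm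
  apply div_le_div_of_nonneg_right _ hm0.le
  have h1 : Real.log m ≤ Real.log N := Real.log_le_log hm0 (by exact_mod_cast hmN)
  have h2 : (0.69 : ℝ) < Real.log 2 := by
    have := Real.log_two_gt_d9; linarith
  have h3 : Real.log m / Real.log 2 ≤ 2 * Real.log N := by
    rw [div_le_iff₀ (by linarith)]
    nlinarith
  linarith

private theorem abs_sum_inv (N : ℕ) (hL : 1 ≤ Real.log N) :
    ∑ m ∈ Icc 1 N, 1 / (m.totient : ℝ) ≤ 6 * Real.log N ^ 2 := by
  have h1 : ∑ m ∈ Icc 1 N, 1 / (m.totient : ℝ) ≤ ∑ m ∈ Icc 1 N, 3 * Real.log N * (1 / (m : ℝ)) := by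
    refine sum_le_sum fun m hm => ?_
    rw [mem_Icc] at hm
    refine (abs_totient' m N hm.1 hm.2 hL).trans (le_of_eq (by ring))
  have h2 : ∑ m ∈ Icc 1 N, 1 / (m : ℝ) ≤ 1 + Real.log N := by
    have h3 := harmonic_le_one_add_log N
    rw [harmonic_eq_sum_Icc] at h3
    push_cast at h3
    simpa [one_div] using h3
  calc _ ≤ _ := h1
    _ = 3 * Real.log N * ∑ m ∈ Icc 1 N, 1 / (m : ℝ) := by rw [mul_sum]
    _ ≤ 3 * Real.log N * (1 + Real.log N) :=
        mul_le_mul_of_nonneg_left h2 (by linarith)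
    _ ≤ _ := by nlinarith

private theorem abs_card_prim (r : ℕ) (hr : 1 ≤ r) : ((prim r).card : ℝ) ≤ r.totient := by
  classical
  have : NeZero r := ⟨by omega⟩
  have h1 : (prim r).card ≤ Fintype.card (DirichletCharacter ℂ r) := card_le_univ _
  have h2 := DirichletCharacter.card_eq_totient_of_hasEnoughRootsOfUnity ℂ r
  rw [Nat.card_eq_fintype_card] at h2
  rw [h2] at h1
  exact_mod_cast h1

/-- the sum over the conductors -/
private theorem abs_cond (w : ℕ → ℝ) (N e C B A' : ℕ) (θ δ : ℝ) (hL : 1 ≤ Real.log N)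
    (hN : 3 ≤ N)
    (hlc : ∀ R : ℕ, 1 ≤ R → (R : ℝ) ≤ (N : ℝ) ^ θ →
      ∑ q ∈ Ioc R (2 * R), ∑ χ ∈ prim q, ‖psiw w N e χ‖ ≤
        C * ((N : ℝ) + R * (N : ℝ) ^ (1 - δ)) * Real.log N ^ C)
    (hsw : ∀ q : ℕ, 1 ≤ q → (q : ℝ) ≤ Real.log N ^ B →
      ∀ χ ∈ prim q, ‖psiw w N e χ‖ ≤ N / Real.log N ^ A') :
    ∑ r ∈ (Icc 2 N).filter (fun r : ℕ => (r : ℝ) ≤ (N : ℝ) ^ θ),
      1 / (r.totient : ℝ) * ∑ χ ∈ prim r, ‖psiw w N e χ‖ ≤
      Real.log N ^ B * (N / Real.log N ^ A') +
        (18 * C * N * Real.log N ^ (C + 2) / Real.log N ^ B +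
          9 * C * (N : ℝ) ^ (1 - δ) * Real.log N ^ (C + 2)) := by
  classical
  set L := Real.log N with hLdef
  have hL0 : 0 < L := by linarith
  set P : ℝ := (N : ℝ) ^ (1 - δ) with hP
  have hP0 : 0 ≤ P := Real.rpow_nonneg (Nat.cast_nonneg _) _
  set X := (Icc 2 N).filter (fun r : ℕ => (r : ℝ) ≤ (N : ℝ) ^ θ) with hX
  set f : ℕ → ℝ := fun r => 1 / (r.totient : ℝ) * ∑ χ ∈ prim r, ‖psiw w N e χ‖ with hf
  have hf0 : ∀ r, 0 ≤ f r := fun r => by positivity
  rw [← sum_filter_add_sum_filter_not X (fun r : ℕ => (r : ℝ) ≤ L ^ B)]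
  apply add_le_add
  · -- small conductors
    have h1 : ∀ r ∈ X.filter (fun r : ℕ => (r : ℝ) ≤ L ^ B), f r ≤ N / L ^ A' := by
      intro r hr
      rw [mem_filter, hX, mem_filter, mem_Icc] at hr
      obtain ⟨⟨⟨hr2, hrN⟩, hr12⟩, hrL⟩ := hr
      have hr1 : 1 ≤ r := by omega
      have hφ : (0 : ℝ) < r.totient := by exact_mod_cast Nat.totient_pos.mpr hr1
      have h2 : ∑ χ ∈ prim r, ‖psiw w N e χ‖ ≤ ∑ _χ ∈ prim r, (N / L ^ A' : ℝ) :=
        sum_le_sum (hsw r hr1 hrL)
      rw [sum_const, nsmul_eq_mul] at h2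
      have h3 : ((prim r).card : ℝ) * (N / L ^ A') ≤ r.totient * (N / L ^ A') :=
        mul_le_mul_of_nonneg_right (abs_card_prim r hr1) (by positivity)
      calc f r ≤ 1 / (r.totient : ℝ) * (r.totient * (N / L ^ A')) :=
            mul_le_mul_of_nonneg_left (h2.trans h3) (by positivity)
        _ = N / L ^ A' := by field_simp
    refine (sum_le_sum h1).trans ?_
    rw [sum_const, nsmul_eq_mul]
    apply mul_le_mul_of_nonneg_right _ (by positivity)
    have h2 : X.filter (fun r : ℕ => (r : ℝ) ≤ L ^ B) ⊆ Icc 1 ⌊L ^ B⌋₊ := by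
      intro r hr
      rw [mem_filter, hX, mem_filter, mem_Icc] at hr
      rw [mem_Icc]
      exact ⟨by omega, Nat.le_floor hr.2⟩
    have h3 := card_le_card h2
    rw [Nat.card_Icc, Nat.add_sub_cancel] at h3
    calc ((X.filter (fun r : ℕ => (r : ℝ) ≤ L ^ B)).card : ℝ) ≤ (⌊L ^ B⌋₊ : ℝ) := by
          exact_mod_cast h3
      _ ≤ L ^ B := Nat.floor_le (by positivity)
  · -- large conductors
    set Y := X.filter (fun r : ℕ => ¬ (r : ℝ) ≤ L ^ B) with hY
    set I := range (Nat.log 2 N + 1) with hI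
    have hmaps : ∀ r ∈ Y, Nat.log 2 (r - 1) ∈ I := by
      intro r hr
      rw [hY, mem_filter, hX, mem_filter, mem_Icc] at hr
      rw [hI, mem_range]
      have : Nat.log 2 (r - 1) ≤ Nat.log 2 N := Nat.log_mono_right (by omega)
      omega
    have hfib := sum_fiberwise_of_maps_to hmaps f
    show ∑ r ∈ Y, f r ≤ _
    rw [← hfib]
    have hblock : ∀ i ∈ I, ∑ r ∈ Y.filter (fun r => Nat.log 2 (r - 1) = i), f r ≤
        6 * C * N * L ^ (C + 1) / L ^ B + 3 * C * P * L ^ (C + 1) := by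
      intro i _
      set Z := Y.filter (fun r => Nat.log 2 (r - 1) = i) with hZ
      rcases Z.eq_empty_or_nonempty with he | ⟨r0, hr0⟩
      · rw [he, sum_empty]; positivity
      have hmem : ∀ r ∈ Z, 2 ≤ r ∧ r ≤ N ∧ (r : ℝ) ≤ (N : ℝ) ^ θ ∧ L ^ B < r ∧ 2 ^ i < r ∧
          r ≤ 2 * 2 ^ i := by
        intro r hr
        rw [hZ, mem_filter, hY, mem_filter, hX, mem_filter, mem_Icc] at hr
        obtain ⟨⟨⟨⟨h2, hN'⟩, h12⟩, hlt⟩, hlog⟩ := hr
        rw [Nat.log_eq_iff (Or.inr ⟨by norm_num, by omega⟩)] at hlog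
        obtain ⟨hl1, hl2⟩ := hlog
        refine ⟨h2, hN', h12, not_le.mp hlt, by omega, ?_⟩
        rw [pow_succ] at hl2
        omega
      set R := 2 ^ i with hR
      have hR1 : 1 ≤ R := Nat.one_le_two_pow
      obtain ⟨_, _, h012, h0L, h0R, h0R2⟩ := hmem r0 hr0
      have hR12 : (R : ℝ) ≤ (N : ℝ) ^ θ := by
        have : (R : ℝ) ≤ r0 := by exact_mod_cast h0R.le
        exact this.trans h012
      have hRpos : (0 : ℝ) < R := by exact_mod_cast hR1
      have hLR : L ^ B < 2 * R := by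
        have : (r0 : ℝ) ≤ 2 * R := by exact_mod_cast h0R2
        linarith
      have h1 : ∀ r ∈ Z, f r ≤ 3 * L / R * ∑ χ ∈ prim r, ‖psiw w N e χ‖ := by
        intro r hr
        obtain ⟨h2, hN', _, _, hRr, _⟩ := hmem r hr
        apply mul_le_mul_of_nonneg_right _ (by positivity)
        refine (abs_totient' r N (by omega) hN' hL).trans ?_
        have hrR : (R : ℝ) ≤ r := by exact_mod_cast hRr.le
        rw [← hLdef]
        exact div_le_div_of_nonneg_left (by positivity) hRpos hrR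
      refine (sum_le_sum h1).trans ?_
      rw [← mul_sum]
      have hsub : Z ⊆ Ioc R (2 * R) := by
        intro r hr
        obtain ⟨_, _, _, _, h5, h6⟩ := hmem r hr
        rw [mem_Ioc]; exact ⟨h5, h6⟩
      have h2 : ∑ r ∈ Z, ∑ χ ∈ prim r, ‖psiw w N e χ‖ ≤ C * ((N : ℝ) + R * P) * L ^ C :=
        (sum_le_sum_of_subset_of_nonneg hsub (fun _ _ _ => by positivity)).trans
          (hlc R hR1 hR12)
      refine (mul_le_mul_of_nonneg_left h2 (by positivity)).trans ?_
      have h3 : 3 * L / R * (C * ((N : ℝ) + R * P) * L ^ C) =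
          3 * C * N * L ^ (C + 1) * (1 / R) + 3 * C * P * L ^ (C + 1) := by
        field_simp
        ring
      rw [h3]
      have h4 : (1 : ℝ) / R ≤ 2 / L ^ B := by
        rw [div_le_div_iff₀ hRpos (by positivity)]
        linarith
      have h5 : 3 * C * N * L ^ (C + 1) * (1 / R) ≤ 3 * C * N * L ^ (C + 1) * (2 / L ^ B) :=
        mul_le_mul_of_nonneg_left h4 (by positivity)
      have h6 : 3 * C * N * L ^ (C + 1) * (2 / L ^ B) = 6 * C * N * L ^ (C + 1) / L ^ B := by
        ring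
      linarith
    refine (sum_le_sum hblock).trans ?_
    rw [sum_const, nsmul_eq_mul, hI, card_range]
    have hlog : ((Nat.log 2 N + 1 : ℕ) : ℝ) ≤ 3 * L := by
      have h1 : (2 : ℝ) ^ (Nat.log 2 N) ≤ N := by
        exact_mod_cast Nat.pow_log_le_self 2 (by omega)
      have h2 := Real.log_le_log (by positivity) h1
      rw [Real.log_pow] at h2
      have h3 : (0.69 : ℝ) < Real.log 2 := by
        have := Real.log_two_gt_d9; linarith
      have h4 : (Nat.log 2 N : ℝ) ≤ 2 * L := by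
        have h5 : (Nat.log 2 N : ℝ) * 0.69 ≤ (Nat.log 2 N : ℝ) * Real.log 2 :=
          mul_le_mul_of_nonneg_left h3.le (Nat.cast_nonneg _)
        linarith
      push_cast
      linarith
    calc ((Nat.log 2 N + 1 : ℕ) : ℝ) *
          (6 * C * N * L ^ (C + 1) / L ^ B + 3 * C * P * L ^ (C + 1))
        ≤ 3 * L * (6 * C * N * L ^ (C + 1) / L ^ B + 3 * C * P * L ^ (C + 1)) :=
          mul_le_mul_of_nonneg_right hlog (by positivity)
      _ = 18 * C * N * L ^ (C + 2) / L ^ B + 9 * C * P * L ^ (C + 2) := by ring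

private theorem abs_logpow (k : ℕ) (c s : ℝ) (hc : 0 < c) (hs : 0 < s) :
    ∀ᶠ N : ℕ in atTop, c * Real.log (N : ℝ) ^ k ≤ (N : ℝ) ^ s := by
  have h1 : (fun x : ℝ => Real.log x ^ k) =o[atTop] fun x => x ^ s := by
    have h0 := isLittleO_log_rpow_rpow_atTop (s := s) (k : ℝ) hs
    simpa only [Real.rpow_natCast] using h0
  have h2 := h1.def (c := 1 / c) (by positivity)
  have h3 := tendsto_natCast_atTop_atTop (R := ℝ) |>.eventually h2
  filter_upwards [h3, eventually_ge_atTop 1] with N hN hN1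
  have hN1' : (1 : ℝ) ≤ N := by exact_mod_cast hN1
  have hlog : 0 ≤ Real.log (N : ℝ) := Real.log_nonneg hN1'
  rw [Real.norm_eq_abs, Real.norm_eq_abs, abs_of_nonneg (by positivity),
    abs_of_nonneg (by positivity)] at hN
  calc c * Real.log (N : ℝ) ^ k ≤ c * (1 / c * (N : ℝ) ^ s) :=
        mul_le_mul_of_nonneg_left hN hc.le
    _ = (N : ℝ) ^ s := by field_simp

private theorem abs_psiw_mul (w : ℕ → ℝ) (N r e : ℕ) (χ : DirichletCharacter ℂ r) :
    psiw w N (r * e) χ = psiw w N e χ := by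
  unfold psiw
  have hsub : (range (N + 1)).filter (fun q => q.Coprime (r * e)) ⊆
      (range (N + 1)).filter (fun q => q.Coprime e) := by
    intro q hq
    rw [mem_filter] at hq ⊢
    exact ⟨hq.1, Nat.Coprime.coprime_mul_left_right hq.2⟩
  refine sum_subset hsub fun q hq hq' => ?_
  rw [mem_filter] at hq hq'
  have h1 : ¬ q.Coprime r := by
    intro h
    exact hq' ⟨hq.1, Nat.Coprime.mul_right h hq.2⟩
  have h2 : χ (q : ZMod r) = 0 := by
    apply χ.map_nonunit
    rw [ZMod.isUnit_iff_coprime]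
    exact h1
  rw [h2, mul_zero]

theorem thm_Abs (h1 : St_Red) : St_Abs := by
  classical
  intro θ δ κ Bd C A hθ0 hθ hδ hκ0 hκ1
  set B : ℕ := A + C + 5 with hB
  set A' : ℕ := A + B + 3 with hA'
  refine ⟨A', B, ?_⟩
  obtain ⟨D, hDdef⟩ : ∃ D : ℝ, D = max Bd 0 := ⟨_, rfl⟩
  have hD0 : 0 ≤ D := by rw [hDdef]; exact le_max_right _ _
  have hDB : Bd ≤ D := by rw [hDdef]; exact le_max_left _ _
  have hlogtend : Tendsto (fun N : ℕ => Real.log (N : ℝ)) atTop atTop :=
    Real.tendsto_log_atTop.comp tendsto_natCast_atTop_atTop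
  have hev1 : ∀ᶠ N : ℕ in atTop, 1 ≤ Real.log (N : ℝ) := hlogtend.eventually_ge_atTop 1
  have hev2 : ∀ᶠ N : ℕ in atTop, 4 * (6 + 108 * (C : ℝ)) ≤ Real.log (N : ℝ) :=
    hlogtend.eventually_ge_atTop _
  have hev3 := abs_logpow (A + 3) (24 * (D + 1)) κ (by positivity) hκ0
  have hev4 := abs_logpow (A + C + 4) (216 * (C + 1)) δ (by positivity) hδ
  filter_upwards [hev1, hev2, hev3, hev4, eventually_ge_atTop 3]
    with N hL hL2 hL3 hL4 hN3
  intro w hRgh hPLC hPSW
  have hN0 : (0 : ℝ) < N := by positivity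
  have hN1 : (1 : ℝ) ≤ N := by exact_mod_cast (by omega : 1 ≤ N)
  have hzr : (1 : ℝ) ≤ (N : ℝ) ^ κ := Real.one_le_rpow hN1 hκ0.le
  have hRgh' : Rgh D ((N : ℝ) ^ κ) N w := fun m hm =>
    ⟨(hRgh m hm).1, (hRgh m hm).2.1.trans hDB, (hRgh m hm).2.2⟩
  refine ⟨fun q => 1 / (q.totient : ℝ) * (D * q.primeFactors.card * ((N : ℝ) / (N : ℝ) ^ κ) +
      ∑ r ∈ q.divisors.erase 1, ∑ χ ∈ prim r, ‖psiw w N q χ‖), ?_, ?_, ?_⟩
  · intro q
    have : (0 : ℝ) ≤ (N : ℝ) / (N : ℝ) ^ κ := by positivity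
    positivity
  · intro q b hq _ hb
    exact h1 D ((N : ℝ) ^ κ) N w hzr hRgh' q b hq hb
  · simp only [Nat.cast_one, one_pow, one_mul]
    set L := Real.log (N : ℝ) with hLdef
    have hL0 : 0 < L := by linarith
    set X := (Icc 1 N).filter (fun q : ℕ => (q : ℝ) ≤ (N : ℝ) ^ θ) with hX
    set X' := (Icc 2 N).filter (fun r : ℕ => (r : ℝ) ≤ (N : ℝ) ^ θ) with hX'
    set S : ℕ → ℕ → ℝ := fun e r => ∑ χ ∈ prim r, ‖psiw w N e χ‖ with hS
    have hS0 : ∀ e r, 0 ≤ S e r := fun e r => by positivity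
    have hSmul : ∀ r e, S (r * e) r = S e r := by
      intro r e
      rw [hS]
      refine sum_congr rfl fun χ _ => ?_
      rw [abs_psiw_mul]
    have hsplit : ∑ q ∈ X, 1 / (q.totient : ℝ) * (D * q.primeFactors.card * ((N : ℝ) / (N : ℝ) ^ κ) +
        ∑ r ∈ q.divisors.erase 1, ∑ χ ∈ prim r, ‖psiw w N q χ‖) =
        ∑ q ∈ X, 1 / (q.totient : ℝ) * (D * q.primeFactors.card * ((N : ℝ) / (N : ℝ) ^ κ)) +
        ∑ q ∈ X, 1 / (q.totient : ℝ) * ∑ r ∈ q.divisors.erase 1, S q r := by
      rw [← sum_add_distrib]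
      refine sum_congr rfl fun q _ => ?_
      rw [mul_add]
    rw [hsplit]
    -- first term
    have hfirst : ∑ q ∈ X, 1 / (q.totient : ℝ) * (D * q.primeFactors.card * ((N : ℝ) / (N : ℝ) ^ κ)) ≤
        N / L ^ A / 2 := by
      have hNz : (N : ℝ) / (N : ℝ) ^ κ = (N : ℝ) ^ (1 - κ) := by
        rw [Real.rpow_sub hN0, Real.rpow_one]
      have hNz0 : (0 : ℝ) ≤ (N : ℝ) ^ (1 - κ) := Real.rpow_nonneg hN0.le _
      have ha : ∀ q ∈ X, 1 / (q.totient : ℝ) *
          (D * q.primeFactors.card * ((N : ℝ) / (N : ℝ) ^ κ)) ≤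
          1 / (q.totient : ℝ) * (D * (2 * L) * (N : ℝ) ^ (1 - κ)) := by
        intro q hq
        rw [hX, mem_filter, mem_Icc] at hq
        apply mul_le_mul_of_nonneg_left _ (by positivity)
        have h4 := abs_omega q hq.1.1
        have h5 : Real.log q ≤ Real.log N :=
          Real.log_le_log (by exact_mod_cast hq.1.1) (by exact_mod_cast hq.1.2)
        have h6 : (0.69 : ℝ) < Real.log 2 := by
          have := Real.log_two_gt_d9; linarith
        have h7 : Real.log q / Real.log 2 ≤ 2 * L := by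
          rw [div_le_iff₀ (by linarith)]
          rw [← hLdef] at h5
          nlinarith
        rw [hNz]
        exact mul_le_mul_of_nonneg_right (mul_le_mul_of_nonneg_left (h4.trans h7) hD0) hNz0
      have hb : ∑ q ∈ X, 1 / (q.totient : ℝ) ≤ 6 * L ^ 2 :=
        (sum_le_sum_of_subset_of_nonneg (filter_subset _ _) (fun _ _ _ => by positivity)).trans
          (abs_sum_inv N hL)
      refine (sum_le_sum ha).trans ?_
      rw [← sum_mul]
      refine (mul_le_mul_of_nonneg_right hb (by positivity)).trans ?_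
      rw [div_div, le_div_iff₀ (by positivity)]
      have h8 : 6 * L ^ 2 * (D * (2 * L) * (N : ℝ) ^ (1 - κ)) * (L ^ A * 2) =
          (N : ℝ) ^ (1 - κ) * (24 * D * L ^ (A + 3)) := by ring
      rw [h8]
      have h9 : 24 * D * L ^ (A + 3) ≤ (N : ℝ) ^ κ := by
        refine le_trans ?_ hL3
        apply mul_le_mul_of_nonneg_right _ (by positivity)
        linarith
      calc (N : ℝ) ^ (1 - κ) * (24 * D * L ^ (A + 3)) ≤
            (N : ℝ) ^ (1 - κ) * (N : ℝ) ^ κ :=
            mul_le_mul_of_nonneg_left h9 hNz0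
        _ = N := by
          rw [← Real.rpow_add hN0]
          simp
    -- second term
    set K : ℝ := L ^ B * (N / L ^ A') + (18 * C * N * L ^ (C + 2) / L ^ B +
          9 * C * (N : ℝ) ^ (1 - δ) * L ^ (C + 2)) with hK
    have hcond : ∀ e ∈ Icc 1 N, ∑ r ∈ X', 1 / (r.totient : ℝ) * S e r ≤ K := by
      intro e he
      rw [mem_Icc] at he
      exact abs_cond w N e C B A' θ δ hL hN3
        (fun R hR1 hR12 => hPLC R e hR1 hR12)
        (fun r hr hrL χ hχ => hPSW e r he.1 he.2 hr hrL χ hχ)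
    have hPn : 0 ≤ (N : ℝ) ^ (1 - δ) := Real.rpow_nonneg hN0.le _
    have hK0 : 0 ≤ K := by positivity
    have hsecond : ∑ q ∈ X, 1 / (q.totient : ℝ) * ∑ r ∈ q.divisors.erase 1, S q r ≤
        6 * L ^ 2 * K := by
      have ha : ∀ q ∈ X, 1 / (q.totient : ℝ) * ∑ r ∈ q.divisors.erase 1, S q r ≤
          ∑ r ∈ X', ∑ e ∈ Icc 1 N,
            if q = r * e then 1 / (e.totient : ℝ) * (1 / (r.totient : ℝ) * S e r) else 0 := by
        intro q hq
        rw [hX, mem_filter, mem_Icc] at hq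
        rw [mul_sum]
        have hin : ∀ r ∈ q.divisors.erase 1, 1 / (q.totient : ℝ) * S q r ≤
            ∑ e ∈ Icc 1 N,
              if q = r * e then 1 / (e.totient : ℝ) * (1 / (r.totient : ℝ) * S e r) else 0 := by
          intro r hr
          rw [mem_erase, Nat.mem_divisors] at hr
          obtain ⟨hr1, ⟨e, rfl⟩, hre⟩ := hr
          have hr0 : r ≠ 0 := by rintro rfl; simp at hre
          have he0 : e ≠ 0 := by rintro rfl; simp at hre
          have heN : e ∈ Icc 1 N := by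
            rw [mem_Icc]
            exact ⟨by omega, (Nat.le_mul_of_pos_left e (by omega)).trans hq.1.2⟩
          refine le_trans ?_ (single_le_sum (f := fun e' => if r * e = r * e' then
            1 / (e'.totient : ℝ) * (1 / (r.totient : ℝ) * S e' r) else 0) ?_ heN)
          · simp only [if_true]
            rw [hSmul, ← mul_assoc]
            apply mul_le_mul_of_nonneg_right _ (hS0 e r)
            have hφr : (0 : ℝ) < r.totient := by exact_mod_cast Nat.totient_pos.mpr (by omega)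
            have hφe : (0 : ℝ) < e.totient := by exact_mod_cast Nat.totient_pos.mpr (by omega)
            have h5 : (r.totient : ℝ) * e.totient ≤ ((r * e).totient : ℝ) := by
              exact_mod_cast Nat.totient_super_multiplicative r e
            rw [one_div_mul_one_div]
            exact one_div_le_one_div_of_le (by positivity) (by linarith)
          · intro e' _
            split_ifs
            · have := hS0 e' r
              positivity
            · exact le_rfl
        refine (sum_le_sum hin).trans ?_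
        apply sum_le_sum_of_subset_of_nonneg
        · intro r hr
          rw [mem_erase, Nat.mem_divisors] at hr
          obtain ⟨hr1, hrq, _⟩ := hr
          have hrle : r ≤ q := Nat.le_of_dvd (by omega) hrq
          have hr0 : r ≠ 0 := by rintro rfl; simp at hrq; omega
          rw [hX', mem_filter, mem_Icc]
          have hrle' : (r : ℝ) ≤ q := by exact_mod_cast hrle
          exact ⟨⟨by omega, hrle.trans hq.1.2⟩, hrle'.trans hq.2⟩
        · intro r _ _
          refine sum_nonneg fun e' _ => ?_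
          split_ifs
          · have := hS0 e' r
            positivity
          · exact le_rfl
      refine (sum_le_sum ha).trans ?_
      have hb : ∑ q ∈ X, ∑ r ∈ X', ∑ e ∈ Icc 1 N,
            (if q = r * e then 1 / (e.totient : ℝ) * (1 / (r.totient : ℝ) * S e r) else 0) ≤
          ∑ r ∈ X', ∑ e ∈ Icc 1 N, 1 / (e.totient : ℝ) * (1 / (r.totient : ℝ) * S e r) := by
        rw [sum_comm]
        refine sum_le_sum fun r _ => ?_
        rw [sum_comm]
        refine sum_le_sum fun e _ => ?_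
        rw [sum_ite_eq' X (r * e) (fun _ => 1 / (e.totient : ℝ) * (1 / (r.totient : ℝ) * S e r))]
        have := hS0 e r
        split_ifs
        · exact le_rfl
        · positivity
      refine hb.trans ?_
      rw [sum_comm]
      have hc : ∀ e ∈ Icc 1 N, ∑ r ∈ X', 1 / (e.totient : ℝ) * (1 / (r.totient : ℝ) * S e r) ≤
          1 / (e.totient : ℝ) * K := by
        intro e he
        rw [← mul_sum]
        exact mul_le_mul_of_nonneg_left (hcond e he) (by positivity)
      refine (sum_le_sum hc).trans ?_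
      rw [← sum_mul]
      exact mul_le_mul_of_nonneg_right (abs_sum_inv N hL) hK0
    have hsecond2 : ∑ q ∈ X, 1 / (q.totient : ℝ) * ∑ r ∈ q.divisors.erase 1, S q r ≤
        N / L ^ A / 2 := by
      refine hsecond.trans ?_
      have e1 : 6 * L ^ 2 * (L ^ B * (N / L ^ A')) = N / L ^ A * (6 / L) := by
        have : L ^ A' = L ^ A * L ^ B * L ^ 3 := by rw [hA', pow_add, pow_add]
        rw [this]
        field_simp
      have e2 : 6 * L ^ 2 * (18 * C * N * L ^ (C + 2) / L ^ B) = N / L ^ A * (108 * C / L) := by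
        have : L ^ B = L ^ A * L ^ (C + 2) * L ^ 3 := by
          rw [hB, ← pow_add, ← pow_add]
          congr 1
        rw [this]
        field_simp
        ring
      have e4 : 6 * L ^ 2 * (9 * C * (N : ℝ) ^ (1 - δ) * L ^ (C + 2)) ≤ N / L ^ A * (1 / 4) := by
        have e5 : N / L ^ A * (1 / 4) = N / (L ^ A * 4) := by ring
        rw [e5, le_div_iff₀ (by positivity)]
        have e6 : 6 * L ^ 2 * (9 * C * (N : ℝ) ^ (1 - δ) * L ^ (C + 2)) * (L ^ A * 4) =
            (N : ℝ) ^ (1 - δ) * (216 * C * L ^ (A + C + 4)) := by ring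
        rw [e6]
        have e7 : 216 * C * L ^ (A + C + 4) ≤ (N : ℝ) ^ δ := by
          refine le_trans ?_ hL4
          apply mul_le_mul_of_nonneg_right _ (by positivity)
          linarith
        calc (N : ℝ) ^ (1 - δ) * (216 * C * L ^ (A + C + 4))
            ≤ (N : ℝ) ^ (1 - δ) * (N : ℝ) ^ δ := mul_le_mul_of_nonneg_left e7 hPn
          _ = N := by
            rw [← Real.rpow_add hN0]
            simp
      rw [hK, mul_add, mul_add, e1, e2]
      have e3 : 6 / L + 108 * C / L ≤ 1 / 4 := by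
        rw [← add_div, div_le_iff₀ hL0]; linarith
      have e8 : N / L ^ A * (6 / L + 108 * C / L) ≤ N / L ^ A * (1 / 4) :=
            mul_le_mul_of_nonneg_left e3 (by positivity)
      have e9 : N / L ^ A * (6 / L + 108 * C / L) =
          N / L ^ A * (6 / L) + N / L ^ A * (108 * C / L) := by ring
      have e10 : N / L ^ A / 2 = N / L ^ A * (1 / 4) + N / L ^ A * (1 / 4) := by ring
      rw [e10]
      linarith
    have := add_le_add hfirst hsecond2
    calc _ ≤ N / L ^ A / 2 + N / L ^ A / 2 := this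
      _ = N / L ^ A := by ring

end Pool.Agent.PTB
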