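import Mathlib
import Pool.Agent.PTB.Stmts

set_option autoImplicit false

/-!
# PTB / BVA

Assembly of the Bombieri-Vinogradov theorem for the weights `wa`.
-/

namespace Pool.Agent.PTB

open Finset Filter Pool.Agent.MT

theorem thm_BVA (h1 : St_Abs) (h2 : St_Wei) (h3 : St_Rgh) (h4 : St_LC) (h5 : St_SW) : St_BVA := by
  intro η hη κ θ hκ0 hκ hθ0 hθ A K
  obtain ⟨Bd, hR⟩ := h3 η hη κ hκ0 hκ
  obtain ⟨δ, C, hδ, hL⟩ := h4 η hη κ θ hκ0 hκ hθ0 hθ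
  obtain ⟨A₁, hW⟩ := h2 θ (κ / 2) Bd A K hθ0 (by linarith) (by linarith) (by linarith)
  obtain ⟨A', B', hA⟩ := h1 θ δ (κ / 2) Bd C A₁ hθ0 (by linarith) hδ (by linarith) (by linarith)
  filter_upwards [hR, hL, hW, hA, h5 η hη κ hκ0 hκ A' B'] with N g1 g2 g3 g4 g5
  intro a ha
  exact g3 _ (g1 a ha) (g4 _ (g1 a ha) (g2 a ha) (g5 a ha))

end Pool.Agent.PTB
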