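import Mathlib
import Pool.Agent.PTB.Stmts
import Pool.Agent.GV.Asm

set_option autoImplicit false

/-!
# PTB / BVP

Bombieri-Vinogradov for the weight `1[m prime] (log m / log N) η(m/N)`, from the version for the von
Mangoldt function.
-/

namespace Pool.Agent.PTB

open Finset Filter Pool.Agent.MT

/-- the part of the proper prime powers -/
noncomputable def bvpR (η : ℝ → ℝ) (N m : ℕ) : ℝ :=
  if m.Prime then 0 else ArithmeticFunction.vonMangoldt m * η ((m : ℝ) / N)

theorem bvp_R_nonneg {η : ℝ → ℝ} (hη : IsWt η) (N m : ℕ) : 0 ≤ bvpR η N m := by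
  unfold bvpR
  split_ifs with h
  · exact le_refl _
  · exact mul_nonneg ArithmeticFunction.vonMangoldt_nonneg (hη.nonneg _)

theorem bvp_split (η : ℝ → ℝ) (N m : ℕ) :
    wp η N m = (ArithmeticFunction.vonMangoldt m * η ((m : ℝ) / N) - bvpR η N m) /
      Real.log N := by
  unfold wp bvpR
  split_ifs with h
  · rw [ArithmeticFunction.vonMangoldt_apply_prime h]
    ring
  · ring

theorem bvp_R_sum {η : ℝ → ℝ} (hη : IsWt η) (N : ℕ) (hN : 1 ≤ N) :
    ∑ m ∈ range (N + 1), bvpR η N m ≤ 2 * Real.sqrt N * Real.log N := by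
  have h1 : ∑ m ∈ range (N + 1), bvpR η N m ≤
      ∑ n ∈ (Ioc 0 ⌊(N : ℝ)⌋₊).filter (fun n => ¬ n.Prime), ArithmeticFunction.vonMangoldt n := by
    rw [Nat.floor_natCast]
    have e1 : ∑ m ∈ range (N + 1), bvpR η N m =
        ∑ m ∈ (Ioc 0 N).filter (fun n => ¬ n.Prime), bvpR η N m := by
      symm
      apply sum_subset
      · intro m hm
        rw [mem_filter, mem_Ioc] at hm
        rw [mem_range]
        omega
      · intro m hm hm'
        rw [mem_range] at hm
        rw [mem_filter, mem_Ioc, not_and_or, not_not] at hm'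
        unfold bvpR
        rcases hm' with h | h
        · have h0 : m = 0 := by omega
          subst h0
          simp
        · rw [if_pos h]
    rw [e1]
    apply sum_le_sum
    intro m hm
    rw [mem_filter] at hm
    unfold bvpR
    rw [if_neg hm.2]
    exact mul_le_of_le_one_right ArithmeticFunction.vonMangoldt_nonneg (hη.le_one _)
  rw [← Chebyshev.psi_sub_theta_eq_sum_not_prime] at h1
  exact h1.trans (Chebyshev.psi_sub_theta_le (by exact_mod_cast hN))

theorem bvp_growth (θ : ℝ) (hθ : θ < 1 / 2) (A K : ℕ) : ∀ᶠ N : ℕ in atTop,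
    8 * (1 + Real.log N) ^ K * Real.log N ^ A ≤ (N : ℝ) ^ (1 / 2 - θ) := by
  have h1 : Tendsto (fun N : ℕ => (N : ℝ)) atTop atTop := tendsto_natCast_atTop_atTop
  have h2 := (isLittleO_log_rpow_rpow_atTop ((K + A : ℕ) : ℝ)
    (show (0 : ℝ) < 1 / 2 - θ by linarith)).comp_tendsto h1
  have h3 := h2.bound (show (0 : ℝ) < 1 / (8 * 2 ^ K) by positivity)
  have h4 : ∀ᶠ N : ℕ in atTop, (1 : ℝ) ≤ Real.log N :=
    (Real.tendsto_log_atTop.comp h1).eventually_ge_atTop 1
  filter_upwards [h3, h4] with N h5 h6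
  simp only [Function.comp] at h5
  rw [Real.rpow_natCast, Real.norm_of_nonneg (by positivity),
    Real.norm_of_nonneg (by positivity)] at h5
  have h7 : (1 + Real.log N) ^ K ≤ 2 ^ K * Real.log N ^ K := by
    rw [← mul_pow]
    exact pow_le_pow_left₀ (by linarith) (by linarith) K
  calc 8 * (1 + Real.log N) ^ K * Real.log N ^ A
      ≤ 8 * (2 ^ K * Real.log N ^ K) * Real.log N ^ A := by
        refine mul_le_mul_of_nonneg_right ?_ (by positivity)
        exact mul_le_mul_of_nonneg_left h7 (by norm_num)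
    _ = (8 * 2 ^ K) * Real.log N ^ (K + A) := by rw [pow_add]; ring
    _ ≤ (8 * 2 ^ K) * (1 / (8 * 2 ^ K) * (N : ℝ) ^ (1 / 2 - θ)) :=
        mul_le_mul_of_nonneg_left h5 (by positivity)
    _ = (N : ℝ) ^ (1 / 2 - θ) := by
        field_simp

theorem thm_BVP : St_BVP := by
  intro η hη θ hθ0 hθ A K
  have h1 : Tendsto (fun N : ℕ => (N : ℝ)) atTop atTop := tendsto_natCast_atTop_atTop
  have h4 : ∀ᶠ N : ℕ in atTop, (2 : ℝ) ≤ Real.log N :=
    (Real.tendsto_log_atTop.comp h1).eventually_ge_atTop 2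
  filter_upwards [GV.bvw η hη θ hθ0 hθ A K, bvp_growth θ hθ A K, h4, eventually_ge_atTop 1]
    with N hE hg hL hN
  obtain ⟨E, hE0, hE1, hE2⟩ := hE
  set L := Real.log N with hLdef
  have hL0 : 0 < L := by linarith
  set P : ℝ := 2 * Real.sqrt N * L with hP
  have hP0 : 0 ≤ P := by positivity
  have hR := bvp_R_sum hη N hN
  rw [← hLdef, ← hP] at hR
  have hNpos : (0 : ℝ) < N := by exact_mod_cast hN
  refine ⟨fun q => (E q + 2 * P) / L, fun q => div_nonneg (by linarith [hE0 q]) hL0.le, ?_, ?_⟩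
  · intro q b hq hqN hb
    have a1 : wAP (wp η N) N q b = (psiAP η N q b -
        ∑ m ∈ (range (N + 1)).filter (fun m => m % q = b % q), bvpR η N m) / L := by
      unfold wAP psiAP
      rw [← sum_sub_distrib, sum_div]
      exact sum_congr rfl fun m _ => bvp_split η N m
    have a2 : w0 (wp η N) N = (psi0 η N - ∑ m ∈ range (N + 1), bvpR η N m) / L := by
      unfold w0 psi0
      rw [← sum_sub_distrib, sum_div]
      exact sum_congr rfl fun m _ => bvp_split η N m
    set R1 := ∑ m ∈ (range (N + 1)).filter (fun m => m % q = b % q), bvpR η N m with hR1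
    set R0 := ∑ m ∈ range (N + 1), bvpR η N m with hR0
    have b0 : 0 ≤ R0 := sum_nonneg fun m _ => bvp_R_nonneg hη N m
    have b1 : 0 ≤ R1 := sum_nonneg fun m _ => bvp_R_nonneg hη N m
    have b2 : R1 ≤ R0 := sum_le_sum_of_subset_of_nonneg (filter_subset _ _)
      fun m _ _ => bvp_R_nonneg hη N m
    have hφ : (1 : ℝ) ≤ (q.totient : ℝ) := by
      exact_mod_cast Nat.totient_pos.2 (by omega)
    have b3 : 0 ≤ R0 / (q.totient : ℝ) := div_nonneg b0 (by linarith)
    have b4 : R0 / (q.totient : ℝ) ≤ R0 := div_le_self b0 hφ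
    have c1 := hE1 q b hq hqN hb
    rw [a1, a2]
    have e : (psiAP η N q b - R1) / L - (psi0 η N - R0) / L / (q.totient : ℝ) =
        ((psiAP η N q b - psi0 η N / (q.totient : ℝ)) - R1 + R0 / (q.totient : ℝ)) / L := by
      ring
    rw [e, abs_div, abs_of_pos hL0]
    apply div_le_div_of_nonneg_right _ hL0.le
    rw [abs_le] at c1 ⊢
    constructor <;> linarith [c1.1, c1.2]
  · set F := (Icc 1 N).filter (fun q : ℕ => (q : ℝ) ≤ (N : ℝ) ^ θ) with hF
    have s1 : ∑ q ∈ F, (K : ℝ) ^ q.primeFactors.card ≤ (N : ℝ) ^ θ * (1 + L) ^ K := by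
      have t1 : ∑ q ∈ F, (K : ℝ) ^ q.primeFactors.card ≤
          ∑ q ∈ F, (N : ℝ) ^ θ * ((K : ℝ) ^ q.primeFactors.card / q) := by
        apply sum_le_sum
        intro q hq
        rw [hF, mem_filter, mem_Icc] at hq
        have hq0 : (0 : ℝ) < q := by exact_mod_cast hq.1.1
        rw [← mul_div_assoc, le_div_iff₀ hq0, mul_comm]
        exact mul_le_mul_of_nonneg_right hq.2 (by positivity)
      have t2 : ∑ q ∈ F, (K : ℝ) ^ q.primeFactors.card / q ≤
          ∑ q ∈ Icc 1 N, (K : ℝ) ^ q.primeFactors.card / q :=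
        sum_le_sum_of_subset_of_nonneg (filter_subset _ _) fun q _ _ => by positivity
      have t3 := GV.bvw_omega_sum N hN K
      refine t1.trans ?_
      rw [← mul_sum]
      exact mul_le_mul_of_nonneg_left (t2.trans t3) (by positivity)
    have s2 : ∑ q ∈ F, (K : ℝ) ^ q.primeFactors.card * ((E q + 2 * P) / L) =
        (∑ q ∈ F, (K : ℝ) ^ q.primeFactors.card * E q +
          2 * P * ∑ q ∈ F, (K : ℝ) ^ q.primeFactors.card) / L := by
      rw [mul_sum, ← sum_add_distrib, sum_div]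
      refine sum_congr rfl fun q _ => ?_
      ring
    rw [s2]
    have s3 : Real.sqrt N * ((N : ℝ) ^ θ * (N : ℝ) ^ (1 / 2 - θ)) = N := by
      rw [← Real.rpow_add hNpos, Real.sqrt_eq_rpow, ← Real.rpow_add hNpos]
      have : 1 / 2 + (θ + (1 / 2 - θ)) = 1 := by ring
      rw [this, Real.rpow_one]
    have s4 : 2 * P * ∑ q ∈ F, (K : ℝ) ^ q.primeFactors.card ≤ L * (N / L ^ A) / 2 := by
      have u1 : 2 * P * ∑ q ∈ F, (K : ℝ) ^ q.primeFactors.card ≤
          2 * P * ((N : ℝ) ^ θ * (1 + L) ^ K) := mul_le_mul_of_nonneg_left s1 (by positivity)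
      refine u1.trans ?_
      have u2 : 0 < L ^ A := pow_pos hL0 A
      have u3 : 2 * P * ((N : ℝ) ^ θ * (1 + L) ^ K) * L ^ A * 2 ≤ L * N := by
        have u4 : 2 * P * ((N : ℝ) ^ θ * (1 + L) ^ K) * L ^ A * 2 =
            L * (Real.sqrt N * ((N : ℝ) ^ θ * (8 * (1 + L) ^ K * L ^ A))) := by
          rw [hP]
          ring
        rw [u4]
        refine mul_le_mul_of_nonneg_left ?_ hL0.le
        calc _ ≤ Real.sqrt N * ((N : ℝ) ^ θ * (N : ℝ) ^ (1 / 2 - θ)) := by
              refine mul_le_mul_of_nonneg_left ?_ (Real.sqrt_nonneg _)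
              exact mul_le_mul_of_nonneg_left hg (by positivity)
          _ = N := s3
      have u5 : L * (N / L ^ A) / 2 = (L * N) / (L ^ A * 2) := by
        field_simp
      rw [u5, le_div_iff₀ (by positivity)]
      calc _ = 2 * P * ((N : ℝ) ^ θ * (1 + L) ^ K) * L ^ A * 2 := by ring
        _ ≤ _ := u3
    rw [div_le_iff₀ hL0]
    have s5 : N / L ^ A ≤ L * (N / L ^ A) / 2 := by
      have : 0 ≤ N / L ^ A := by positivity
      nlinarith
    calc _ ≤ L * (N / L ^ A) / 2 + L * (N / L ^ A) / 2 := add_le_add (hE2.trans s5) s4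
      _ = N / L ^ A * L := by ring

end Pool.Agent.PTB
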