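import Mathlib
import Pool.Agent.PTB.Stmts
import Pool.Agent.PT.Defs

set_option autoImplicit false

/-!
# PTB / Glue

Translation into the notation of `Pool.Agent.PT`: Bombieri-Vinogradov for `BB α` and for the boxes.
-/

namespace Pool.Agent.PTB

open Finset Filter Pool.Agent.MT

theorem glue_BB (α : ℕ → ℝ) (m : ℕ) : PT.BB α m = bta α m := by
  unfold PT.BB bta
  refine sum_congr rfl fun a _ => ?_
  split_ifs <;> simp

theorem glue_adm {N : ℕ} (hN : 2 ≤ N) {α : ℕ → ℝ} (h : PT.AlOK N α) : Adm (1 / 1000) N α := by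
  intro k
  refine ⟨(h.1 k).1, (h.1 k).2, fun hk => ?_⟩
  obtain ⟨h1, h2, h3⟩ := h.2 k hk
  have hN1 : (1 : ℝ) < N := by exact_mod_cast (by omega : 1 < N)
  have h4 : (1 : ℝ) < (N : ℝ) ^ (1 / 1000 : ℝ) := Real.one_lt_rpow hN1 (by norm_num)
  refine ⟨?_, ?_, h3⟩
  · -- `k ≥ 2`, so it has a prime factor
    have hk1 : k ≠ 1 := by
      rintro rfl
      rw [Nat.cast_one] at h1
      linarith
    obtain ⟨p, hp, hpk⟩ := Nat.exists_prime_and_dvd hk1
    have hk0 : 0 < k := by
      rcases Nat.eq_zero_or_pos k with h0 | h0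
      · rw [h0, Nat.cast_zero] at h1
        linarith
      · exact h0
    have h5 : (p : ℝ) ≤ k := by exact_mod_cast Nat.le_of_dvd hk0 hpk
    linarith [h3 p hp hpk]
  · have h5 : (1 - 1 / 1000 : ℝ) = 999 / 1000 := by norm_num
    rw [h5]
    exact h2

theorem glue_BVOK {η : ℝ → ℝ} {θ : ℝ} {A K N : ℕ} {α : ℕ → ℝ} (h : LevW (wa η α N) N θ A K) :
    PT.BVOK η θ A K N (PT.BB α) := by
  obtain ⟨E, h1, h2, h3⟩ := h
  refine ⟨E, h1, fun q c hq hqN hc => ?_, h3⟩
  have h4 := h2 q c hq hqN hc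
  have e1 : ∑ m ∈ (range (N + 1)).filter (fun m => m % q = c % q),
      PT.BB α m * η ((m : ℝ) / N) = wAP (wa η α N) N q c := by
    unfold wAP wa
    exact sum_congr rfl fun m _ => by rw [glue_BB]
  have e2 : PT.B0 η N (PT.BB α) = w0 (wa η α N) N := by
    unfold PT.B0 w0 wa
    exact sum_congr rfl fun m _ => by rw [glue_BB]
  rw [e1, e2]
  exact h4

/-- the weighted indicator of the primes -/
noncomputable def bP (N m : ℕ) : ℝ := if m.Prime then Real.log m / Real.log N else 0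

theorem glue_wp (η : ℝ → ℝ) (N m : ℕ) : bP N m * η ((m : ℝ) / N) = wp η N m := by
  unfold bP wp
  split_ifs <;> simp

theorem glue_BVOKP {η : ℝ → ℝ} {θ : ℝ} {A K N : ℕ} (h : LevW (wp η N) N θ A K) :
    PT.BVOK η θ A K N (bP N) := by
  obtain ⟨E, h1, h2, h3⟩ := h
  refine ⟨E, h1, fun q c hq hqN hc => ?_, h3⟩
  have h4 := h2 q c hq hqN hc
  have e1 : ∑ m ∈ (range (N + 1)).filter (fun m => m % q = c % q),
      bP N m * η ((m : ℝ) / N) = wAP (wp η N) N q c := by
    unfold wAP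
    exact sum_congr rfl fun m _ => glue_wp η N m
  have e2 : PT.B0 η N (bP N) = w0 (wp η N) N := by
    unfold PT.B0 w0
    exact sum_congr rfl fun m _ => glue_wp η N m
  rw [e1, e2]
  exact h4

/-- the coefficients of an admissible box are allowed -/
theorem glue_al {ρ : ℝ} {M n : ℕ} (hM : 1 ≤ M) {k : Fin (n + 1) → ℕ} (hk : PT.BoxOK ρ M k)
    {N : ℕ} (hN : 2 ≤ N) : PT.AlOK N (PT.al k M N) := by
  classical
  have hM0 : (0 : ℝ) < M := by exact_mod_cast hM
  have hN1 : (1 : ℝ) ≤ N := by exact_mod_cast (by omega : 1 ≤ N)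
  have hN0 : (0 : ℝ) < N := by linarith
  refine ⟨fun a => ?_, fun a ha => ?_⟩
  · unfold PT.al
    split_ifs
    · exact ⟨zero_le_one, le_refl _⟩
    · exact ⟨le_refl _, zero_le_one⟩
  · unfold PT.al at ha
    split_ifs at ha with h1
    · obtain ⟨p, hp, rfl⟩ := h1
      have hki : ∀ i, (1 / 1000 : ℝ) ≤ (k i : ℝ) / M := by
        intro i
        rw [le_div_iff₀ hM0]
        have := hk.2.1 i
        linarith
      have hpi : ∀ i, (N : ℝ) ^ (1 / 1000 : ℝ) < p i := fun i =>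
        lt_of_le_of_lt (Real.rpow_le_rpow_of_exponent_le hN1 (hki i)) (hp i).2.1
      refine ⟨?_, ?_, ?_⟩
      · have h2 : (p 0 : ℝ) ≤ ((∏ i, p i : ℕ) : ℝ) := by
          have h3 : p 0 ∣ ∏ i, p i := dvd_prod_of_mem _ (mem_univ _)
          have h4 : 0 < ∏ i, p i := prod_pos fun i _ => (hp i).1.pos
          exact_mod_cast Nat.le_of_dvd h4 h3
        exact (hpi 0).le.trans h2
      · have h2 : ((∏ i, p i : ℕ) : ℝ) ≤ (N : ℝ) ^ (∑ i, ((k i : ℝ) + 1) / M) := by
          rw [Real.rpow_sum_of_pos hN0, Nat.cast_prod]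
          exact prod_le_prod (fun i _ => Nat.cast_nonneg _) fun i _ => (hp i).2.2
        refine h2.trans (Real.rpow_le_rpow_of_exponent_le hN1 ?_)
        have h3 := hk.2.2.1 0
        have h4 : (1 / 1000 : ℝ) ≤ ((k 0 : ℝ) + 2) / M := by
          refine (hki 0).trans ?_
          apply div_le_div_of_nonneg_right _ hM0.le
          linarith
        linarith
      · intro q hq hqd
        obtain ⟨i, -, hi⟩ := (Prime.dvd_finsetProd_iff hq.prime p).1 hqd
        rw [(Nat.prime_dvd_prime_iff_eq hq (hp i).1).1 hi]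
        exact hpi i
    · exact absurd rfl ha

end Pool.Agent.PTB
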