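import Mathlib
import Pool.Agent.PTB.Stmts
import Pool.Agent.CH.PLC

set_option autoImplicit false

/-!
# PTB / LC

Large conductors by the bilinear large sieve (adapted from `Pool/Agent/CH/PLC.lean`).
-/

namespace Pool.Agent.PTB

open Finset Filter Pool.Agent.MT

open Classical in
/-- the coefficients `a(l)` on the integers prime to `e` -/
noncomputable def lc_a (a : ℕ → ℝ) (e l : ℕ) : ℂ := if l.Coprime e then ((a l : ℝ) : ℂ) else 0

open Classical in
/-- indicator of the primes that do not divide `e` -/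
noncomputable def lc_b (e k : ℕ) : ℂ := if k.Prime ∧ k.Coprime e then 1 else 0

theorem lc_a_norm {a : ℕ → ℝ} (h0 : ∀ k, 0 ≤ a k) (h1 : ∀ k, a k ≤ 1) (e l : ℕ) :
    ‖lc_a a e l‖ ^ 2 ≤ 1 := by
  unfold lc_a
  split_ifs
  · rw [Complex.norm_real, Real.norm_eq_abs, abs_of_nonneg (h0 l)]
    exact pow_le_one₀ (h0 l) (h1 l)
  · simp

theorem lc_b_norm (e k : ℕ) : ‖lc_b e k‖ ^ 2 ≤ 1 := by
  unfold lc_b
  split_ifs <;> simp

theorem lc_decomp (N e : ℕ) (a : ℕ → ℝ) (F : ℕ → ℂ) :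
    ∑ m ∈ (range (N + 1)).filter (fun m => m.Coprime e), ((bta a m : ℝ) : ℂ) * F m =
      ∑ l ∈ Icc 1 N, ∑ k ∈ Icc 1 (N / l), lc_a a e l * lc_b e k * F (l * k) := by
  classical
  have h1 : ∑ m ∈ (range (N + 1)).filter (fun m => m.Coprime e), ((bta a m : ℝ) : ℂ) * F m =
      ∑ m ∈ range (N + 1), ∑ k ∈ m.divisors,
        (if m.Coprime e ∧ (m / k).Prime then ((a k : ℝ) : ℂ) * F m else 0) := by
    rw [Finset.sum_filter]
    apply Finset.sum_congr rfl
    intro m _
    by_cases hm : m.Coprime e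
    · rw [if_pos hm]
      unfold bta
      rw [Complex.ofReal_sum, Finset.sum_mul]
      apply Finset.sum_congr rfl
      intro k _
      by_cases hp : (m / k).Prime
      · rw [if_pos hp, if_pos ⟨hm, hp⟩]
      · rw [if_neg hp, if_neg (fun h => hp h.2), Complex.ofReal_zero, zero_mul]
    · rw [if_neg hm]
      symm
      apply Finset.sum_eq_zero
      intro k _
      rw [if_neg (fun h => hm h.1)]
  rw [h1, Finset.sum_sigma', Finset.sum_sigma']
  refine Finset.sum_bij' (fun x _ => (⟨x.2, x.1 / x.2⟩ : (_ : ℕ) × ℕ))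
    (fun y _ => (⟨y.1 * y.2, y.1⟩ : (_ : ℕ) × ℕ)) ?_ ?_ ?_ ?_ ?_
  · rintro ⟨m, k⟩ hx
    rw [Finset.mem_sigma, Finset.mem_range, Nat.mem_divisors] at hx
    obtain ⟨h2, h3, h4⟩ := hx
    simp only at h2 h3 h4
    have hk : 0 < k := Nat.pos_of_dvd_of_pos h3 (Nat.pos_of_ne_zero h4)
    rw [Finset.mem_sigma, Finset.mem_Icc, Finset.mem_Icc]
    simp only
    refine ⟨⟨hk, (Nat.le_of_dvd (Nat.pos_of_ne_zero h4) h3).trans (by omega)⟩,
      Nat.div_pos (Nat.le_of_dvd (Nat.pos_of_ne_zero h4) h3) hk, ?_⟩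
    exact Nat.div_le_div_right (by omega)
  · rintro ⟨l, k⟩ hx
    rw [Finset.mem_sigma, Finset.mem_Icc, Finset.mem_Icc] at hx
    obtain ⟨⟨h2, h3⟩, h4, h5⟩ := hx
    simp only at h2 h3 h4 h5
    rw [Finset.mem_sigma, Finset.mem_range, Nat.mem_divisors]
    simp only
    refine ⟨?_, dvd_mul_right _ _, (Nat.mul_pos h2 h4).ne'⟩
    have : l * k ≤ N := by
      rw [mul_comm]
      exact (Nat.le_div_iff_mul_le h2).1 h5
    omega
  · rintro ⟨m, k⟩ hx
    rw [Finset.mem_sigma, Finset.mem_range, Nat.mem_divisors] at hx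
    simp only at hx ⊢
    rw [Nat.mul_div_cancel' hx.2.1]
  · rintro ⟨l, k⟩ hx
    rw [Finset.mem_sigma, Finset.mem_Icc, Finset.mem_Icc] at hx
    simp only at hx ⊢
    rw [Nat.mul_div_cancel_left k hx.1.1]
  · rintro ⟨m, k⟩ hx
    rw [Finset.mem_sigma, Finset.mem_range, Nat.mem_divisors] at hx
    obtain ⟨h2, h3, h4⟩ := hx
    simp only at h2 h3 h4 ⊢
    have h5 : k * (m / k) = m := Nat.mul_div_cancel' h3
    rw [h5]
    have h6 : m.Coprime e ↔ k.Coprime e ∧ (m / k).Coprime e := by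
      nth_rewrite 1 [← h5]
      exact Nat.coprime_mul_iff_left
    unfold lc_a lc_b
    by_cases ha : k.Coprime e
    · by_cases hb : (m / k).Prime ∧ (m / k).Coprime e
      · rw [if_pos ⟨h6.2 ⟨ha, hb.2⟩, hb.1⟩, if_pos ha, if_pos hb, mul_one]
      · rw [if_neg (fun h => hb ⟨h.2, (h6.1 h.1).2⟩), if_neg hb, mul_zero, zero_mul]
    · rw [if_neg (fun h => ha (h6.1 h.1).1), if_neg ha, zero_mul, zero_mul]

theorem thm_LC : St_LC := by
  classical
  intro η hη κ θ hκ0 hκ1 hθ0 hθ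
  obtain ⟨C, hC0, hC⟩ := Pool.Agent.BVX.typeII2 η hη
  set δ : ℝ := min (κ / 2) (1 / 2 - θ) with hδ
  have hδ0 : 0 < δ := lt_min (by linarith) (by linarith)
  have hδ1 : δ ≤ κ / 2 := min_le_left _ _
  have hδ2 : δ ≤ 1 / 2 - θ := min_le_right _ _
  obtain ⟨C', hC'⟩ := exists_nat_ge (C * 12 * 4)
  refine ⟨δ, C' + 1, hδ0, ?_⟩
  filter_upwards [eventually_ge_atTop 3] with N hN a hadm
  intro R e hR hRN
  have ha0 : ∀ k, 0 ≤ a k := fun k => (hadm k).1
  have ha1 : ∀ k, a k ≤ 1 := fun k => (hadm k).2.1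
  have hN0 : (0 : ℝ) < N := by exact_mod_cast (by omega : 0 < N)
  have hN1 : (1 : ℝ) ≤ N := by exact_mod_cast (by omega : 1 ≤ N)
  have hR1 : (1 : ℝ) ≤ R := by exact_mod_cast hR
  have hL : 1 ≤ Real.log N := by
    rw [Real.le_log_iff_exp_le hN0]
    have h1 := Real.exp_one_lt_d9
    have h2 : (3 : ℝ) ≤ N := by exact_mod_cast hN
    linarith
  set z : ℕ := ⌊(N : ℝ) ^ κ⌋₊ with hzdef
  set y : ℕ := ⌊(N : ℝ) ^ (1 - κ)⌋₊ with hydef
  have hNκ : (1 : ℝ) ≤ (N : ℝ) ^ κ := Real.one_le_rpow hN1 hκ0.le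
  have hz1' : 1 ≤ z := (Nat.one_le_floor_iff _).2 hNκ
  have hzge : (N : ℝ) ^ κ / 2 ≤ z := by
    have h1 : (N : ℝ) ^ κ < z + 1 := Nat.lt_floor_add_one _
    have h2 : (1 : ℝ) ≤ z := by exact_mod_cast hz1'
    linarith
  have hy : (y : ℝ) ≤ (N : ℝ) ^ (1 - κ) := Nat.floor_le (by positivity)
  have hsupp : ∀ l, a l ≠ 0 → z < l ∧ l ≤ y := by
    intro l hl
    obtain ⟨h1, h2, -⟩ := (hadm l).2.2 hl
    refine ⟨?_, Nat.le_floor h2⟩
    have h3 : (z : ℝ) < l := (Nat.floor_le (by positivity)).trans_lt h1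
    exact_mod_cast h3
  have hsupp' : ∀ l, ¬ (z < l ∧ l ≤ y) → lc_a a e l = 0 := by
    intro l hl
    unfold lc_a
    have : a l = 0 := by
      by_contra h
      exact hl (hsupp l h)
    rw [this]
    simp
  set J : ℕ := Nat.log 2 N + 1 with hJ
  have hJN : N < 2 ^ J := Nat.lt_pow_succ_log_self (by norm_num) N
  have hyN : y ≤ N := by
    have : (y : ℝ) ≤ N := by
      refine hy.trans ?_
      calc (N : ℝ) ^ (1 - κ) ≤ (N : ℝ) ^ (1 : ℝ) :=
            Real.rpow_le_rpow_of_exponent_le hN1 (by linarith)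
        _ = N := Real.rpow_one _
    exact_mod_cast this
  have hyJ : y ≤ 2 ^ J * z := by
    have : 2 ^ J ≤ 2 ^ J * z := Nat.le_mul_of_pos_right _ (by omega)
    omega
  -- number of blocks
  have hJL : (J : ℝ) ≤ 3 * Real.log N := by
    have h1 : (2 : ℝ) ^ (Nat.log 2 N) ≤ N := by
      exact_mod_cast Nat.pow_log_le_self 2 (by omega : N ≠ 0)
    have h2 : (Nat.log 2 N : ℝ) * Real.log 2 ≤ Real.log N := by
      have := Real.log_le_log (by positivity) h1
      rwa [Real.log_pow] at this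
    have h3 : (1 / 2 : ℝ) ≤ Real.log 2 := by
      have := Real.log_two_gt_d9
      linarith
    have h4 : (Nat.log 2 N : ℝ) * (1 / 2) ≤ Real.log N := by
      refine le_trans ?_ h2
      exact mul_le_mul_of_nonneg_left h3 (by positivity)
    rw [hJ]
    push_cast
    linarith
  -- decomposition of the character sum
  have hdec : ∀ (r : ℕ) (χ : DirichletCharacter ℂ r), psiw (wa η a N) N e χ =
      ∑ i ∈ range J, ∑ l ∈ Ioc (2 ^ i * z) (2 * (2 ^ i * z)), ∑ k ∈ Icc 1 (N / l),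
        lc_a a e l * lc_b e k *
          (χ ((l * k : ℕ) : ZMod r) * ((η (((l * k : ℕ) : ℝ) / N) : ℝ) : ℂ)) := by
    intro r χ
    rw [← Pool.Agent.CH.PLC_dyadic z (fun l => ∑ k ∈ Icc 1 (N / l), lc_a a e l * lc_b e k *
          (χ ((l * k : ℕ) : ZMod r) * ((η (((l * k : ℕ) : ℝ) / N) : ℝ) : ℂ))) J]
    have h1 : psiw (wa η a N) N e χ = ∑ q ∈ (range (N + 1)).filter (fun q => q.Coprime e),
        ((bta a q : ℝ) : ℂ) * (χ (q : ZMod r) * ((η ((q : ℝ) / N) : ℝ) : ℂ)) := by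
      unfold psiw wa
      apply Finset.sum_congr rfl
      intro q _
      push_cast
      ring
    rw [h1, lc_decomp N e a (fun q => χ (q : ZMod r) * ((η ((q : ℝ) / N) : ℝ) : ℂ))]
    have hz0 : ∀ l, ¬ (z < l ∧ l ≤ y) → ∑ k ∈ Icc 1 (N / l), lc_a a e l * lc_b e k *
          (χ ((l * k : ℕ) : ZMod r) * ((η (((l * k : ℕ) : ℝ) / N) : ℝ) : ℂ)) = 0 := by
      intro l hl
      apply Finset.sum_eq_zero
      intro k _
      rw [hsupp' l hl]
      ring
    have hsub : Ioc z y ⊆ Ioc z (2 ^ J * z) := Finset.Ioc_subset_Ioc_right hyJ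
    have hsub2 : Ioc z y ⊆ Icc 1 N := by
      intro l hl
      rw [Finset.mem_Ioc] at hl
      rw [Finset.mem_Icc]
      omega
    rw [← Finset.sum_subset hsub (fun l _ hl' => hz0 l (fun h => hl' (Finset.mem_Ioc.2 h))),
      ← Finset.sum_subset hsub2 (fun l _ hl' => hz0 l (fun h => hl' (Finset.mem_Ioc.2 h)))]
  -- bound of the blocks
  have hblock : ∀ i ∈ range J, ∑ q ∈ Icc 1 (2 * R), ∑ χ ∈ prim q,
      ‖∑ l ∈ Ioc (2 ^ i * z) (2 * (2 ^ i * z)), ∑ k ∈ Icc 1 (N / l),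
        lc_a a e l * lc_b e k *
          (χ ((l * k : ℕ) : ZMod q) * ((η (((l * k : ℕ) : ℝ) / N) : ℝ) : ℂ))‖ ≤
      C * (16 * ((N : ℝ) + R * (N : ℝ) ^ (1 - δ))) := by
    intro i _
    set M : ℕ := 2 ^ i * z with hM
    have hzM : z ≤ M := Nat.le_mul_of_pos_left z (by positivity)
    have hM1 : 1 ≤ M := hz1'.trans hzM
    by_cases hMy : M ≤ y
    · refine (hC N (2 * R) M (by omega) hM1 (lc_a a e) (lc_b e)).trans ?_
      have hM1r : (1 : ℝ) ≤ M := by exact_mod_cast hM1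
      have hM0r : (0 : ℝ) < M := by linarith
      have ha : ∑ l ∈ Ioc M (2 * M), ‖lc_a a e l‖ ^ 2 ≤ M := by
        calc ∑ l ∈ Ioc M (2 * M), ‖lc_a a e l‖ ^ 2 ≤ ∑ l ∈ Ioc M (2 * M), (1 : ℝ) :=
              Finset.sum_le_sum fun l _ => lc_a_norm ha0 ha1 e l
          _ = M := by
              rw [Finset.sum_const, Nat.card_Ioc, nsmul_eq_mul, mul_one]
              have : 2 * M - M = M := by omega
              rw [this]
      have hb : ∑ k ∈ Icc 1 (N / M), ‖lc_b e k‖ ^ 2 ≤ (N : ℝ) / M := by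
        calc ∑ k ∈ Icc 1 (N / M), ‖lc_b e k‖ ^ 2 ≤ ∑ k ∈ Icc 1 (N / M), (1 : ℝ) :=
              Finset.sum_le_sum fun l _ => lc_b_norm e l
          _ = ((N / M : ℕ) : ℝ) := by
              rw [Finset.sum_const, Nat.card_Icc, nsmul_eq_mul, mul_one]
              simp
          _ ≤ (N : ℝ) / M := Nat.cast_div_le
      have h1 : Real.sqrt (((M : ℝ) + ((2 * R : ℕ) : ℝ) ^ 2) *
            ∑ l ∈ Ioc M (2 * M), ‖lc_a a e l‖ ^ 2) ≤
          Real.sqrt (((M : ℝ) + (2 * (R : ℝ)) ^ 2) * M) := by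
        apply Real.sqrt_le_sqrt
        push_cast
        exact mul_le_mul_of_nonneg_left ha (by positivity)
      have h2 : Real.sqrt (((N : ℝ) / M + ((2 * R : ℕ) : ℝ) ^ 2) *
            ∑ k ∈ Icc 1 (N / M), ‖lc_b e k‖ ^ 2) ≤
          Real.sqrt (((N : ℝ) / M + (2 * (R : ℝ)) ^ 2) * (N / M)) := by
        apply Real.sqrt_le_sqrt
        push_cast
        exact mul_le_mul_of_nonneg_left hb (by positivity)
      rw [mul_assoc]
      apply mul_le_mul_of_nonneg_left _ hC0.le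
      refine (mul_le_mul h1 h2 (Real.sqrt_nonneg _) (Real.sqrt_nonneg _)).trans ?_
      refine (Pool.Agent.CH.PLC_block hN1 hM1r hR1).trans ?_
      -- the three terms
      have hNp : ∀ s t : ℝ, s ≤ t → (N : ℝ) ^ s ≤ (N : ℝ) ^ t := fun s t h =>
        Real.rpow_le_rpow_of_exponent_le hN1 h
      have hMle : (M : ℝ) ≤ (N : ℝ) ^ (1 - κ) := by
        have : (M : ℝ) ≤ y := by exact_mod_cast hMy
        linarith
      have hMge : (N : ℝ) ^ κ / 4 ≤ M := by
        have : (z : ℝ) ≤ M := by exact_mod_cast hzM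
        linarith
      have t1 : Real.sqrt ((N : ℝ) * M) ≤ (N : ℝ) ^ (1 - δ) := by
        calc Real.sqrt ((N : ℝ) * M) ≤ Real.sqrt ((N : ℝ) ^ (2 - κ)) := by
              apply Real.sqrt_le_sqrt
              calc (N : ℝ) * M ≤ (N : ℝ) * (N : ℝ) ^ (1 - κ) :=
                    mul_le_mul_of_nonneg_left hMle hN0.le
                _ = (N : ℝ) ^ (2 - κ) := by
                    nth_rewrite 1 [← Real.rpow_one (N : ℝ)]
                    rw [← Real.rpow_add hN0]
                    congr 1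
                    ring
          _ = (N : ℝ) ^ (1 - κ / 2) := by
              rw [Real.sqrt_eq_rpow, ← Real.rpow_mul hN0.le]
              congr 1
              ring
          _ ≤ _ := hNp _ _ (by linarith)
      have t2 : (N : ℝ) / Real.sqrt M ≤ 2 * (N : ℝ) ^ (1 - δ) := by
        have h3 : (N : ℝ) ^ (κ / 2) / 2 ≤ Real.sqrt M := by
          have h4 : ((N : ℝ) ^ (κ / 2) / 2) ^ 2 = (N : ℝ) ^ κ / 4 := by
            rw [div_pow, ← Real.rpow_natCast, ← Real.rpow_mul hN0.le]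
            norm_num
          calc (N : ℝ) ^ (κ / 2) / 2 = Real.sqrt (((N : ℝ) ^ (κ / 2) / 2) ^ 2) :=
                (Real.sqrt_sq (by positivity)).symm
            _ ≤ _ := by
                rw [h4]
                exact Real.sqrt_le_sqrt hMge
        calc (N : ℝ) / Real.sqrt M ≤ (N : ℝ) / ((N : ℝ) ^ (κ / 2) / 2) :=
              div_le_div_of_nonneg_left hN0.le (by positivity) h3
          _ = 2 * (N : ℝ) ^ (1 - κ / 2) := by
              rw [Real.rpow_sub hN0, Real.rpow_one]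
              field_simp
          _ ≤ _ := mul_le_mul_of_nonneg_left (hNp _ _ (by linarith)) (by norm_num)
      have t3 : (R : ℝ) * Real.sqrt N ≤ (N : ℝ) ^ (1 - δ) := by
        calc (R : ℝ) * Real.sqrt N ≤ (N : ℝ) ^ θ * (N : ℝ) ^ (1 / 2 : ℝ) := by
              rw [Real.sqrt_eq_rpow]
              exact mul_le_mul_of_nonneg_right hRN (by positivity)
          _ = (N : ℝ) ^ (θ + 1 / 2) := (Real.rpow_add hN0 _ _).symm
          _ ≤ _ := hNp _ _ (by linarith)
      set W : ℝ := (N : ℝ) ^ (1 - δ) with hW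
      have hW0 : 0 ≤ W := by positivity
      have u1 : (R : ℝ) * Real.sqrt ((N : ℝ) * M) ≤ R * W :=
        mul_le_mul_of_nonneg_left t1 (by positivity)
      have u2 : (R : ℝ) * ((N : ℝ) / Real.sqrt M) ≤ R * (2 * W) :=
        mul_le_mul_of_nonneg_left t2 (by positivity)
      have u3 : (R : ℝ) ^ 2 * Real.sqrt N ≤ R * W := by
        rw [sq, mul_assoc]
        exact mul_le_mul_of_nonneg_left t3 (by positivity)
      have u4 : 0 ≤ (R : ℝ) * W := by positivity
      linarith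
    · -- empty block
      have hzero : ∑ q ∈ Icc 1 (2 * R), ∑ χ ∈ prim q,
          ‖∑ l ∈ Ioc M (2 * M), ∑ k ∈ Icc 1 (N / l),
            lc_a a e l * lc_b e k *
              (χ ((l * k : ℕ) : ZMod q) * ((η (((l * k : ℕ) : ℝ) / N) : ℝ) : ℂ))‖ = 0 := by
        apply Finset.sum_eq_zero
        intro q _
        apply Finset.sum_eq_zero
        intro χ _
        rw [norm_eq_zero]
        apply Finset.sum_eq_zero
        intro l hl
        rw [Finset.mem_Ioc] at hl
        apply Finset.sum_eq_zero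
        intro k _
        rw [hsupp' l (by omega)]
        ring
      rw [hzero]
      positivity
  -- sum over the blocks
  have hsum : ∑ q ∈ Ioc R (2 * R), ∑ χ ∈ prim q, ‖psiw (wa η a N) N e χ‖ ≤
      ∑ i ∈ range J, (C * (16 * ((N : ℝ) + R * (N : ℝ) ^ (1 - δ)))) := by
    calc ∑ q ∈ Ioc R (2 * R), ∑ χ ∈ prim q, ‖psiw (wa η a N) N e χ‖
        ≤ ∑ q ∈ Icc 1 (2 * R), ∑ χ ∈ prim q, ‖psiw (wa η a N) N e χ‖ := by
          apply Finset.sum_le_sum_of_subset_of_nonneg
          · intro q hq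
            rw [Finset.mem_Ioc] at hq
            rw [Finset.mem_Icc]
            omega
          · intro q _ _
            exact Finset.sum_nonneg fun χ _ => norm_nonneg _
      _ ≤ ∑ q ∈ Icc 1 (2 * R), ∑ χ ∈ prim q, ∑ i ∈ range J,
          ‖∑ l ∈ Ioc (2 ^ i * z) (2 * (2 ^ i * z)), ∑ k ∈ Icc 1 (N / l),
            lc_a a e l * lc_b e k *
              (χ ((l * k : ℕ) : ZMod q) * ((η (((l * k : ℕ) : ℝ) / N) : ℝ) : ℂ))‖ := by
          apply Finset.sum_le_sum
          intro q _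
          apply Finset.sum_le_sum
          intro χ _
          rw [hdec q χ]
          exact norm_sum_le _ _
      _ = ∑ i ∈ range J, ∑ q ∈ Icc 1 (2 * R), ∑ χ ∈ prim q,
          ‖∑ l ∈ Ioc (2 ^ i * z) (2 * (2 ^ i * z)), ∑ k ∈ Icc 1 (N / l),
            lc_a a e l * lc_b e k *
              (χ ((l * k : ℕ) : ZMod q) * ((η (((l * k : ℕ) : ℝ) / N) : ℝ) : ℂ))‖ := by
          rw [Finset.sum_comm' (s := range J) (t := fun _ => Icc 1 (2 * R))
            (t' := Icc 1 (2 * R)) (s' := fun _ => range J) (by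
              intro x y
              exact and_comm |>.trans and_comm |>.trans Iff.rfl)]
          apply Finset.sum_congr rfl
          intro q _
          exact Finset.sum_comm
      _ ≤ _ := Finset.sum_le_sum hblock
  refine hsum.trans ?_
  rw [Finset.sum_const, Finset.card_range, nsmul_eq_mul]
  have hT : 0 ≤ (N : ℝ) + R * (N : ℝ) ^ (1 - δ) := by positivity
  set T : ℝ := (N : ℝ) + R * (N : ℝ) ^ (1 - δ) with hTdef
  have hLp : Real.log N ≤ Real.log N ^ (C' + 1) := le_self_pow₀ hL (by omega)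
  calc (J : ℝ) * (C * (16 * T)) ≤ (3 * Real.log N) * (C * (16 * T)) :=
        mul_le_mul_of_nonneg_right hJL (by positivity)
    _ = (C * 12 * 4) * T * Real.log N := by ring
    _ ≤ ((C' + 1 : ℕ) : ℝ) * T * Real.log N ^ (C' + 1) := by
        push_cast
        have h5 : C * 12 * 4 * T ≤ ((C' : ℝ) + 1) * T :=
          mul_le_mul_of_nonneg_right (by linarith) hT
        have h6 : 0 ≤ ((C' : ℝ) + 1) * T := by positivity
        calc C * 12 * 4 * T * Real.log N ≤ ((C' : ℝ) + 1) * T * Real.log N :=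
              mul_le_mul_of_nonneg_right h5 (by linarith)
          _ ≤ _ := mul_le_mul_of_nonneg_left hLp h6

end Pool.Agent.PTB
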