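import Mathlib
import Pool.Agent.PTB.Stmts
import Pool.Agent.CH.P2

set_option autoImplicit false

/-!
# PTB / Last

Prime number theorem with the smooth weight for p, uniformly in k <= N^(1-kappa): with the real number
Y = N/k >= N^kappa: the sum is sum over primes p <= floor(Y) of eta(p/Y). Two-sided version of
Pool/Agent/CH/P2.lean.
-/

namespace Pool.Agent.PTB

open Finset Filter Pool.Agent.MT Pool.Agent.CH

/-- lower bound for the Riemann sum -/
theorem last_riemann {η : ℝ → ℝ} (hη : IsWt η) {L : ℝ} (hL : 0 < L)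
    (hLip : ∀ x y : ℝ, |η x - η y| ≤ L * |x - y|) {Y : ℝ} (hY : 1 ≤ Y) :
    Y * (∫ t in (0 : ℝ)..1, η t) - L - 1 ≤ ∑ i ∈ range (⌊Y⌋₊ + 1), η ((i : ℝ) / Y) := by
  have hY0 : 0 < Y := by linarith
  have hc : Continuous η := hη.smooth.continuous
  have hint : ∀ a b : ℝ, IntervalIntegrable η MeasureTheory.volume a b :=
    fun a b => hc.intervalIntegrable a b
  rw [sum_range_succ']
  have h0 : η (((0 : ℕ) : ℝ) / Y) = 0 := by
    apply wt_zero_of_small η hη
    simp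
  rw [h0, add_zero]
  have h1 : ∀ i ∈ range ⌊Y⌋₊,
      Y * (∫ t in ((i : ℝ) / Y)..(((i + 1 : ℕ) : ℝ) / Y), η t) - L / Y ≤
      η (((i + 1 : ℕ) : ℝ) / Y) := by
    intro i _
    have hlen : (((i + 1 : ℕ) : ℝ) / Y) - (i : ℝ) / Y = 1 / Y := by
      push_cast
      ring
    have hle : (i : ℝ) / Y ≤ ((i + 1 : ℕ) : ℝ) / Y := by
      rw [← sub_nonneg, hlen]
      positivity
    have h2 : ∫ t in ((i : ℝ) / Y)..(((i + 1 : ℕ) : ℝ) / Y), η t ≤
        ∫ _t in ((i : ℝ) / Y)..(((i + 1 : ℕ) : ℝ) / Y), (η (((i + 1 : ℕ) : ℝ) / Y) + L / Y) := by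
      refine intervalIntegral.integral_mono_on hle (hint _ _) intervalIntegrable_const ?_
      intro t ht
      have h3 := hLip (((i + 1 : ℕ) : ℝ) / Y) t
      have h4 : |((i + 1 : ℕ) : ℝ) / Y - t| ≤ 1 / Y := by
        rw [abs_of_nonneg (by linarith [ht.2])]
        linarith [ht.1, hlen]
      have h5 := (abs_le.1 h3).1
      have h6 : L * |((i + 1 : ℕ) : ℝ) / Y - t| ≤ L * (1 / Y) := mul_le_mul_of_nonneg_left h4 hL.le
      have h7 : L * (1 / Y) = L / Y := by ring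
      linarith
    rw [intervalIntegral.integral_const, hlen, smul_eq_mul] at h2
    have h3 := mul_le_mul_of_nonneg_left h2 hY0.le
    have h4 : Y * (1 / Y * (η (((i + 1 : ℕ) : ℝ) / Y) + L / Y)) =
        η (((i + 1 : ℕ) : ℝ) / Y) + L / Y := by
      field_simp
    linarith
  have hfl : (⌊Y⌋₊ : ℝ) ≤ Y := Nat.floor_le hY0.le
  have hfl2 : Y < (⌊Y⌋₊ : ℝ) + 1 := Nat.lt_floor_add_one Y
  have h5 : ∑ i ∈ range ⌊Y⌋₊, (Y * (∫ t in ((i : ℝ) / Y)..(((i + 1 : ℕ) : ℝ) / Y), η t) - L / Y) =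
      Y * (∫ t in (((0 : ℕ) : ℝ) / Y)..((⌊Y⌋₊ : ℝ) / Y), η t) - ⌊Y⌋₊ * (L / Y) := by
    rw [sum_sub_distrib, ← mul_sum, sum_const, card_range, nsmul_eq_mul]
    rw [intervalIntegral.sum_integral_adjacent_intervals (a := fun i : ℕ => (i : ℝ) / Y)
      fun i _ => hint _ _]
  refine le_trans ?_ (sum_le_sum h1)
  rw [h5, Nat.cast_zero, zero_div]
  have h6 : (⌊Y⌋₊ : ℝ) * (L / Y) ≤ L := by
    calc (⌊Y⌋₊ : ℝ) * (L / Y) ≤ Y * (L / Y) := by gcongr
      _ = L := by field_simp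
  have h7 : (⌊Y⌋₊ : ℝ) / Y ≤ 1 := by
    rw [div_le_one hY0]
    exact hfl
  have h8 := intervalIntegral.integral_add_adjacent_intervals (hint 0 ((⌊Y⌋₊ : ℝ) / Y))
    (hint ((⌊Y⌋₊ : ℝ) / Y) 1)
  have h9 : ∫ t in ((⌊Y⌋₊ : ℝ) / Y)..1, η t ≤ ∫ _t in ((⌊Y⌋₊ : ℝ) / Y)..1, (1 : ℝ) :=
    intervalIntegral.integral_mono_on h7 (hint _ _) intervalIntegrable_const
      fun t _ => hη.le_one t
  rw [intervalIntegral.integral_const, smul_eq_mul, mul_one] at h9
  have h10 : Y * (1 - (⌊Y⌋₊ : ℝ) / Y) ≤ 1 := by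
    rw [mul_sub, mul_one, mul_div_cancel₀ _ hY0.ne']
    linarith
  have h11 : Y * (∫ t in ((⌊Y⌋₊ : ℝ) / Y)..1, η t) ≤ 1 :=
    (mul_le_mul_of_nonneg_left h9 hY0.le).trans h10
  have h12 : Y * (∫ t in (0 : ℝ)..1, η t) = Y * (∫ t in (0 : ℝ)..((⌊Y⌋₊ : ℝ) / Y), η t) +
      Y * (∫ t in ((⌊Y⌋₊ : ℝ) / Y)..1, η t) := by
    rw [← mul_add, h8]
  linarith

/-- the lower bound -/
theorem last_low {η : ℝ → ℝ} (hη : IsWt η) {ε : ℝ} (hε : 0 < ε) : ∃ Y₀ : ℝ, ∀ Y : ℝ, Y₀ ≤ Y →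
    ((∫ t in (0 : ℝ)..1, η t) - ε) * (Y / Real.log Y) ≤ ∑ p ∈ pr ⌊Y⌋₊, η ((p : ℝ) / Y) := by
  obtain ⟨L, hL, hLip⟩ := wt_lipschitz η hη
  set I : ℝ := ∫ t in (0 : ℝ)..1, η t with hI
  set δ : ℝ := ε / 4 / (1 + L) with hδ
  have hδ0 : 0 < δ := by positivity
  obtain ⟨C, hC0, hC⟩ := p2_bound hδ0
  refine ⟨max 2 (2 / ε * (L + 1 + (C + δ) * (1 + L))), fun Y hY => ?_⟩
  have hY2 : 2 ≤ Y := (le_max_left _ _).trans hY
  have hY3 : 2 / ε * (L + 1 + (C + δ) * (1 + L)) ≤ Y := (le_max_right _ _).trans hY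
  have hY0 : 0 < Y := by linarith
  have hlogY : 0 < Real.log Y := Real.log_pos (by linarith)
  set M := ⌊Y⌋₊ with hM
  have hMY : (M : ℝ) ≤ Y := Nat.floor_le hY0.le
  set f : ℕ → ℝ := fun i => η ((i : ℝ) / Y) with hf
  have hparts : ∑ i ∈ range (M + 1), f i * p2a i - ∑ i ∈ range (M + 1), f i =
      f M * (∑ i ∈ range (M + 1), p2a i - (M + 1 : ℕ)) -
        ∑ i ∈ range M, (f (i + 1) - f i) * (∑ j ∈ range (i + 1), p2a j - (i + 1 : ℕ)) := by
    have h1 := p2_parts f p2a M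
    have h2 := p2_parts f (fun _ => 1) M
    simp only [mul_one, sum_const, card_range, nsmul_eq_mul] at h2
    rw [h1, h2]
    simp only [mul_sub, sum_sub_distrib]
    ring
  have hbd : ∀ i : ℕ, i ≤ M → |∑ j ∈ range (i + 1), p2a j - (i + 1 : ℕ)| ≤ δ * (Y + 1) + C := by
    intro i hi
    refine (hC (i + 1)).trans ?_
    have : (((i + 1 : ℕ) : ℝ)) ≤ Y + 1 := by
      push_cast
      have : (i : ℝ) ≤ M := by exact_mod_cast hi
      linarith
    have := mul_le_mul_of_nonneg_left this hδ0.le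
    linarith
  have hB0 : 0 ≤ δ * (Y + 1) + C := by positivity
  have herr : ∑ i ∈ range (M + 1), f i - (δ * (Y + 1) + C) * (1 + L) ≤
      ∑ i ∈ range (M + 1), f i * p2a i := by
    have h1 : -(δ * (Y + 1) + C) ≤ f M * (∑ i ∈ range (M + 1), p2a i - (M + 1 : ℕ)) := by
      have h2 := (abs_le.1 (hbd M le_rfl)).1
      have h3 : 0 ≤ f M := hη.nonneg _
      have h4 : f M ≤ 1 := hη.le_one _
      nlinarith
    have h2 : ∑ i ∈ range M, (f (i + 1) - f i) * (∑ j ∈ range (i + 1), p2a j - (i + 1 : ℕ)) ≤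
        (δ * (Y + 1) + C) * L := by
      calc ∑ i ∈ range M, (f (i + 1) - f i) * (∑ j ∈ range (i + 1), p2a j - (i + 1 : ℕ))
          ≤ ∑ _i ∈ range M, (L / Y) * (δ * (Y + 1) + C) := by
            refine sum_le_sum fun i hi => ?_
            have h3 : |f (i + 1) - f i| ≤ L / Y := by
              rw [hf]
              refine (hLip _ _).trans (le_of_eq ?_)
              have : (((i + 1 : ℕ) : ℝ) / Y - (i : ℝ) / Y) = 1 / Y := by
                push_cast
                ring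
              rw [this, abs_of_pos (by positivity)]
              ring
            have h4 := hbd i (mem_range.1 hi).le
            calc (f (i + 1) - f i) * (∑ j ∈ range (i + 1), p2a j - (i + 1 : ℕ))
                ≤ |(f (i + 1) - f i) * (∑ j ∈ range (i + 1), p2a j - (i + 1 : ℕ))| := le_abs_self _
              _ = |f (i + 1) - f i| * |∑ j ∈ range (i + 1), p2a j - (i + 1 : ℕ)| := abs_mul _ _
              _ ≤ (L / Y) * (δ * (Y + 1) + C) :=
                  mul_le_mul h3 h4 (abs_nonneg _) (by positivity)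
        _ = (M : ℝ) * ((L / Y) * (δ * (Y + 1) + C)) := by
            rw [sum_const, card_range, nsmul_eq_mul]
        _ ≤ Y * ((L / Y) * (δ * (Y + 1) + C)) := by gcongr
        _ = (δ * (Y + 1) + C) * L := by field_simp
    linarith
  have hR : Y * I - L - 1 ≤ ∑ i ∈ range (M + 1), f i := last_riemann hη hL hLip (by linarith)
  have hcount : ∑ i ∈ range (M + 1), f i * p2a i ≤
      ∑ p ∈ pr M, η ((p : ℝ) / Y) * Real.log Y := by
    unfold pr
    rw [sum_filter]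
    refine sum_le_sum fun i hi => ?_
    unfold p2a
    split_ifs with hp
    · rw [hf]
      refine mul_le_mul_of_nonneg_left ?_ (hη.nonneg _)
      have h1 : (i : ℝ) ≤ M := by exact_mod_cast Nat.lt_succ_iff.mp (mem_range.1 hi)
      exact Real.log_le_log (by exact_mod_cast hp.pos) (h1.trans hMY)
    · simp
  rw [← sum_mul] at hcount
  have h1 : (δ * (Y + 1) + C) * (1 + L) = ε / 4 * Y + (C + δ) * (1 + L) := by
    have h2 : δ * (1 + L) = ε / 4 := by
      rw [hδ]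
      field_simp
    linear_combination Y * h2
  have h3 : L + 1 + (C + δ) * (1 + L) ≤ ε / 2 * Y := by
    calc L + 1 + (C + δ) * (1 + L) = ε / 2 * (2 / ε * (L + 1 + (C + δ) * (1 + L))) := by
          field_simp
      _ ≤ ε / 2 * Y := by gcongr
  have h4 : (I - ε) * Y ≤ (∑ p ∈ pr M, η ((p : ℝ) / Y)) * Real.log Y := by
    have h5 : 0 ≤ ε / 4 * Y := by positivity
    linarith
  calc (I - ε) * (Y / Real.log Y) = ((I - ε) * Y) / Real.log Y := by ring
    _ ≤ ((∑ p ∈ pr M, η ((p : ℝ) / Y)) * Real.log Y) / Real.log Y := by gcongr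
    _ = ∑ p ∈ pr M, η ((p : ℝ) / Y) := by field_simp

theorem thm_Last : St_Last := by
  intro η hη κ ε hκ hκ1 hε
  have hc : Continuous η := hη.smooth.continuous
  set I : ℝ := ∫ t in (0 : ℝ)..1, η t with hI
  have hI1 : I ≤ 1 := by
    have h := intervalIntegral.integral_mono_on (μ := MeasureTheory.volume) (zero_le_one' ℝ)
      (hc.intervalIntegrable 0 1) (intervalIntegrable_const (c := (1 : ℝ)))
      fun t _ => hη.le_one t
    rw [intervalIntegral.integral_const, smul_eq_mul, mul_one, sub_zero] at h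
    exact h
  have hε' : 0 < ε * κ := by positivity
  obtain ⟨Y₁, hY₁⟩ := thm_P2 η hη (ε * κ) hε'
  obtain ⟨Y₂, hY₂⟩ := last_low hη hε'
  have hN1 : ∀ᶠ N : ℕ in atTop, max (max Y₁ Y₂) 2 ≤ (N : ℝ) ^ κ :=
    ((tendsto_rpow_atTop hκ).comp tendsto_natCast_atTop_atTop).eventually
      (eventually_ge_atTop _)
  filter_upwards [hN1, eventually_ge_atTop 2] with N hN hN2 k hk1 hk
  have hN0 : (0 : ℝ) < N := by
    have : (2 : ℝ) ≤ N := by exact_mod_cast hN2
    linarith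
  have hN1' : (1 : ℝ) < N := by
    have : (2 : ℝ) ≤ N := by exact_mod_cast hN2
    linarith
  have hk0 : (0 : ℝ) < k := by exact_mod_cast hk1
  set Y : ℝ := (N : ℝ) / k with hYdef
  have hYN : (N : ℝ) ^ κ ≤ Y := by
    rw [hYdef, le_div_iff₀ hk0]
    calc (N : ℝ) ^ κ * k ≤ (N : ℝ) ^ κ * (N : ℝ) ^ (1 - κ) := by gcongr
      _ = N := by
        rw [← Real.rpow_add hN0]
        rw [add_sub_cancel, Real.rpow_one]
  have hY1 : Y₁ ≤ Y := ((le_max_left _ _).trans (le_max_left _ _)).trans (hN.trans hYN)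
  have hY2 : Y₂ ≤ Y := ((le_max_right _ _).trans (le_max_left _ _)).trans (hN.trans hYN)
  have hY3 : 2 ≤ Y := (le_max_right _ _).trans (hN.trans hYN)
  have hY0 : 0 < Y := by linarith
  have hlogY : 0 < Real.log Y := Real.log_pos (by linarith)
  have hlogN : 0 < Real.log N := Real.log_pos hN1'
  have hlog : κ * Real.log N ≤ Real.log Y := by
    rw [← Real.log_rpow hN0]
    exact Real.log_le_log (by positivity) hYN
  have hfl : ⌊Y⌋₊ = N / k := Nat.floor_div_eq_div N k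
  have hsum : ∑ p ∈ (range (N / k + 1)).filter Nat.Prime, η (((k * p : ℕ) : ℝ) / N) =
      ∑ p ∈ pr ⌊Y⌋₊, η ((p : ℝ) / Y) := by
    rw [hfl]
    unfold pr
    refine sum_congr rfl fun p _ => ?_
    congr 1
    rw [hYdef]
    push_cast
    field_simp
  rw [hsum]
  have hup := hY₁ Y hY1
  have hlo := hY₂ Y hY2
  rw [← hI] at hup
  have hq : 0 < Y / Real.log Y := by positivity
  have h1 : ε * κ * (Y / Real.log Y) ≤ ε * (Y / Real.log N) := by
    have h2 : κ * (Y / Real.log Y) ≤ Y / Real.log N := by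
      rw [mul_div_assoc', div_le_div_iff₀ hlogY hlogN]
      nlinarith
    calc ε * κ * (Y / Real.log Y) = ε * (κ * (Y / Real.log Y)) := by ring
      _ ≤ ε * (Y / Real.log N) := by gcongr
  have h2 : ε * κ * (Y / Real.log Y) * I ≤ ε * κ * (Y / Real.log Y) := by
    have : 0 ≤ ε * κ * (Y / Real.log Y) := by positivity
    nlinarith
  rw [abs_le]
  constructor
  · nlinarith
  · nlinarith

end Pool.Agent.PTB
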