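import Mathlib
import Pool.Agent.PTB.Glue
import Pool.Agent.CH.MR

set_option autoImplicit false

/-!
# PTB / Mass

The mass of a box of almost primes.
-/

namespace Pool.Agent.PTB

open Finset Filter Pool.Agent.MT

/-- the primes of a cell -/
noncomputable def mcell (M N c : ℕ) : Finset ℕ :=
  (range (⌊(N : ℝ) ^ (((c : ℝ) + 1) / M)⌋₊ + 1)).filter (fun p : ℕ => p.Prime ∧
    (N : ℝ) ^ ((c : ℝ) / M) < p ∧ (p : ℝ) ≤ (N : ℝ) ^ (((c : ℝ) + 1) / M))

theorem mcell_mem {M N c p : ℕ} : p ∈ mcell M N c ↔ p.Prime ∧ (N : ℝ) ^ ((c : ℝ) / M) < p ∧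
    (p : ℝ) ≤ (N : ℝ) ^ (((c : ℝ) + 1) / M) := by
  unfold mcell
  rw [mem_filter, mem_range]
  constructor
  · exact fun h => h.2
  · intro h
    exact ⟨Nat.lt_succ_of_le (Nat.le_floor h.2.2), h⟩

/-- Mertens in a cell -/
theorem mcell_sum (M c : ℕ) (hM : 1 ≤ M) (hc : 1 ≤ c) (ε : ℝ) (hε : 0 < ε) :
    ∀ᶠ N : ℕ in atTop,
      |∑ p ∈ mcell M N c, 1 / (p : ℝ) - Real.log (((c : ℝ) + 1) / c)| ≤ ε := by
  have hM0 : (0 : ℝ) < M := by exact_mod_cast hM
  have hc0 : (0 : ℝ) < c := by exact_mod_cast hc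
  have ha : (0 : ℝ) < (c : ℝ) / M := by positivity
  have hab : (c : ℝ) / M ≤ ((c : ℝ) + 1) / M := div_le_div_of_nonneg_right (by linarith) hM0.le
  filter_upwards [CH.thm_MR ((c : ℝ) / M) (((c : ℝ) + 1) / M) 1 ε ha hab hε] with N hN
  have h1 := hN ((c : ℝ) / M) (((c : ℝ) + 1) / M) le_rfl hab le_rfl (fun _ => 1)
    (fun x _ _ => by norm_num) (fun x x' _ _ _ _ => by simp)
  have h2 : ∫ x in ((c : ℝ) / M)..(((c : ℝ) + 1) / M), (1 : ℝ) / x =
      Real.log (((c : ℝ) + 1) / c) := by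
    rw [integral_one_div_of_pos ha (lt_of_lt_of_le ha hab)]
    congr 1
    field_simp
  rw [h2] at h1
  exact h1

variable {n : ℕ}

/-- the tuples of primes in the cells -/
noncomputable def mtup (k : Fin n → ℕ) (M N : ℕ) : Finset (Fin n → ℕ) :=
  Fintype.piFinset fun i => mcell M N (k i)

theorem mtup_inj {k : Fin n → ℕ} (hk : StrictMono k) {M N : ℕ} (hM : 1 ≤ M) (hN : 1 ≤ N) :
    Set.InjOn (fun p : Fin n → ℕ => ∏ i, p i) (mtup k M N : Set (Fin n → ℕ)) := by
  have hM0 : (0 : ℝ) < M := by exact_mod_cast hM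
  have hN1 : (1 : ℝ) ≤ N := by exact_mod_cast hN
  intro p hp p' hp' h
  have hp1 : ∀ i, p i ∈ mcell M N (k i) := fun i => Fintype.mem_piFinset.1 (mem_coe.1 hp) i
  have hp2 : ∀ i, p' i ∈ mcell M N (k i) := fun i => Fintype.mem_piFinset.1 (mem_coe.1 hp') i
  simp only at h
  funext i
  have h1 : p i ∣ ∏ l, p' l := by
    rw [← h]
    exact dvd_prod_of_mem _ (mem_univ _)
  obtain ⟨l, -, hl⟩ := (Prime.dvd_finsetProd_iff (mcell_mem.1 (hp1 i)).1.prime p').1 h1
  have h2 := (Nat.prime_dvd_prime_iff_eq (mcell_mem.1 (hp1 i)).1 (mcell_mem.1 (hp2 l)).1).1 hl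
  rcases lt_trichotomy i l with h3 | h3 | h3
  · exfalso
    have h4 : k i + 1 ≤ k l := hk h3
    have h5 : ((k i : ℝ) + 1) / M ≤ (k l : ℝ) / M :=
      div_le_div_of_nonneg_right (by exact_mod_cast h4) hM0.le
    have h6 := (mcell_mem.1 (hp1 i)).2.2
    have h7 := (mcell_mem.1 (hp2 l)).2.1
    have h8 := Real.rpow_le_rpow_of_exponent_le hN1 h5
    rw [h2] at h6
    linarith
  · rw [h2, h3]
  · exfalso
    have h4 : k l + 1 ≤ k i := hk h3
    have h5 : ((k l : ℝ) + 1) / M ≤ (k i : ℝ) / M :=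
      div_le_div_of_nonneg_right (by exact_mod_cast h4) hM0.le
    have h6 := (mcell_mem.1 (hp2 l)).2.2
    have h7 := (mcell_mem.1 (hp1 i)).2.1
    have h8 := Real.rpow_le_rpow_of_exponent_le hN1 h5
    rw [← h2] at h6
    linarith

/-- the sum over the box is a product -/
theorem mal_sum {k : Fin n → ℕ} (hk : StrictMono k) {M N : ℕ} (hM : 1 ≤ M) (hN : 1 ≤ N)
    (hs : ∑ i, ((k i : ℝ) + 1) / M ≤ 1) :
    ∑ a ∈ Icc 1 N, PT.al k M N a / a = ∏ i, ∑ p ∈ mcell M N (k i), 1 / (p : ℝ) := by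
  classical
  have hN1 : (1 : ℝ) ≤ N := by exact_mod_cast hN
  have hN0 : (0 : ℝ) < N := by linarith
  rw [prod_univ_sum]
  have e1 : ∑ p ∈ Fintype.piFinset fun i => mcell M N (k i), ∏ i, 1 / ((p i : ℕ) : ℝ) =
      ∑ a ∈ (mtup k M N).image (fun p : Fin n → ℕ => (∏ i, p i : ℕ)), 1 / ((a : ℕ) : ℝ) := by
    rw [sum_image (mtup_inj hk hM hN)]
    refine sum_congr rfl fun p _ => ?_
    rw [prod_div_distrib, prod_const_one, Nat.cast_prod]
  rw [e1]
  have hsub : (mtup k M N).image (fun p : Fin n → ℕ => (∏ i, p i : ℕ)) ⊆ Icc 1 N := by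
    intro a ha
    obtain ⟨p, hp, rfl⟩ := mem_image.1 ha
    have hp1 : ∀ i, p i ∈ mcell M N (k i) := fun i => Fintype.mem_piFinset.1 hp i
    rw [mem_Icc]
    refine ⟨prod_pos fun i _ => (mcell_mem.1 (hp1 i)).1.pos, ?_⟩
    have h2 : ((∏ i, p i : ℕ) : ℝ) ≤ (N : ℝ) ^ (∑ i, ((k i : ℝ) + 1) / M) := by
      rw [Real.rpow_sum_of_pos hN0, Nat.cast_prod]
      exact prod_le_prod (fun i _ => Nat.cast_nonneg _) fun i _ => (mcell_mem.1 (hp1 i)).2.2
    have h3 : (N : ℝ) ^ (∑ i, ((k i : ℝ) + 1) / M) ≤ (N : ℝ) ^ (1 : ℝ) :=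
      Real.rpow_le_rpow_of_exponent_le hN1 hs
    rw [Real.rpow_one] at h3
    exact_mod_cast h2.trans h3
  rw [← sum_subset hsub]
  · refine sum_congr rfl fun a ha => ?_
    obtain ⟨p, hp, rfl⟩ := mem_image.1 ha
    have hp1 : ∀ i, p i ∈ mcell M N (k i) := fun i => Fintype.mem_piFinset.1 hp i
    have h1 : PT.al k M N (∏ i, p i) = 1 := by
      unfold PT.al
      exact if_pos ⟨p, fun i => mcell_mem.1 (hp1 i), rfl⟩
    rw [h1]
  · intro a _ ha
    have h1 : PT.al k M N a = 0 := by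
      unfold PT.al
      refine if_neg ?_
      rintro ⟨p, hp, rfl⟩
      exact ha (mem_image.2 ⟨p, Fintype.mem_piFinset.2 fun i => mcell_mem.2 (hp i), rfl⟩)
    rw [h1, zero_div]

/-- lower bound for the mass of a box -/
theorem mass_box (h : St_MassA) (η : ℝ → ℝ) (hη : IsWt η) {ρ : ℝ} {M : ℕ} (hM : 1 ≤ M)
    {k : Fin (n + 1) → ℕ} (hk : PT.BoxOK ρ M k) (ε : ℝ) (hε : 0 < ε) :
    ∀ᶠ N : ℕ in atTop, PT.mη η * PT.mu k M * N / Real.log N - ε * N / Real.log N ≤
      PT.B0 η N (PT.bx k M N) := by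
  classical
  have hM0 : (0 : ℝ) < M := by exact_mod_cast hM
  have hm0 : 0 ≤ PT.mη η := by
    unfold PT.mη
    exact intervalIntegral.integral_nonneg zero_le_one fun t _ => hη.nonneg t
  have hk0 : ∀ i, 1 ≤ k i := by
    intro i
    have h1 := hk.2.1 i
    have h2 : (0 : ℝ) < k i := lt_of_lt_of_le (by positivity) h1
    exact_mod_cast h2
  -- the exponents
  set s : ℝ := ∑ i, (k i : ℝ) / M with hs
  set s' : ℝ := ∑ i, ((k i : ℝ) + 1) / M with hs'
  have hss : s ≤ s' := sum_le_sum fun i _ => div_le_div_of_nonneg_right (by linarith) hM0.le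
  have hs1 : s' < 1 := by
    have h1 := hk.2.2.1 0
    have h2 : (0 : ℝ) ≤ ((k 0 : ℝ) + 2) / M := by positivity
    linarith
  have hs0 : 0 ≤ s := sum_nonneg fun i _ => by positivity
  set P : ℝ := ∏ i, Real.log (((k i : ℝ) + 1) / k i) with hP
  have hmu : PT.mu k M = P / (1 - s) := rfl
  -- the product of the sums over the cells tends to `P`
  have hprod : Tendsto (fun N : ℕ => ∏ i, ∑ p ∈ mcell M N (k i), 1 / (p : ℝ)) atTop
      (nhds P) := by
    refine tendsto_finsetProd _ fun i _ => ?_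
    rw [Metric.tendsto_atTop]
    intro e he
    obtain ⟨N₀, hN₀⟩ := eventually_atTop.1 (mcell_sum M (k i) hM (hk0 i) (e / 2) (by linarith))
    refine ⟨N₀, fun N hN => ?_⟩
    rw [Real.dist_eq]
    exact lt_of_le_of_lt (hN₀ N hN) (by linarith)
  have hP0 : 0 ≤ P := by
    refine prod_nonneg fun i _ => Real.log_nonneg ?_
    have : (0 : ℝ) < k i := by exact_mod_cast hk0 i
    rw [le_div_iff₀ this]
    linarith
  -- choice of the small parameters
  set D : ℝ := PT.mη η / (1 - s) with hD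
  have hD0 : 0 ≤ D := div_nonneg hm0 (by linarith)
  obtain ⟨e1, he1, he1'⟩ : ∃ e : ℝ, 0 < e ∧ e * (P + 1) ≤ ε / 2 := by
    refine ⟨ε / 2 / (P + 1), by positivity, ?_⟩
    rw [div_mul_cancel₀ _ (by positivity)]
  obtain ⟨e2, he2, he2', he2''⟩ : ∃ e : ℝ, 0 < e ∧ D * e ≤ ε / 2 ∧ e ≤ 1 := by
    refine ⟨min 1 (ε / 2 / (D + 1)), by positivity, ?_, min_le_left _ _⟩
    have h1 : min 1 (ε / 2 / (D + 1)) ≤ ε / 2 / (D + 1) := min_le_right _ _
    calc D * min 1 (ε / 2 / (D + 1)) ≤ D * (ε / 2 / (D + 1)) := mul_le_mul_of_nonneg_left h1 hD0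
      _ ≤ (D + 1) * (ε / 2 / (D + 1)) := mul_le_mul_of_nonneg_right (by linarith) (by positivity)
      _ = ε / 2 := by field_simp
  have hev : ∀ᶠ N : ℕ in atTop, |∏ i, ∑ p ∈ mcell M N (k i), 1 / (p : ℝ) - P| < e2 := by
    obtain ⟨N₀, hN₀⟩ := Metric.tendsto_atTop.1 hprod e2 he2
    filter_upwards [eventually_ge_atTop N₀] with N hN
    have := hN₀ N hN
    rwa [Real.dist_eq] at this
  filter_upwards [h η hη (1 / 1000) e1 (by norm_num) (by norm_num) he1, hev,
    eventually_ge_atTop 3] with N h1 h2 h3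
  have hN1 : (1 : ℝ) < N := by exact_mod_cast (by omega : 1 < N)
  have hN0 : (0 : ℝ) < N := by linarith
  have hL : 0 < Real.log N := Real.log_pos hN1
  have hal := glue_adm (by omega : 2 ≤ N) (glue_al hM hk (by omega : 2 ≤ N))
  have h4 := h1 _ hal
  set S : ℝ := ∑ a ∈ Icc 1 N, PT.al k M N a / a with hS
  have hSP : S = ∏ i, ∑ p ∈ mcell M N (k i), 1 / (p : ℝ) :=
    mal_sum hk.1 hM (by omega) hs1.le
  rw [← hSP] at h2
  obtain ⟨h2a, h2b⟩ := abs_lt.1 h2
  have hS0 : 0 ≤ S := sum_nonneg fun a _ => div_nonneg (hal a).1 (Nat.cast_nonneg _)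
  -- lower bound of the weighted sum
  have h5 : S / ((1 - s) * Real.log N) ≤
      ∑ a ∈ Icc 1 N, PT.al k M N a / (a * Real.log ((N : ℝ) / a)) := by
    rw [hS, sum_div]
    refine sum_le_sum fun a ha => ?_
    by_cases h0 : PT.al k M N a = 0
    · rw [h0]
      simp
    · have ha1 : (1 : ℝ) ≤ a := by exact_mod_cast (mem_Icc.1 ha).1
      have h6 := (hal a).2.2 h0
      have hmem : ∃ p : Fin (n + 1) → ℕ, (∀ i, (p i).Prime ∧ (N : ℝ) ^ ((k i : ℝ) / M) < p i ∧
          (p i : ℝ) ≤ (N : ℝ) ^ (((k i : ℝ) + 1) / M)) ∧ a = ∏ i, p i := by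
        by_contra hcon
        exact h0 (by unfold PT.al; exact if_neg hcon)
      obtain ⟨p, hp, hap⟩ := hmem
      have h7 : (N : ℝ) ^ s ≤ a := by
        rw [hs, Real.rpow_sum_of_pos hN0, hap, Nat.cast_prod]
        exact prod_le_prod (fun i _ => by positivity) fun i _ => (hp i).2.1.le
      have h8 : Real.log ((N : ℝ) / a) ≤ (1 - s) * Real.log N := by
        have h9 := Real.log_le_log (by positivity) h7
        rw [Real.log_rpow hN0] at h9
        rw [Real.log_div hN0.ne' (by positivity)]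
        linarith
      have h9 : 0 < Real.log ((N : ℝ) / a) := by
        apply Real.log_pos
        rw [one_lt_div (by linarith)]
        have h10 : (N : ℝ) ^ (1 - 1 / 1000 : ℝ) < (N : ℝ) ^ (1 : ℝ) :=
          Real.rpow_lt_rpow_of_exponent_lt hN1 (by norm_num)
        rw [Real.rpow_one] at h10
        linarith [h6.2.1]
      rw [div_div]
      exact div_le_div_of_nonneg_left (hal a).1 (by positivity)
        (mul_le_mul_of_nonneg_left h8 (by linarith))
  have e3 : PT.B0 η N (PT.bx k M N) = w0 (wa η (PT.al k M N) N) N := by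
    unfold PT.B0 w0 wa PT.bx
    exact sum_congr rfl fun m _ => by rw [glue_BB]
  rw [e3]
  have h6 := (abs_le.1 h4).1
  have h7 : PT.mη η * (N * (S / ((1 - s) * Real.log N))) ≤ PT.mη η *
      (N * ∑ a ∈ Icc 1 N, PT.al k M N a / (a * Real.log ((N : ℝ) / a))) :=
    mul_le_mul_of_nonneg_left (mul_le_mul_of_nonneg_left h5 hN0.le) hm0
  have h8 : PT.mη η * (N * (S / ((1 - s) * Real.log N))) = D * S * (N / Real.log N) := by
    rw [hD]
    field_simp
  have hNL : 0 < (N : ℝ) / Real.log N := by positivity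
  have h9 : D * P - ε ≤ D * S - e1 * S := by
    have g1 : D * P - D * S ≤ D * e2 := by
      rw [← mul_sub]
      exact mul_le_mul_of_nonneg_left (by linarith) hD0
    have g2 : e1 * S ≤ e1 * (P + 1) := mul_le_mul_of_nonneg_left (by linarith) he1.le
    linarith
  have h10 := mul_le_mul_of_nonneg_right h9 hNL.le
  have e4 : PT.mη η * PT.mu k M * N / Real.log N - ε * N / Real.log N =
      (D * P - ε) * (N / Real.log N) := by
    rw [hmu, hD]
    field_simp
  rw [e4]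
  have e5 : (∫ t in (0 : ℝ)..1, η t) = PT.mη η := rfl
  rw [e5] at h6
  have e6 : (D * S - e1 * S) * (N / Real.log N) =
      D * S * (N / Real.log N) - e1 * (N / Real.log N) * S := by ring
  rw [e6] at h10
  linarith

end Pool.Agent.PTB
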