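import Mathlib
import Pool.Agent.PTB.Stmts

set_option autoImplicit false

/-!
# PTB / MassA

The mass of the weights: the sum over the pairs of a cofactor and a last prime.
-/

namespace Pool.Agent.PTB

open Finset Filter Pool.Agent.MT

theorem massa_swap (η : ℝ → ℝ) (a : ℕ → ℝ) (N : ℕ) :
    w0 (wa η a N) N = ∑ k ∈ Icc 1 N, a k *
      ∑ p ∈ (range (N / k + 1)).filter Nat.Prime, η (((k * p : ℕ) : ℝ) / N) := by
  have e1 : w0 (wa η a N) N = ∑ x ∈ (range (N + 1)).sigma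
      (fun m => m.divisors.filter fun k => (m / k).Prime), a x.2 * η ((x.1 : ℝ) / N) := by
    unfold w0 wa bta
    rw [Finset.sum_sigma]
    refine Finset.sum_congr rfl fun m _ => ?_
    rw [Finset.sum_mul, Finset.sum_filter]
    refine Finset.sum_congr rfl fun k _ => ?_
    by_cases h : (m / k).Prime
    · rw [if_pos h, if_pos h]
    · rw [if_neg h, if_neg h, zero_mul]
  have e2 : ∑ k ∈ Icc 1 N, a k *
      ∑ p ∈ (range (N / k + 1)).filter Nat.Prime, η (((k * p : ℕ) : ℝ) / N) =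
      ∑ y ∈ (Icc 1 N).sigma (fun k => (range (N / k + 1)).filter Nat.Prime),
        a y.1 * η (((y.1 * y.2 : ℕ) : ℝ) / N) := by
    rw [Finset.sum_sigma]
    refine Finset.sum_congr rfl fun k _ => ?_
    rw [Finset.mul_sum]
  rw [e1, e2]
  refine Finset.sum_bij' (fun x _ => ⟨x.2, x.1 / x.2⟩) (fun y _ => ⟨y.1 * y.2, y.1⟩) ?_ ?_ ?_ ?_ ?_
  · rintro ⟨m, k⟩ hx
    simp only [Finset.mem_sigma, Finset.mem_range, Finset.mem_filter, Nat.mem_divisors,
      Finset.mem_Icc] at hx ⊢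
    obtain ⟨h1, ⟨h2, h3⟩, h4⟩ := hx
    have hk : 0 < k := Nat.pos_of_dvd_of_pos h2 (Nat.pos_of_ne_zero h3)
    have hkm : k ≤ m := Nat.le_of_dvd (Nat.pos_of_ne_zero h3) h2
    exact ⟨⟨hk, by omega⟩, Nat.lt_succ_of_le (Nat.div_le_div_right (by omega)), h4⟩
  · rintro ⟨k, p⟩ hy
    simp only [Finset.mem_sigma, Finset.mem_range, Finset.mem_filter, Nat.mem_divisors,
      Finset.mem_Icc] at hy ⊢
    obtain ⟨⟨h1, h2⟩, h3, h4⟩ := hy
    have h5 : k * p ≤ N := by
      have : p ≤ N / k := Nat.lt_succ_iff.1 h3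
      calc k * p ≤ k * (N / k) := Nat.mul_le_mul_left _ this
        _ ≤ N := Nat.mul_div_le _ _
    refine ⟨Nat.lt_succ_of_le h5, ⟨Dvd.intro _ rfl, ?_⟩, ?_⟩
    · exact Nat.mul_ne_zero (by omega) h4.pos.ne'
    · rw [Nat.mul_div_cancel_left p (by omega)]
      exact h4
  · rintro ⟨m, k⟩ hx
    simp only [Finset.mem_sigma, Finset.mem_range, Finset.mem_filter, Nat.mem_divisors] at hx
    obtain ⟨h1, ⟨h2, h3⟩, h4⟩ := hx
    simp only [Nat.mul_div_cancel' h2]
  · rintro ⟨k, p⟩ hy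
    simp only [Finset.mem_sigma, Finset.mem_range, Finset.mem_filter, Finset.mem_Icc] at hy
    obtain ⟨⟨h1, h2⟩, h3, h4⟩ := hy
    simp only [Nat.mul_div_cancel_left p (show 0 < k by omega)]
  · rintro ⟨m, k⟩ hx
    simp only [Finset.mem_sigma, Finset.mem_range, Finset.mem_filter, Nat.mem_divisors] at hx
    obtain ⟨h1, ⟨h2, h3⟩, h4⟩ := hx
    simp only [Nat.mul_div_cancel' h2]

theorem thm_MassA (h1 : St_Last) : St_MassA := by
  intro η hη κ ε hκ hκ2 hε
  filter_upwards [h1 η hη κ ε hκ (by linarith) hε, eventually_ge_atTop 2] with N h2 h3 a ha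
  rw [massa_swap, Finset.mul_sum, Finset.mul_sum, Finset.mul_sum, ← Finset.sum_sub_distrib]
  refine (Finset.abs_sum_le_sum_abs _ _).trans (Finset.sum_le_sum fun k hk => ?_)
  have hk1 : 1 ≤ k := (Finset.mem_Icc.1 hk).1
  have hkR : (0 : ℝ) < k := by exact_mod_cast hk1
  obtain ⟨ha0, ha1, hak⟩ := ha k
  by_cases hz : a k = 0
  · rw [hz]
    simp
  · obtain ⟨_, h5, _⟩ := hak hz
    have h6 := h2 k hk1 h5
    have e1 : a k * ∑ p ∈ (range (N / k + 1)).filter Nat.Prime, η (((k * p : ℕ) : ℝ) / N) -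
        (∫ t in (0 : ℝ)..1, η t) * (N * (a k / (k * Real.log ((N : ℝ) / k)))) =
        a k * (∑ p ∈ (range (N / k + 1)).filter Nat.Prime, η (((k * p : ℕ) : ℝ) / N) -
          (∫ t in (0 : ℝ)..1, η t) * (((N : ℝ) / k) / Real.log ((N : ℝ) / k))) := by
      rw [mul_sub]
      congr 1
      rw [div_div]
      ring
    have e2 : ε * (N / Real.log N) * (a k / k) = a k * (ε * (((N : ℝ) / k) / Real.log N)) := by
      ring
    rw [e1, e2, abs_mul, abs_of_nonneg ha0]
    exact mul_le_mul_of_nonneg_left h6 ha0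

end Pool.Agent.PTB
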