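import Mathlib
import Pool.Agent.PTB.Stmts
import Pool.Agent.CH.P1

set_option autoImplicit false

/-!
# PTB / MassP

The prime number theorem with the smooth weight, from the one for the von Mangoldt function.
-/

namespace Pool.Agent.PTB

open Finset Filter Pool.Agent.MT

theorem massp_diff (η : ℝ → ℝ) (hη : IsWt η) : ∃ C : ℝ, 0 < C ∧ ∀ N : ℕ, 2 ≤ N →
    |psi0 η N - Real.log N * w0 (wp η N) N| ≤ C * Real.sqrt N := by
  obtain ⟨C, hC⟩ := Chebyshev.psi_sub_theta_le_mul_sqrt
  refine ⟨max C 1, by positivity, fun N hN => ?_⟩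
  have hNR : (2 : ℝ) ≤ N := by exact_mod_cast hN
  have hl : 0 < Real.log N := Real.log_pos (by linarith)
  have e1 : psi0 η N - Real.log N * w0 (wp η N) N =
      ∑ n ∈ (range (N + 1)).filter (fun n => ¬ n.Prime),
        ArithmeticFunction.vonMangoldt n * η ((n : ℝ) / N) := by
    unfold psi0 w0 wp
    rw [Finset.mul_sum, ← Finset.sum_sub_distrib, Finset.sum_filter]
    refine Finset.sum_congr rfl fun n _ => ?_
    by_cases h : n.Prime
    · rw [if_pos h, if_neg (not_not.2 h), ArithmeticFunction.vonMangoldt_apply_prime h]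
      field_simp
      ring
    · rw [if_neg h, if_pos h]
      ring
  have h0 : 0 ≤ ∑ n ∈ (range (N + 1)).filter (fun n => ¬ n.Prime),
      ArithmeticFunction.vonMangoldt n * η ((n : ℝ) / N) :=
    Finset.sum_nonneg fun n _ => mul_nonneg ArithmeticFunction.vonMangoldt_nonneg (hη.nonneg _)
  rw [e1, abs_of_nonneg h0]
  have h1 : ∑ n ∈ (range (N + 1)).filter (fun n => ¬ n.Prime),
      ArithmeticFunction.vonMangoldt n * η ((n : ℝ) / N) ≤
      ∑ n ∈ (Ioc 0 ⌊(N : ℝ)⌋₊).filter (fun n => ¬ n.Prime), ArithmeticFunction.vonMangoldt n := by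
    rw [Nat.floor_natCast]
    calc ∑ n ∈ (range (N + 1)).filter (fun n => ¬ n.Prime),
          ArithmeticFunction.vonMangoldt n * η ((n : ℝ) / N)
        ≤ ∑ n ∈ (range (N + 1)).filter (fun n => ¬ n.Prime),
          ArithmeticFunction.vonMangoldt n := by
          refine Finset.sum_le_sum fun n _ => ?_
          exact mul_le_of_le_one_right ArithmeticFunction.vonMangoldt_nonneg (hη.le_one _)
      _ ≤ ∑ n ∈ (Ioc 0 N).filter (fun n => ¬ n.Prime), ArithmeticFunction.vonMangoldt n := by
          rw [Finset.sum_filter, Finset.sum_filter, Finset.range_eq_Ico,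
            Finset.sum_eq_sum_Ico_succ_bot (Nat.succ_pos N)]
          have hI : Finset.Ico (0 + 1) (N + 1) = Finset.Ioc 0 N := by
            ext x
            simp [Finset.mem_Ico, Finset.mem_Ioc]
            omega
          rw [hI]
          simp
  refine h1.trans ?_
  rw [← Chebyshev.psi_sub_theta_eq_sum_not_prime]
  refine (hC N).trans ?_
  exact mul_le_mul_of_nonneg_right (le_max_left _ _) (Real.sqrt_nonneg _)

theorem thm_MassP : St_MassP := by
  intro η hη ε hε
  obtain ⟨C, hC, hd⟩ := massp_diff η hη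
  have hsq : Tendsto (fun N : ℕ => Real.sqrt (N : ℝ)) atTop atTop :=
    Real.tendsto_sqrt_atTop.comp tendsto_natCast_atTop_atTop
  filter_upwards [Pool.Agent.CH.thm_P1 η hη (ε / 2) (by positivity), eventually_ge_atTop 2,
    hsq.eventually_ge_atTop (2 * C / ε)] with N h1 h2 h3
  have hNR : (2 : ℝ) ≤ N := by exact_mod_cast h2
  have hl : 0 < Real.log N := Real.log_pos (by linarith)
  have h4 := hd N h2
  have h5 : C * Real.sqrt N ≤ ε / 2 * N := by
    have h6 : Real.sqrt N * Real.sqrt N = N := Real.mul_self_sqrt (by linarith)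
    have h7 : C ≤ ε / 2 * Real.sqrt N := by
      have := mul_le_mul_of_nonneg_left h3 (by positivity : 0 ≤ ε / 2)
      have h8 : ε / 2 * (2 * C / ε) = C := by field_simp
      linarith
    calc C * Real.sqrt N ≤ ε / 2 * Real.sqrt N * Real.sqrt N :=
          mul_le_mul_of_nonneg_right h7 (Real.sqrt_nonneg _)
      _ = ε / 2 * N := by rw [mul_assoc, h6]
  have e1 : w0 (wp η N) N - (∫ t in (0 : ℝ)..1, η t) * N / Real.log N =
      (Real.log N * w0 (wp η N) N - N * ∫ t in (0 : ℝ)..1, η t) / Real.log N := by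
    field_simp
  rw [e1, abs_div, abs_of_pos hl]
  refine div_le_div_of_nonneg_right ?_ hl.le
  have h6 := abs_sub_le (Real.log N * w0 (wp η N) N) (psi0 η N) (N * ∫ t in (0 : ℝ)..1, η t)
  rw [abs_sub_comm (Real.log N * w0 (wp η N) N) (psi0 η N)] at h6
  linarith

end Pool.Agent.PTB
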