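import Mathlib
import Pool.Agent.PTB.Stmts

set_option autoImplicit false

/-!
# PTB / Red

Orthogonality of the characters modulo q: `q.totient * wAP` is the sum over chi of
`chi(b^-1) * sum_m w m chi(m)`; the principal character gives `w0` minus the sum over the `m` with
`(m,q) > 1`, which is at most the sum over the primes `p | q` with `p > z` of
`B * #{1 <= m <= N : p | m} <= B * omega(q) * N/z`; for `chi <> 1` the character is the primitive
character on the `m` prime to `q`, so the sum is `psiw w N q chi*`.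
-/

namespace Pool.Agent.PTB

open Finset Filter Pool.Agent.MT

/-- multiples of a prime -/
private theorem red_mult {B z : ℝ} {N : ℕ} {w : ℕ → ℝ} (hz : 1 ≤ z) (hw : Rgh B z N w) (p : ℕ)
    (hp : p.Prime) :
    ∑ n ∈ range (N + 1), (if p ∣ n then w n else 0) ≤ B * ((N : ℝ) / z) := by
  have hz0 : (0 : ℝ) < z := lt_of_lt_of_le one_pos hz
  have hB : 0 ≤ B := (hw 0 (Nat.zero_le _)).1.trans (hw 0 (Nat.zero_le _)).2.1
  by_cases hpz : z < p
  · have h1 : ∑ n ∈ range (N + 1), (if p ∣ n then w n else 0) ≤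
        ∑ n ∈ range (N + 1), (if p ∣ n ∧ 0 < n then B else 0) := by
      refine sum_le_sum fun n hn' => ?_
      have hnN : n ≤ N := Nat.lt_succ_iff.mp (mem_range.mp hn')
      by_cases hn : p ∣ n
      · rw [if_pos hn]
        by_cases h0 : 0 < n
        · rw [if_pos ⟨hn, h0⟩]
          exact (hw n hnN).2.1
        · have h00 : n = 0 := by omega
          subst h00
          have hw0 : w 0 = 0 := by
            by_contra h
            have := ((hw 0 (Nat.zero_le _)).2.2 h).1
            omega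
          rw [hw0]
          split_ifs
          · exact hB
          · exact le_refl _
      · rw [if_neg hn]
        split_ifs
        · exact hB
        · exact le_refl _
    refine h1.trans ?_
    rw [← sum_filter, sum_const, nsmul_eq_mul]
    have h2 : (range (N + 1)).filter (fun n => p ∣ n ∧ 0 < n) =
        (Ioc 0 N).filter (fun n => p ∣ n) := by
      ext n
      simp only [mem_filter, mem_range, mem_Ioc]
      constructor
      · rintro ⟨h3, h4, h5⟩
        exact ⟨⟨h5, by omega⟩, h4⟩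
      · rintro ⟨⟨h3, h4⟩, h5⟩
        exact ⟨by omega, h5, h3⟩
    rw [h2, Nat.Ioc_filter_dvd_card_eq_div, mul_comm]
    apply mul_le_mul_of_nonneg_left _ hB
    refine (Nat.cast_div_le).trans ?_
    exact div_le_div_of_nonneg_left (Nat.cast_nonneg N) hz0 hpz.le
  · have h1 : ∑ n ∈ range (N + 1), (if p ∣ n then w n else 0) = 0 := by
      refine sum_eq_zero fun n hn' => ?_
      have hnN : n ≤ N := Nat.lt_succ_iff.mp (mem_range.mp hn')
      by_cases hn : p ∣ n
      · rw [if_pos hn]
        by_contra h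
        exact hpz (((hw n hnN).2.2 h).2 p hp hn)
      · rw [if_neg hn]
    rw [h1]
    exact mul_nonneg hB (div_nonneg (Nat.cast_nonneg N) hz0.le)

private theorem red_noncop {B z : ℝ} {N : ℕ} {w : ℕ → ℝ} (hz : 1 ≤ z) (hw : Rgh B z N w) (q : ℕ)
    (hq : 1 ≤ q) :
    ∑ n ∈ (range (N + 1)).filter (fun n => ¬ n.Coprime q), w n ≤
      B * q.primeFactors.card * ((N : ℝ) / z) := by
  have hnn : ∀ n ∈ range (N + 1), 0 ≤ w n := fun n hn =>
    (hw n (Nat.lt_succ_iff.mp (mem_range.mp hn))).1
  have h1 : ∀ n ∈ (range (N + 1)).filter (fun n => ¬ n.Coprime q),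
      w n ≤ ∑ p ∈ q.primeFactors, (if p ∣ n then w n else 0) := by
    intro n hn
    obtain ⟨p, hp, hpn, hpq⟩ := Nat.Prime.not_coprime_iff_dvd.1 (mem_filter.1 hn).2
    have hmem : p ∈ q.primeFactors := Nat.mem_primeFactors.2 ⟨hp, hpq, by omega⟩
    have h2 := single_le_sum (f := fun p => if p ∣ n then w n else 0)
      (fun i _ => by
        split_ifs
        · exact hnn n (mem_filter.1 hn).1
        · exact le_refl _) hmem
    rwa [if_pos hpn] at h2
  refine (sum_le_sum h1).trans ?_
  rw [sum_comm]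
  have h3 : ∀ p ∈ q.primeFactors, ∑ n ∈ (range (N + 1)).filter (fun n => ¬ n.Coprime q),
      (if p ∣ n then w n else 0) ≤ B * ((N : ℝ) / z) := by
    intro p hp
    refine le_trans ?_ (red_mult hz hw p (Nat.prime_of_mem_primeFactors hp))
    apply sum_le_sum_of_subset_of_nonneg (filter_subset _ _)
    intro n hn _
    split_ifs
    · exact hnn n hn
    · exact le_refl _
  refine (sum_le_sum h3).trans (le_of_eq ?_)
  rw [sum_const, nsmul_eq_mul]
  ring

/-- the sum with a character modulo `q` -/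
private noncomputable def redS (w : ℕ → ℝ) (N : ℕ) {q : ℕ} (χ : DirichletCharacter ℂ q) : ℂ :=
  ∑ n ∈ range (N + 1), ((w n : ℝ) : ℂ) * χ (n : ZMod q)

private theorem red_orth (w : ℕ → ℝ) (N q b : ℕ) (hq : 1 ≤ q) (hb : b.Coprime q) :
    (q.totient : ℂ) * ((wAP w N q b : ℝ) : ℂ) =
      ∑ χ : DirichletCharacter ℂ q, χ ((b : ZMod q)⁻¹) * redS w N χ := by
  have : NeZero q := ⟨by omega⟩
  have hu : IsUnit (b : ZMod q) := (ZMod.isUnit_iff_coprime b q).mpr hb
  have e1 : ∀ χ : DirichletCharacter ℂ q, χ ((b : ZMod q)⁻¹) * redS w N χ =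
      ∑ n ∈ range (N + 1), (χ ((b : ZMod q)⁻¹) * χ (n : ZMod q)) * ((w n : ℝ) : ℂ) := by
    intro χ
    rw [redS, mul_sum]
    refine sum_congr rfl fun n _ => ?_
    ring
  rw [sum_congr rfl fun χ _ => e1 χ, sum_comm, wAP, Complex.ofReal_sum, mul_sum, sum_filter]
  refine sum_congr rfl fun n _ => ?_
  rw [← sum_mul, DirichletCharacter.sum_char_inv_mul_char_eq ℂ hu]
  by_cases hn : n % q = b % q
  · rw [if_pos hn, if_pos ((ZMod.natCast_eq_natCast_iff' b n q).mpr hn.symm)]
  · rw [if_neg hn, if_neg (fun h => hn ((ZMod.natCast_eq_natCast_iff' b n q).mp h).symm), zero_mul]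

/-- the sum with `χ` is the sum with the primitive character over `n` coprime to `q` -/
private theorem red_prim (w : ℕ → ℝ) (N q : ℕ) (χ : DirichletCharacter ℂ q) :
    redS w N χ = psiw w N q χ.primitiveCharacter := by
  unfold redS psiw
  rw [sum_filter]
  refine sum_congr rfl fun n _ => ?_
  by_cases hn : n.Coprime q
  · rw [if_pos hn]
    have h1 := χ.primitiveCharacter_apply_of_isCoprime (a := (n : ℤ))
      (by exact_mod_cast Nat.isCoprime_iff_coprime.mpr hn)
    have h2 : χ.primitiveCharacter (n : ZMod χ.conductor) = χ (n : ZMod q) := by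
      simpa using h1
    rw [h2]
  · rw [if_neg hn, MulChar.map_nonunit χ fun h => hn ((ZMod.isUnit_iff_coprime n q).mp h),
      mul_zero]

/-- passing to primitive characters -/
private theorem red_prim_sum (w : ℕ → ℝ) (N q : ℕ) (hq : 1 ≤ q) [NeZero q]
    [DecidableEq (DirichletCharacter ℂ q)] :
    ∑ χ ∈ (univ : Finset (DirichletCharacter ℂ q)).erase 1,
      ‖psiw w N q χ.primitiveCharacter‖ ≤
      ∑ r ∈ q.divisors.erase 1, ∑ χ ∈ prim r, ‖psiw w N q χ‖ := by
  classical
  set f : DirichletCharacter ℂ q → (Σ r : ℕ, DirichletCharacter ℂ r) :=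
    fun χ => ⟨χ.conductor, χ.primitiveCharacter⟩ with hf
  have hinj : Function.Injective f := by
    have hl : Function.LeftInverse
        (fun x : (Σ r : ℕ, DirichletCharacter ℂ r) =>
          if h : x.1 ∣ q then DirichletCharacter.changeLevel h x.2 else 1) f := by
      intro χ
      have h0 : (f χ).1 ∣ q := χ.conductor_dvd_level
      simp only
      rw [dif_pos h0]
      exact χ.changeLevel_primitiveCharacter
    exact hl.injective
  have e1 : ∑ r ∈ q.divisors.erase 1, ∑ χ ∈ prim r, ‖psiw w N q χ‖ =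
      ∑ x ∈ (q.divisors.erase 1).sigma prim, ‖psiw w N q x.2‖ := by
    rw [sum_sigma]
  rw [e1]
  have e2 : ∑ χ ∈ (univ : Finset (DirichletCharacter ℂ q)).erase 1,
      ‖psiw w N q χ.primitiveCharacter‖ =
      ∑ x ∈ ((univ : Finset (DirichletCharacter ℂ q)).erase 1).image f,
        ‖psiw w N q x.2‖ := by
    rw [sum_image fun x _ y _ h => hinj h]
  rw [e2]
  refine sum_le_sum_of_subset_of_nonneg ?_ fun _ _ _ => norm_nonneg _
  intro x hx
  rw [mem_image] at hx
  obtain ⟨χ, hχ, rfl⟩ := hx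
  rw [mem_erase] at hχ
  rw [mem_sigma, mem_erase, Nat.mem_divisors, mem_prim]
  refine ⟨⟨fun h => hχ.1 (DirichletCharacter.eq_one_iff_conductor_eq_one.mpr h),
    χ.conductor_dvd_level, by omega⟩, χ.primitiveCharacter_isPrimitive, fun h => hχ.1 ?_⟩
  rw [← χ.changeLevel_primitiveCharacter]
  have h' : χ.primitiveCharacter = 1 := h
  rw [h', DirichletCharacter.changeLevel_one]

/-- the principal character -/
private theorem red_one {B z : ℝ} {N : ℕ} {w : ℕ → ℝ} (hz : 1 ≤ z) (hw : Rgh B z N w) (q : ℕ)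
    (hq : 1 ≤ q) :
    ‖redS w N (1 : DirichletCharacter ℂ q) - ((w0 w N : ℝ) : ℂ)‖ ≤
      B * q.primeFactors.card * ((N : ℝ) / z) := by
  have e : redS w N (1 : DirichletCharacter ℂ q) - ((w0 w N : ℝ) : ℂ) =
      ((-∑ n ∈ (range (N + 1)).filter (fun n => ¬ n.Coprime q), w n : ℝ) : ℂ) := by
    rw [redS, w0, Complex.ofReal_sum, ← sum_sub_distrib, sum_filter, ← sum_neg_distrib,
      Complex.ofReal_sum]
    refine sum_congr rfl fun n _ => ?_
    by_cases hn : n.Coprime q
    · rw [if_neg (not_not.2 hn), MulChar.one_apply ((ZMod.isUnit_iff_coprime n q).mpr hn),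
        mul_one, sub_self, neg_zero, Complex.ofReal_zero]
    · rw [if_pos hn, MulChar.map_nonunit _ fun h => hn ((ZMod.isUnit_iff_coprime n q).mp h),
        mul_zero, zero_sub, Complex.ofReal_neg]
  have h0 : 0 ≤ ∑ n ∈ (range (N + 1)).filter (fun n => ¬ n.Coprime q), w n :=
    sum_nonneg fun n hn => (hw n (Nat.lt_succ_iff.mp (mem_range.mp (mem_filter.1 hn).1))).1
  rw [e, Complex.norm_real, norm_neg, Real.norm_of_nonneg h0]
  exact red_noncop hz hw q hq

theorem thm_Red : St_Red := by
  classical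
  intro B z N w hz hw q b hq hb
  have : NeZero q := ⟨by omega⟩
  have hφ : 0 < (q.totient : ℝ) := by
    exact_mod_cast Nat.totient_pos.mpr (by omega)
  have horth := red_orth w N q b hq hb
  have hsplit : (q.totient : ℂ) * ((wAP w N q b - w0 w N / (q.totient : ℝ) : ℝ) : ℂ) =
      (redS w N (1 : DirichletCharacter ℂ q) - ((w0 w N : ℝ) : ℂ)) +
        ∑ χ ∈ (univ : Finset (DirichletCharacter ℂ q)).erase 1,
          χ ((b : ZMod q)⁻¹) * redS w N χ := by
    have hφc : (q.totient : ℂ) ≠ 0 := by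
      exact_mod_cast hφ.ne'
    have hu : IsUnit (b : ZMod q) := (ZMod.isUnit_iff_coprime b q).mpr hb
    have h1 : (1 : DirichletCharacter ℂ q) ((b : ZMod q)⁻¹) = 1 := by
      refine MulChar.one_apply ?_
      exact IsUnit.of_mul_eq_one _ (ZMod.inv_mul_of_unit _ hu)
    have h2 : ∑ χ : DirichletCharacter ℂ q, χ ((b : ZMod q)⁻¹) * redS w N χ =
        redS w N (1 : DirichletCharacter ℂ q) +
          ∑ χ ∈ (univ : Finset (DirichletCharacter ℂ q)).erase 1,
            χ ((b : ZMod q)⁻¹) * redS w N χ := by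
      rw [← add_sum_erase univ _ (mem_univ (1 : DirichletCharacter ℂ q)), h1, one_mul]
    rw [Complex.ofReal_sub, mul_sub, horth, h2]
    push_cast
    field_simp
    ring
  have hnorm : (q.totient : ℝ) * |wAP w N q b - w0 w N / (q.totient : ℝ)| ≤
      B * q.primeFactors.card * ((N : ℝ) / z) +
        ∑ r ∈ q.divisors.erase 1, ∑ χ ∈ prim r, ‖psiw w N q χ‖ := by
    have e1 : (q.totient : ℝ) * |wAP w N q b - w0 w N / (q.totient : ℝ)| =
        ‖(q.totient : ℂ) * ((wAP w N q b - w0 w N / (q.totient : ℝ) : ℝ) : ℂ)‖ := by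
      rw [norm_mul, Complex.norm_real, Real.norm_eq_abs, Complex.norm_natCast]
    have e2 : ∀ χ : DirichletCharacter ℂ q, ‖χ ((b : ZMod q)⁻¹) * redS w N χ‖ ≤
        ‖psiw w N q χ.primitiveCharacter‖ := by
      intro χ
      rw [norm_mul, red_prim]
      exact mul_le_of_le_one_left (norm_nonneg _) (χ.norm_le_one _)
    calc (q.totient : ℝ) * |wAP w N q b - w0 w N / (q.totient : ℝ)|
        = _ := e1
      _ = ‖(redS w N (1 : DirichletCharacter ℂ q) - ((w0 w N : ℝ) : ℂ)) +
        ∑ χ ∈ (univ : Finset (DirichletCharacter ℂ q)).erase 1,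
          χ ((b : ZMod q)⁻¹) * redS w N χ‖ := by rw [hsplit]
      _ ≤ B * q.primeFactors.card * ((N : ℝ) / z) +
          ∑ χ ∈ (univ : Finset (DirichletCharacter ℂ q)).erase 1,
            ‖psiw w N q χ.primitiveCharacter‖ :=
        (norm_add_le _ _).trans (add_le_add (red_one hz hw q hq)
          ((norm_sum_le _ _).trans (sum_le_sum fun χ _ => e2 χ)))
      _ ≤ _ := by
        have := red_prim_sum w N q hq
        linarith
  rw [← mul_le_mul_iff_right₀ hφ]
  refine hnorm.trans (le_of_eq ?_)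
  field_simp

end Pool.Agent.PTB
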