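import Mathlib
import Pool.Agent.PTB.Stmts

set_option autoImplicit false

/-!
# PTB / Rgh

The weight wa eta a N m = (sum over k | m of a(k) 1[m/k prime]) eta(m/N). 0 <= : clear
(0 <= a, 0 <= eta <= 1 by IsWt). Bound: if some term is <> 0 then m = k p with a k <> 0, so all primes
of k are > N^kappa, hence the number of prime factors of k (with multiplicity) is <= 1/kappa and the
number of distinct primes p of m is <= 1/kappa + 1; the terms k | m with m/k prime correspond to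
distinct primes p = m/k of m, each term <= 1: Bd := 1/kappa + 2. Roughness: eta(m/N) <> 0 implies
m > N/8, so p = m/k >= (N/8)/N^(1-kappa) = N^kappa/8 > N^(kappa/2) for large N; the primes of k are
> N^kappa >= N^(kappa/2). m <= N is used for the bound on the number of prime factors of k
(k <= N; (N^kappa)^omega < k <= N). m = 0: divisors empty, w = 0.
-/

namespace Pool.Agent.PTB

open Finset Filter Pool.Agent.MT

private theorem rgh_term {a : ℕ → ℝ} {m : ℕ} (h : bta a m ≠ 0) :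
    ∃ k p : ℕ, a k ≠ 0 ∧ p.Prime ∧ m = k * p ∧ 0 < k := by
  obtain ⟨k, hk, hne⟩ := Finset.exists_ne_zero_of_sum_ne_zero h
  obtain ⟨hkm, hm⟩ := Nat.mem_divisors.1 hk
  by_cases hp : (m / k).Prime
  · rw [if_pos hp] at hne
    exact ⟨k, m / k, hne, hp, (Nat.mul_div_cancel' hkm).symm, Nat.pos_of_dvd_of_pos hkm
      (Nat.pos_of_ne_zero hm)⟩
  · rw [if_neg hp] at hne
    exact absurd rfl hne

private theorem rgh_count {κ : ℝ} (hκ : 0 < κ) {N : ℕ} (hN : 2 ≤ N) {a : ℕ → ℝ} (ha : Adm κ N a)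
    {m : ℕ} (hm : m ≤ N) : bta a m ≤ 1 / κ + 2 := by
  have hκ' : 0 < 1 / κ := by positivity
  by_cases h0 : bta a m = 0
  · rw [h0]
    linarith
  obtain ⟨k0, p0, hk0, hp0, hmk, hk0pos⟩ := rgh_term h0
  have hmpos : 0 < m := by rw [hmk]; exact Nat.mul_pos hk0pos hp0.pos
  have hN1 : (1 : ℝ) < N := by exact_mod_cast (by omega : 1 < N)
  have h1 : bta a m ≤ (m.primeFactors.card : ℝ) := by
    have h2 : bta a m ≤ ∑ k ∈ m.divisors, if (m / k).Prime then (1 : ℝ) else 0 := by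
      refine Finset.sum_le_sum fun k _ => ?_
      split_ifs
      · exact (ha k).2.1
      · exact le_rfl
    refine h2.trans ?_
    rw [← Finset.sum_filter, Finset.sum_const, nsmul_eq_mul, mul_one]
    refine Nat.cast_le.2 (Finset.card_le_card_of_injOn (fun k => m / k) ?_ ?_)
    · intro k hk
      obtain ⟨hk1, hk2⟩ := Finset.mem_filter.1 hk
      obtain ⟨hkm, hm0⟩ := Nat.mem_divisors.1 hk1
      exact Nat.mem_primeFactors.2 ⟨hk2, Nat.div_dvd_of_dvd hkm, hm0⟩
    · intro k hk l hl hkl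
      obtain ⟨hk1, hk2⟩ := Finset.mem_filter.1 hk
      obtain ⟨hl1, hl2⟩ := Finset.mem_filter.1 hl
      obtain ⟨hkm, hm0⟩ := Nat.mem_divisors.1 hk1
      obtain ⟨hlm, -⟩ := Nat.mem_divisors.1 hl1
      have h3 : k * (m / k) = l * (m / k) := by
        rw [Nat.mul_div_cancel' hkm]
        have h4 : m / k = m / l := hkl
        rw [h4, Nat.mul_div_cancel' hlm]
      exact Nat.eq_of_mul_eq_mul_right hk2.pos h3
  have h2 : m.primeFactors.card ≤ k0.primeFactors.card + 1 := by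
    rw [hmk, Nat.primeFactors_mul hk0pos.ne' hp0.pos.ne', hp0.primeFactors]
    exact Finset.card_union_le _ _
  have h3 : (k0.primeFactors.card : ℝ) ≤ 1 / κ := by
    have h4 : ((N : ℝ) ^ κ) ^ k0.primeFactors.card ≤ (N : ℝ) := by
      calc ((N : ℝ) ^ κ) ^ k0.primeFactors.card = ∏ p ∈ k0.primeFactors, (N : ℝ) ^ κ := by
            rw [Finset.prod_const]
        _ ≤ ∏ p ∈ k0.primeFactors, (p : ℝ) := by
            refine Finset.prod_le_prod (fun p _ => by positivity) fun p hp => ?_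
            exact (((ha k0).2.2 hk0).2.2 p (Nat.prime_of_mem_primeFactors hp)
              (Nat.dvd_of_mem_primeFactors hp)).le
        _ = ((∏ p ∈ k0.primeFactors, p : ℕ) : ℝ) := by push_cast; rfl
        _ ≤ (k0 : ℝ) := Nat.cast_le.2 (Nat.le_of_dvd hk0pos (Nat.prod_primeFactors_dvd k0))
        _ ≤ (m : ℝ) := Nat.cast_le.2 (Nat.le_of_dvd hmpos ⟨p0, hmk⟩)
        _ ≤ (N : ℝ) := Nat.cast_le.2 hm
    rw [← Real.rpow_natCast, ← Real.rpow_mul (by positivity)] at h4
    have h5 : κ * (k0.primeFactors.card : ℝ) ≤ 1 := by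
      have h6 : (N : ℝ) ^ (κ * (k0.primeFactors.card : ℝ)) ≤ (N : ℝ) ^ (1 : ℝ) := by
        rwa [Real.rpow_one]
      exact (Real.rpow_le_rpow_left_iff hN1).1 h6
    rw [le_div_iff₀ hκ, mul_comm]
    exact h5
  have h4 : (m.primeFactors.card : ℝ) ≤ (k0.primeFactors.card : ℝ) + 1 := by exact_mod_cast h2
  linarith

theorem thm_Rgh : St_Rgh := by
  intro η hη κ hκ hκ2
  refine ⟨1 / κ + 2, ?_⟩
  have hlim : Tendsto (fun N : ℕ => (N : ℝ) ^ (κ / 2)) atTop atTop :=
    (tendsto_rpow_atTop (by linarith)).comp tendsto_natCast_atTop_atTop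
  filter_upwards [eventually_ge_atTop 2, hlim.eventually_gt_atTop 8] with N hN h8 a ha m hm
  have hN1 : (1 : ℝ) < N := by exact_mod_cast (by omega : 1 < N)
  have hNpos : (0 : ℝ) < N := by linarith
  have hb0 : 0 ≤ bta a m := by
    refine Finset.sum_nonneg fun k _ => ?_
    split_ifs
    · exact (ha k).1
    · exact le_rfl
  refine ⟨mul_nonneg hb0 (hη.nonneg _), ?_, fun hne => ?_⟩
  · calc wa η a N m = bta a m * η ((m : ℝ) / N) := rfl
      _ ≤ bta a m * 1 := mul_le_mul_of_nonneg_left (hη.le_one _) hb0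
      _ ≤ 1 / κ + 2 := by rw [mul_one]; exact rgh_count hκ hN ha hm
  · have hb : bta a m ≠ 0 := fun h => hne (by rw [wa, h, zero_mul])
    have he : η ((m : ℝ) / N) ≠ 0 := fun h => hne (by rw [wa, h, mul_zero])
    obtain ⟨k, p0, hk, hp0, hmk, hkpos⟩ := rgh_term hb
    obtain ⟨h1, -⟩ := hη.supp _ he
    refine ⟨by rw [hmk]; exact Nat.mul_pos hkpos hp0.pos, fun p hp hpm => ?_⟩
    obtain ⟨-, hk2, hk3⟩ := (ha k).2.2 hk
    have hmono : (N : ℝ) ^ (κ / 2) ≤ (N : ℝ) ^ κ :=
      Real.rpow_le_rpow_of_exponent_le hN1.le (by linarith)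
    rw [hmk] at hpm
    rcases (hp.dvd_mul).1 hpm with h | h
    · exact hmono.trans_lt (hk3 p hp h)
    · rw [(Nat.prime_dvd_prime_iff_eq hp hp0).1 h]
      have h2 : (N : ℝ) / 8 < k * p0 := by
        rw [lt_div_iff₀ hNpos] at h1
        have h3 : (m : ℝ) = k * p0 := by rw [hmk]; push_cast; rfl
        rw [← h3]
        linarith
      have hsplit : (N : ℝ) ^ (1 - κ) * ((N : ℝ) ^ (κ / 2) * (N : ℝ) ^ (κ / 2)) = N := by
        rw [← Real.rpow_add hNpos, ← Real.rpow_add hNpos]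
        have h4 : 1 - κ + (κ / 2 + κ / 2) = 1 := by ring
        rw [h4, Real.rpow_one]
      by_contra hcon
      rw [not_lt] at hcon
      have hA : (0 : ℝ) < (N : ℝ) ^ (1 - κ) := by positivity
      have hB : (0 : ℝ) < (N : ℝ) ^ (κ / 2) := by positivity
      have h5 : (k : ℝ) * p0 ≤ (N : ℝ) ^ (1 - κ) * (N : ℝ) ^ (κ / 2) :=
        mul_le_mul hk2 hcon (by positivity) hA.le
      have h6 : (N : ℝ) ^ (1 - κ) * (N : ℝ) ^ (κ / 2) * 8 < N := by
        calc (N : ℝ) ^ (1 - κ) * (N : ℝ) ^ (κ / 2) * 8 <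
            (N : ℝ) ^ (1 - κ) * (N : ℝ) ^ (κ / 2) * (N : ℝ) ^ (κ / 2) :=
              mul_lt_mul_of_pos_left h8 (mul_pos hA hB)
          _ = N := by rw [mul_assoc]; exact hsplit
      linarith

end Pool.Agent.PTB
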