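import Mathlib
import Pool.Agent.PTB.Stmts
import Pool.Agent.CH.PSW

set_option autoImplicit false

/-!
# PTB / SW

Small conductors by Siegel-Walfisz: the weights `wa` with free bounded coefficients.
-/

namespace Pool.Agent.PTB

open Finset Filter Pool.Agent.MT

lemma sw_T2 {η : ℝ → ℝ} (hη : IsWt η) {κ : ℝ} (hκ : 0 < κ) (A B : ℕ) :
    ∃ K : ℝ, 0 < K ∧ ∀ᶠ N : ℕ in atTop,
    ∀ r : ℕ, 1 ≤ r → (r : ℝ) ≤ Real.log N ^ B → ∀ χ : DirichletCharacter ℂ r, χ ≠ 1 →
    ∀ a : ℕ, 1 ≤ a → (a : ℝ) ≤ (N : ℝ) ^ (1 - κ) →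
    ‖∑ p ∈ range (N / a + 1), (if p.Prime then
      ((η (((a * p : ℕ) : ℝ) / N) : ℝ) : ℂ) * χ (p : ZMod r) else 0)‖
      ≤ K * ((N : ℝ) / Real.log N ^ A) * (1 / (a : ℝ)) := by
  obtain ⟨K0, hK0, Y0, hY0⟩ := CH.psw_T hη A (B + 1)
  set c : ℝ := κ / 2 with hc
  have hc0 : 0 < c := by positivity
  refine ⟨K0 * (1 / c) ^ A, by positivity, ?_⟩
  have e1 : ∀ᶠ N : ℕ in atTop, (Y0 : ℝ) + 1 ≤ (N : ℝ) ^ c := by
    exact ((tendsto_rpow_atTop hc0).comp
      (tendsto_natCast_atTop_atTop (R := ℝ))).eventually_ge_atTop _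
  have e2 : ∀ᶠ N : ℕ in atTop, (2 : ℝ) ≤ (N : ℝ) ^ c := by
    exact ((tendsto_rpow_atTop hc0).comp
      (tendsto_natCast_atTop_atTop (R := ℝ))).eventually_ge_atTop _
  filter_upwards [e1, e2, BVX.a8_evlog ((1 / c) * (1 / c) ^ B), eventually_ge_atTop 3] with
    N h1 h2 h3 h4
  intro r hr hrB χ hχ a ha haN
  have hN3 : (3 : ℝ) ≤ N := by exact_mod_cast h4
  have hN0 : (0 : ℝ) < N := by linarith
  have ha' : (1 : ℝ) ≤ a := by exact_mod_cast ha
  set Y : ℕ := N / a with hYd
  have f1 : (N : ℝ) / a < Y + 1 := by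
    have := Nat.lt_floor_add_one ((N : ℝ) / a)
    rw [Nat.floor_div_eq_div] at this
    exact this
  have f2 : (Y : ℝ) ≤ (N : ℝ) / a := Nat.cast_div_le
  have f3 : (N : ℝ) ^ κ ≤ (N : ℝ) / a := by
    rw [le_div_iff₀ (by linarith)]
    calc (N : ℝ) ^ κ * a ≤ (N : ℝ) ^ κ * (N : ℝ) ^ (1 - κ) :=
          mul_le_mul_of_nonneg_left haN (by positivity)
      _ = N := by
          rw [← Real.rpow_add hN0]
          have : κ + (1 - κ) = 1 := by ring
          rw [this, Real.rpow_one]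
  have f4 : (N : ℝ) ^ κ = (N : ℝ) ^ c * (N : ℝ) ^ c := by
    rw [← Real.rpow_add hN0]
    congr 1
    rw [hc]; ring
  have f5 : (N : ℝ) ^ c ≤ Y := by
    have : (N : ℝ) ^ c * 2 ≤ (N : ℝ) ^ c * (N : ℝ) ^ c :=
      mul_le_mul_of_nonneg_left h2 (by positivity)
    linarith
  have f6 : Y0 ≤ Y := by
    have : (Y0 : ℝ) ≤ (Y : ℝ) := by linarith
    exact_mod_cast this
  have hY1 : (1 : ℝ) ≤ Y := by linarith
  have f7 : c * Real.log N ≤ Real.log Y := by
    have := Real.log_le_log (by positivity) f5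
    rwa [Real.log_rpow hN0] at this
  have hp4 : (0 : ℝ) < (1 / c) ^ B := by positivity
  have hlN : 0 < Real.log N := lt_of_lt_of_le (by positivity) h3
  have hlY : 0 < Real.log Y := lt_of_lt_of_le (by positivity) f7
  have f7' : Real.log N ≤ 1 / c * Real.log Y := by
    rw [one_div, ← div_eq_inv_mul, le_div_iff₀ hc0, mul_comm]
    exact f7
  have f8 : (r : ℝ) ≤ Real.log Y ^ (B + 1) := by
    have g1 : (1 / c) ^ B ≤ Real.log Y := by
      have g2 : c * ((1 / c) * (1 / c) ^ B) ≤ c * Real.log N := mul_le_mul_of_nonneg_left h3 hc0.le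
      have g3 : c * ((1 / c) * (1 / c) ^ B) = (1 / c) ^ B := by
        rw [← mul_assoc, mul_one_div_cancel hc0.ne', one_mul]
      linarith
    calc (r : ℝ) ≤ Real.log N ^ B := hrB
      _ ≤ (1 / c * Real.log Y) ^ B := pow_le_pow_left₀ hlN.le f7' _
      _ = (1 / c) ^ B * Real.log Y ^ B := mul_pow _ _ _
      _ ≤ Real.log Y * Real.log Y ^ B := mul_le_mul_of_nonneg_right g1 (by positivity)
      _ = _ := by ring
  have f9 := hY0 Y f6 r hr f8 χ hχ 1 le_rfl ((a : ℝ) / N) (by positivity) (by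
    rw [div_mul_eq_mul_div, div_le_one hN0]
    calc (a : ℝ) * Y ≤ a * (N / a) := mul_le_mul_of_nonneg_left f2 (by linarith)
      _ = N := by field_simp)
  have f10 : ∑ p ∈ range (Y + 1), (if p.Prime then
      ((η (((a * p : ℕ) : ℝ) / N) : ℝ) : ℂ) * χ (p : ZMod r) else 0) =
      ∑ p ∈ range (Y + 1), (if p.Prime ∧ 1 ≤ p then
      ((η ((a : ℝ) / N * p) : ℝ) : ℂ) * χ (p : ZMod r) else 0) := by
    apply sum_congr rfl
    intro p _
    have e3 : ((a * p : ℕ) : ℝ) / N = (a : ℝ) / N * p := by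
      push_cast
      ring
    rw [e3]
    by_cases hp : p.Prime
    · rw [if_pos hp, if_pos ⟨hp, hp.one_lt.le⟩]
    · rw [if_neg hp, if_neg (fun h => hp h.1)]
  rw [f10]
  refine f9.trans ?_
  calc K0 * ((Y : ℝ) / Real.log Y ^ A) ≤ K0 * (((N : ℝ) / a) / (c * Real.log N) ^ A) := by
        apply mul_le_mul_of_nonneg_left _ hK0.le
        apply div_le_div₀ (by positivity) f2 (by positivity)
        exact pow_le_pow_left₀ (by positivity) f7 _
    _ = _ := by
        rw [mul_pow, one_div_pow]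
        field_simp

lemma sw_bta (a : ℕ → ℝ) (N m : ℕ) (hm : m ≤ N) :
    bta a m = ∑ k ∈ Icc 1 N, if k ∣ m ∧ (m / k).Prime then a k else 0 := by
  unfold bta
  rw [← sum_filter, ← sum_filter]
  apply sum_congr _ (fun _ _ => rfl)
  ext k
  simp only [mem_filter, Nat.mem_divisors, mem_Icc]
  constructor
  · rintro ⟨⟨h1, h2⟩, h3⟩
    exact ⟨⟨Nat.pos_of_dvd_of_pos h1 (Nat.pos_of_ne_zero h2),
      (Nat.le_of_dvd (Nat.pos_of_ne_zero h2) h1).trans hm⟩, h1, h3⟩
  · rintro ⟨⟨h1, h2⟩, h3, h4⟩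
    refine ⟨⟨h3, ?_⟩, h4⟩
    rintro rfl
    rw [Nat.zero_div] at h4
    exact Nat.not_prime_zero h4

lemma sw_swap (a : ℕ → ℝ) (N : ℕ) (F : ℕ → ℂ) :
    ∑ m ∈ range (N + 1), ((bta a m : ℝ) : ℂ) * F m =
      ∑ k ∈ Icc 1 N, (a k : ℂ) * ∑ p ∈ range (N / k + 1), if p.Prime then F (k * p) else 0 := by
  have h1 : ∀ m ∈ range (N + 1), ((bta a m : ℝ) : ℂ) * F m =
      ∑ k ∈ Icc 1 N, if k ∣ m ∧ (m / k).Prime then (a k : ℂ) * F m else 0 := by
    intro m hm
    rw [mem_range] at hm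
    rw [sw_bta a N m (by omega), Complex.ofReal_sum, sum_mul]
    apply sum_congr rfl
    intro k _
    split_ifs <;> simp
  rw [sum_congr rfl h1, sum_comm]
  apply sum_congr rfl
  intro k hk
  rw [mem_Icc] at hk
  rw [mul_sum, ← sum_filter]
  have h2 : ∀ p : ℕ, (a k : ℂ) * (if p.Prime then F (k * p) else 0) =
      if p.Prime then (a k : ℂ) * F (k * p) else 0 := by
    intro p
    split_ifs <;> simp
  simp_rw [h2]
  rw [← sum_filter]
  have hk0 : 0 < k := hk.1
  refine sum_nbij' (fun m => m / k) (fun p => k * p) ?_ ?_ ?_ ?_ ?_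
  · intro m hm
    simp only [mem_filter, mem_range] at hm ⊢
    exact ⟨Nat.lt_succ_of_le (Nat.div_le_div_right (by omega)), hm.2.2⟩
  · intro p hp
    simp only [mem_filter, mem_range] at hp ⊢
    refine ⟨?_, Dvd.intro _ rfl, ?_⟩
    · have h3 : p ≤ N / k := by omega
      have h4 := (Nat.le_div_iff_mul_le hk0).1 h3
      rw [mul_comm] at h4
      omega
    · rw [Nat.mul_div_cancel_left _ hk0]
      exact hp.2
  · intro m hm
    simp only [mem_filter, mem_range] at hm
    exact Nat.mul_div_cancel' hm.2.1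
  · intro p _
    exact Nat.mul_div_cancel_left _ hk0
  · intro m hm
    simp only [mem_filter, mem_range] at hm
    rw [Nat.mul_div_cancel' hm.2.1]

lemma sw_noncop {Bd z : ℝ} {N : ℕ} {w : ℕ → ℝ} (hz : 1 ≤ z) (h : Rgh Bd z N w) (e : ℕ)
    (he : 1 ≤ e) :
    ∑ q ∈ (range (N + 1)).filter (fun q => ¬ q.Coprime e), w q ≤
      Bd * ((e.primeFactors.card : ℝ) * ((N : ℝ) / z)) := by
  classical
  have hB0 : 0 ≤ Bd := (h 0 (Nat.zero_le _)).1.trans (h 0 (Nat.zero_le _)).2.1
  have hz0 : 0 < z := by linarith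
  have h1 : ∀ q ∈ (range (N + 1)).filter (fun q => ¬ q.Coprime e), w q ≤
      ∑ p ∈ e.primeFactors.filter (fun p : ℕ => z < p),
        (if q ≠ 0 ∧ p ∣ q then Bd else 0) := by
    intro q hq
    rw [mem_filter, mem_range] at hq
    have h0 : 0 ≤ ∑ p ∈ e.primeFactors.filter (fun p : ℕ => z < p),
        (if q ≠ 0 ∧ p ∣ q then Bd else 0) := by
      apply sum_nonneg
      intro p _
      split_ifs
      · exact hB0
      · exact le_rfl
    obtain ⟨h2, h3, h4⟩ := h q (by omega)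
    by_cases hw : w q = 0
    · rw [hw]
      exact h0
    · obtain ⟨h5, h6⟩ := h4 hw
      obtain ⟨p, hp, hpq, hpe⟩ := Nat.Prime.not_coprime_iff_dvd.1 hq.2
      have hmem : p ∈ e.primeFactors.filter (fun p : ℕ => z < p) := by
        rw [mem_filter, Nat.mem_primeFactors]
        exact ⟨⟨hp, hpe, by omega⟩, h6 p hp hpq⟩
      calc w q ≤ Bd := h3
        _ = (if q ≠ 0 ∧ p ∣ q then Bd else 0) := by rw [if_pos ⟨by omega, hpq⟩]
        _ ≤ _ := single_le_sum (f := fun p => if q ≠ 0 ∧ p ∣ q then Bd else 0)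
            (fun p _ => by
              show 0 ≤ if q ≠ 0 ∧ p ∣ q then Bd else 0
              split_ifs
              · exact hB0
              · exact le_rfl) hmem
  calc ∑ q ∈ (range (N + 1)).filter (fun q => ¬ q.Coprime e), w q
      ≤ ∑ q ∈ (range (N + 1)).filter (fun q => ¬ q.Coprime e),
        ∑ p ∈ e.primeFactors.filter (fun p : ℕ => z < p),
          (if q ≠ 0 ∧ p ∣ q then Bd else 0) := sum_le_sum h1
    _ ≤ ∑ q ∈ range (N + 1),
        ∑ p ∈ e.primeFactors.filter (fun p : ℕ => z < p),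
          (if q ≠ 0 ∧ p ∣ q then Bd else 0) := by
        apply sum_le_sum_of_subset_of_nonneg (filter_subset _ _)
        intro q _ _
        apply sum_nonneg
        intro p _
        split_ifs
        · exact hB0
        · exact le_rfl
    _ = ∑ p ∈ e.primeFactors.filter (fun p : ℕ => z < p), ((N / p : ℕ) : ℝ) * Bd := by
        rw [sum_comm]
        apply sum_congr rfl
        intro p _
        rw [← Nat.card_multiples' N p, ← sum_filter, sum_const, nsmul_eq_mul]
    _ ≤ ∑ p ∈ e.primeFactors.filter (fun p : ℕ => z < p), ((N : ℝ) / z) * Bd := by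
        apply sum_le_sum
        intro p hp
        rw [mem_filter] at hp
        apply mul_le_mul_of_nonneg_right _ hB0
        refine Nat.cast_div_le.trans ?_
        exact div_le_div_of_nonneg_left (by positivity) hz0 hp.2.le
    _ ≤ _ := by
        rw [sum_const, nsmul_eq_mul]
        have h7 : ((e.primeFactors.filter (fun p : ℕ => z < p)).card : ℝ) ≤
            e.primeFactors.card := by exact_mod_cast card_filter_le _ _
        have h8 : 0 ≤ (N : ℝ) / z * Bd := by positivity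
        calc _ ≤ (e.primeFactors.card : ℝ) * ((N : ℝ) / z * Bd) :=
              mul_le_mul_of_nonneg_right h7 h8
          _ = _ := by ring

/-- keep this signature -/
theorem thm_SW (h1 : St_Rgh) : St_SW := by
  intro η hη κ hκ hκ1 A B
  obtain ⟨Bd, hBd⟩ := h1 η hη κ hκ hκ1
  obtain ⟨K, hK, hT⟩ := sw_T2 hη hκ (A + 2) B
  have hc0 : (0 : ℝ) < 1 / (4 * (|Bd| + 1)) := by positivity
  filter_upwards [hBd, hT, CH.psw_evrpow (A + 1) (1 / (4 * (|Bd| + 1))) (κ / 2) hc0
    (by positivity), BVX.a8_evlog (4 * K + 1), eventually_ge_atTop 3] with N h0 h1 h2 h3 h4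
  intro a ha e r he heN hr hrB χ hχ
  have hR := h0 a ha
  have hχ1 : χ ≠ 1 := ((mem_prim χ).1 hχ).2
  have hN3 : (3 : ℝ) ≤ N := by exact_mod_cast h4
  have hN0 : (0 : ℝ) < N := by linarith
  set L : ℝ := Real.log N with hL
  have hL1 : 1 ≤ L := by linarith
  have hL0 : 0 < L := by linarith
  have hz1 : (1 : ℝ) ≤ (N : ℝ) ^ (κ / 2) := Real.one_le_rpow (by linarith) (by positivity)
  have hB0 : 0 ≤ Bd := (hR 0 (Nat.zero_le _)).1.trans (hR 0 (Nat.zero_le _)).2.1
  have hsplit : psiw (wa η a N) N e χ =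
      ∑ m ∈ range (N + 1), ((wa η a N m : ℝ) : ℂ) * χ (m : ZMod r) -
      ∑ m ∈ (range (N + 1)).filter (fun m => ¬ m.Coprime e),
        ((wa η a N m : ℝ) : ℂ) * χ (m : ZMod r) := by
    rw [eq_sub_iff_add_eq, ← sum_filter_add_sum_filter_not (range (N + 1))
      (fun m => m.Coprime e) (fun m => ((wa η a N m : ℝ) : ℂ) * χ (m : ZMod r))]
    rfl
  -- the part with a common factor
  have hA : ‖∑ m ∈ (range (N + 1)).filter (fun m => ¬ m.Coprime e),
      ((wa η a N m : ℝ) : ℂ) * χ (m : ZMod r)‖ ≤ 1 / 2 * (N / L ^ A) := by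
    calc ‖∑ m ∈ (range (N + 1)).filter (fun m => ¬ m.Coprime e),
        ((wa η a N m : ℝ) : ℂ) * χ (m : ZMod r)‖
        ≤ ∑ m ∈ (range (N + 1)).filter (fun m => ¬ m.Coprime e),
          ‖((wa η a N m : ℝ) : ℂ) * χ (m : ZMod r)‖ := norm_sum_le _ _
      _ ≤ ∑ m ∈ (range (N + 1)).filter (fun m => ¬ m.Coprime e), wa η a N m := by
          apply sum_le_sum
          intro m hm
          rw [mem_filter, mem_range] at hm
          have hw : 0 ≤ wa η a N m := (hR m (by omega)).1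
          rw [norm_mul, Complex.norm_real, Real.norm_eq_abs, abs_of_nonneg hw]
          calc wa η a N m * ‖χ (m : ZMod r)‖ ≤ wa η a N m * 1 :=
                mul_le_mul_of_nonneg_left (DirichletCharacter.norm_le_one χ _) hw
            _ = _ := mul_one _
      _ ≤ Bd * ((e.primeFactors.card : ℝ) * ((N : ℝ) / (N : ℝ) ^ (κ / 2))) :=
          sw_noncop hz1 hR e he
      _ ≤ Bd * ((2 * L) * ((N : ℝ) / (N : ℝ) ^ (κ / 2))) := by
          have e1 : (e.primeFactors.card : ℝ) ≤ 2 * L := by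
            refine (CH.psw_omega e he).trans ?_
            have : Real.log e ≤ L := Real.log_le_log (by exact_mod_cast he) (by exact_mod_cast heN)
            linarith
          apply mul_le_mul_of_nonneg_left _ hB0
          exact mul_le_mul_of_nonneg_right e1 (by positivity)
      _ ≤ 1 / 2 * (N / L ^ A) := by
          have e2 : L ^ (A + 1) = L * L ^ A := by ring
          rw [e2] at h2
          have e3 : 4 * (|Bd| + 1) * (L * L ^ A) ≤ (N : ℝ) ^ (κ / 2) := by
            rw [one_div, ← div_eq_inv_mul, le_div_iff₀ (by positivity)] at h2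
            linarith
          have e4 : 4 * Bd * (L * L ^ A) ≤ (N : ℝ) ^ (κ / 2) := by
            refine le_trans ?_ e3
            apply mul_le_mul_of_nonneg_right _ (by positivity)
            have := le_abs_self Bd
            linarith
          have e5 : Bd * ((2 * L) * ((N : ℝ) / (N : ℝ) ^ (κ / 2))) =
              (4 * Bd * (L * L ^ A)) * (1 / 2 * N / L ^ A / (N : ℝ) ^ (κ / 2)) := by
            field_simp
            ring
          rw [e5]
          calc _ ≤ (N : ℝ) ^ (κ / 2) * (1 / 2 * N / L ^ A / (N : ℝ) ^ (κ / 2)) :=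
                mul_le_mul_of_nonneg_right e4 (by positivity)
            _ = _ := by field_simp
  -- the main part
  have hB : ‖∑ m ∈ range (N + 1), ((wa η a N m : ℝ) : ℂ) * χ (m : ZMod r)‖ ≤
      1 / 2 * (N / L ^ A) := by
    have g0 : ∑ m ∈ range (N + 1), ((wa η a N m : ℝ) : ℂ) * χ (m : ZMod r) =
        ∑ m ∈ range (N + 1), ((bta a m : ℝ) : ℂ) *
          (((η ((m : ℝ) / N) : ℝ) : ℂ) * χ (m : ZMod r)) := by
      apply sum_congr rfl
      intro m _
      unfold wa
      push_cast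
      ring
    rw [g0, sw_swap a N (fun m => ((η ((m : ℝ) / N) : ℝ) : ℂ) * χ (m : ZMod r))]
    have hv : ∀ k ∈ Icc 1 N, ‖(a k : ℂ) * ∑ p ∈ range (N / k + 1), (if p.Prime then
        ((η (((k * p : ℕ) : ℝ) / N) : ℝ) : ℂ) * χ ((k * p : ℕ) : ZMod r) else 0)‖ ≤
        K * ((N : ℝ) / L ^ (A + 2)) * (1 / (k : ℝ)) := by
      intro k hk
      rw [mem_Icc] at hk
      by_cases hak : a k = 0
      · rw [hak]
        simp only [Complex.ofReal_zero, zero_mul, norm_zero]
        positivity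
      · obtain ⟨h5, h6, h7⟩ := ha k
        obtain ⟨-, h8, -⟩ := h7 hak
        have g5 := h1 r hr hrB χ hχ1 k hk.1 h8
        have g6 : ∑ p ∈ range (N / k + 1), (if p.Prime then
            ((η (((k * p : ℕ) : ℝ) / N) : ℝ) : ℂ) * χ ((k * p : ℕ) : ZMod r) else 0) =
            χ (k : ZMod r) * ∑ p ∈ range (N / k + 1), (if p.Prime then
            ((η (((k * p : ℕ) : ℝ) / N) : ℝ) : ℂ) * χ (p : ZMod r) else 0) := by
          rw [mul_sum]
          apply sum_congr rfl
          intro p _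
          split_ifs
          · push_cast
            rw [map_mul]
            ring
          · rw [mul_zero]
        rw [g6, norm_mul, norm_mul, Complex.norm_real, Real.norm_eq_abs, abs_of_nonneg h5]
        calc a k * (‖χ (k : ZMod r)‖ * ‖∑ p ∈ range (N / k + 1), (if p.Prime then
              ((η (((k * p : ℕ) : ℝ) / N) : ℝ) : ℂ) * χ (p : ZMod r) else 0)‖)
            ≤ 1 * (1 * (K * ((N : ℝ) / L ^ (A + 2)) * (1 / (k : ℝ)))) := by
              refine mul_le_mul h6 ?_ (by positivity) zero_le_one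
              exact mul_le_mul (DirichletCharacter.norm_le_one χ _) g5 (norm_nonneg _) zero_le_one
          _ = _ := by rw [one_mul, one_mul]
    calc _ ≤ ∑ k ∈ Icc 1 N, ‖(a k : ℂ) * ∑ p ∈ range (N / k + 1), (if p.Prime then
        ((η (((k * p : ℕ) : ℝ) / N) : ℝ) : ℂ) * χ ((k * p : ℕ) : ZMod r) else 0)‖ :=
          norm_sum_le _ _
      _ ≤ ∑ k ∈ Icc 1 N, K * ((N : ℝ) / L ^ (A + 2)) * (1 / (k : ℝ)) := sum_le_sum hv
      _ = K * ((N : ℝ) / L ^ (A + 2)) * ∑ k ∈ Icc 1 N, (1 / (k : ℝ)) := by rw [← mul_sum]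
      _ ≤ K * ((N : ℝ) / L ^ (A + 2)) * (2 * L) := by
          apply mul_le_mul_of_nonneg_left _ (by positivity)
          calc ∑ k ∈ Icc 1 N, (1 / (k : ℝ)) ≤ ∑ k ∈ range (N + 1), (1 / (k : ℝ)) := by
                apply sum_le_sum_of_subset_of_nonneg
                · intro k hk
                  rw [mem_Icc] at hk
                  rw [mem_range]
                  omega
                · intro k _ _
                  positivity
            _ ≤ 1 + L := CH.psw_harm N
            _ ≤ 2 * L := by linarith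
      _ = (2 * K) / L * (N / L ^ A) := by
          rw [pow_add]
          field_simp
      _ ≤ 1 / 2 * (N / L ^ A) := by
          apply mul_le_mul_of_nonneg_right _ (by positivity)
          rw [div_le_iff₀ hL0]
          linarith
  rw [hsplit]
  calc _ ≤ _ := norm_sub_le _ _
    _ ≤ 1 / 2 * (N / L ^ A) + 1 / 2 * (N / L ^ A) := add_le_add hB hA
    _ = _ := by ring

end Pool.Agent.PTB
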