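import Mathlib
import Pool.Agent.PTB.Stmts
import Pool.Agent.GV.BVW

set_option autoImplicit false

/-!
# PTB / Wei

Insertion of the weights: copy of Pool/Agent/CH/PBVW.lean, `E' = min(E, T)`, `T q` = trivial bound of
the left side.
-/

namespace Pool.Agent.PTB

open Finset Filter Pool.Agent.MT Pool.Agent.GV

theorem wei_trivial (Bd : ℝ) (N : ℕ) (w : ℕ → ℝ) (hw : ∀ m : ℕ, m ≤ N → 0 ≤ w m ∧ w m ≤ Bd)
    (q b : ℕ) (hq : 1 ≤ q) (hqN : q ≤ N) (hL : 1 ≤ Real.log N) (hB : Bd ≤ Real.log N) :
    |wAP w N q b - w0 w N / (q.totient : ℝ)| ≤ 2 * N * Real.log N / q.totient := by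
  have hφ : 0 < q.totient := Nat.totient_pos.2 hq
  have hφ' : (0 : ℝ) < q.totient := by exact_mod_cast hφ
  have hN : 1 ≤ N := hq.trans hqN
  have hN0 : (1 : ℝ) ≤ N := by exact_mod_cast hN
  have hle : (q.totient : ℝ) ≤ q := by exact_mod_cast Nat.totient_le q
  have a0 : 0 ≤ wAP w N q b := by
    unfold wAP
    refine Finset.sum_nonneg fun m hm => (hw m ?_).1
    have := Finset.mem_range.1 (Finset.mem_filter.1 hm).1
    omega
  have b0 : 0 ≤ w0 w N := by
    unfold w0
    refine Finset.sum_nonneg fun m hm => (hw m ?_).1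
    have := Finset.mem_range.1 hm
    omega
  have a1 : wAP w N q b ≤ 2 * N * Real.log N / q.totient := by
    unfold wAP
    calc _ ≤ ∑ n ∈ (range (N + 1)).filter (fun n => n % q = b % q), Real.log N := by
          refine Finset.sum_le_sum fun m hm => ((hw m ?_).2).trans hB
          have := Finset.mem_range.1 (Finset.mem_filter.1 hm).1
          omega
      _ = (((range (N + 1)).filter (fun n => n % q = b % q)).card : ℝ) * Real.log N := by
          rw [Finset.sum_const, nsmul_eq_mul]
      _ ≤ 2 * N / q * Real.log N :=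
          mul_le_mul_of_nonneg_right (bvw_count N q b hq hqN) (by linarith)
      _ ≤ 2 * N / q.totient * Real.log N :=
          mul_le_mul_of_nonneg_right (div_le_div_of_nonneg_left (by positivity) hφ' hle)
            (by linarith)
      _ = _ := by ring
  have b1 : w0 w N / q.totient ≤ 2 * N * Real.log N / q.totient := by
    refine div_le_div_of_nonneg_right ?_ hφ'.le
    unfold w0
    calc _ ≤ ∑ n ∈ range (N + 1), Real.log N := by
          refine Finset.sum_le_sum fun m hm => ((hw m ?_).2).trans hB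
          have := Finset.mem_range.1 hm
          omega
      _ = ((N : ℝ) + 1) * Real.log N := by
          rw [Finset.sum_const, nsmul_eq_mul, Finset.card_range]; push_cast; ring
      _ ≤ 2 * N * Real.log N := mul_le_mul_of_nonneg_right (by linarith) (by linarith)
  have b2 : 0 ≤ w0 w N / q.totient := by positivity
  rw [abs_le]; constructor <;> linarith

theorem thm_Wei : St_Wei := by
  intro θ κ Bd A K h0 h1 hκ0 hκ1
  set k : ℕ := 2 * K ^ 2 with hk
  refine ⟨2 * A + (2 * k + 2), ?_⟩
  have hL2 : ∀ᶠ N : ℕ in atTop, max 2 Bd ≤ Real.log N :=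
    (Real.tendsto_log_atTop.comp tendsto_natCast_atTop_atTop).eventually_ge_atTop (max 2 Bd)
  filter_upwards [hL2, Filter.eventually_ge_atTop 1] with N hLm hN1
  intro w hw hlev
  have hL : (2 : ℝ) ≤ Real.log N := (le_max_left _ _).trans hLm
  have hLB : Bd ≤ Real.log N := (le_max_right _ _).trans hLm
  obtain ⟨E, hE0, hE1, hE2'⟩ := hlev
  have hE2 : ∑ q ∈ (Icc 1 N).filter (fun q : ℕ => (q : ℝ) ≤ (N : ℝ) ^ θ), E q ≤
      N / Real.log N ^ (2 * A + (2 * k + 2)) := by
    refine le_trans (le_of_eq ?_) hE2'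
    refine Finset.sum_congr rfl fun q _ => ?_
    rw [Nat.cast_one, one_pow, one_mul]
  have hNr : (1 : ℝ) ≤ N := by exact_mod_cast hN1
  set L : ℝ := Real.log N with hLdef
  have hL0 : 0 < L := by linarith
  set T : ℕ → ℝ := fun q => 2 * N * L / q.totient with hT
  have hT0 : ∀ q, 0 ≤ T q := fun q => by
    simp only [hT]; positivity
  set Qs := (Icc 1 N).filter (fun q : ℕ => (q : ℝ) ≤ (N : ℝ) ^ θ) with hQs
  refine ⟨fun q => min (E q) (T q), fun q => le_min (hE0 q) (hT0 q), ?_, ?_⟩
  · intro q b hq hqN hb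
    refine le_min (hE1 q b hq hqN hb) ?_
    have hqN' : q ≤ N := by
      have h3 : (N : ℝ) ^ θ ≤ (N : ℝ) ^ (1 : ℝ) :=
        Real.rpow_le_rpow_of_exponent_le hNr (by linarith)
      rw [Real.rpow_one] at h3
      exact_mod_cast hqN.trans h3
    exact wei_trivial Bd N w (fun m hm => ⟨(hw m hm).1, (hw m hm).2.1⟩) q b hq hqN'
      (by linarith) hLB
  · -- Cauchy-Schwarz
    have s1 : ∀ q ∈ Qs, (K : ℝ) ^ q.primeFactors.card * min (E q) (T q) ≤
        Real.sqrt (((K : ℝ) ^ q.primeFactors.card) ^ 2 * T q) * Real.sqrt (E q) := by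
      intro q _
      have hm0 : 0 ≤ min (E q) (T q) := le_min (hE0 q) (hT0 q)
      have hm : min (E q) (T q) ≤ Real.sqrt (T q) * Real.sqrt (E q) := by
        rw [← Real.sqrt_mul (hT0 q)]
        refine Real.le_sqrt_of_sq_le ?_
        rw [sq]
        exact mul_le_mul (min_le_right _ _) (min_le_left _ _) hm0 (hT0 q)
      rw [Real.sqrt_mul (by positivity), Real.sqrt_sq (by positivity), mul_assoc]
      exact mul_le_mul_of_nonneg_left hm (by positivity)
    have s2 : ∑ q ∈ Qs, (K : ℝ) ^ q.primeFactors.card * min (E q) (T q) ≤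
        Real.sqrt (∑ q ∈ Qs, ((K : ℝ) ^ q.primeFactors.card) ^ 2 * T q) *
          Real.sqrt (∑ q ∈ Qs, E q) := by
      refine (Finset.sum_le_sum s1).trans ?_
      have := Real.sum_sqrt_mul_sqrt_le Qs
        (f := fun q => ((K : ℝ) ^ q.primeFactors.card) ^ 2 * T q) (g := E)
        (fun q => mul_nonneg (by positivity) (hT0 q)) hE0
      exact this
    have s3 : ∑ q ∈ Qs, ((K : ℝ) ^ q.primeFactors.card) ^ 2 * T q ≤
        2 * N * L * (1 + L) ^ k := by
      have h3 : ∀ q ∈ Icc 1 N, ((K : ℝ) ^ q.primeFactors.card) ^ 2 * T q ≤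
          2 * N * L * ((k : ℝ) ^ q.primeFactors.card / q) := by
        intro q hq
        have hq1 := (Finset.mem_Icc.1 hq).1
        have h4 := bvw_totient q hq1
        have h5 : (k : ℝ) ^ q.primeFactors.card =
            2 ^ q.primeFactors.card * ((K : ℝ) ^ q.primeFactors.card) ^ 2 := by
          rw [← pow_mul, mul_comm q.primeFactors.card 2, pow_mul, ← mul_pow, hk]
          push_cast; rfl
        have h6 : ((K : ℝ) ^ q.primeFactors.card) ^ 2 * T q =
            2 * N * L * (((K : ℝ) ^ q.primeFactors.card) ^ 2 * (1 / q.totient)) := by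
          simp only [hT]; ring
        rw [h6, h5]
        have h7 : ((K : ℝ) ^ q.primeFactors.card) ^ 2 * (1 / (q.totient : ℝ)) ≤
            ((K : ℝ) ^ q.primeFactors.card) ^ 2 * (2 ^ q.primeFactors.card / q) :=
          mul_le_mul_of_nonneg_left h4 (by positivity)
        have h8 : 2 ^ q.primeFactors.card * ((K : ℝ) ^ q.primeFactors.card) ^ 2 / q =
            ((K : ℝ) ^ q.primeFactors.card) ^ 2 * (2 ^ q.primeFactors.card / q) := by ring
        rw [h8]
        exact mul_le_mul_of_nonneg_left h7 (by positivity)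
      calc _ ≤ ∑ q ∈ Icc 1 N, ((K : ℝ) ^ q.primeFactors.card) ^ 2 * T q := by
            refine Finset.sum_le_sum_of_subset_of_nonneg (Finset.filter_subset _ _) ?_
            intro q _ _
            exact mul_nonneg (by positivity) (hT0 q)
        _ ≤ ∑ q ∈ Icc 1 N, 2 * N * L * ((k : ℝ) ^ q.primeFactors.card / q) :=
            Finset.sum_le_sum h3
        _ = 2 * N * L * ∑ q ∈ Icc 1 N, (k : ℝ) ^ q.primeFactors.card / q := by
            rw [Finset.mul_sum]
        _ ≤ _ := mul_le_mul_of_nonneg_left (bvw_omega_sum N hN1 k) (by positivity)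
    have s4 : (1 + L) ^ k ≤ L ^ (2 * k) := by
      rw [pow_mul L 2 k]
      have h3 : 1 + L ≤ L ^ 2 := by nlinarith
      have h4 : 0 ≤ 1 + L := by linarith
      exact pow_le_pow_left₀ h4 h3 k
    have s5 : (2 * N * L * (1 + L) ^ k) * (N / L ^ (2 * A + (2 * k + 2))) ≤
        (N / L ^ A) ^ 2 := by
      have h3 : 2 * N * L * (1 + L) ^ k ≤ N * L ^ (2 * k + 2) := by
        have h4 : 2 * L ≤ L ^ 2 := by nlinarith
        calc 2 * N * L * (1 + L) ^ k = N * ((2 * L) * (1 + L) ^ k) := by ring
          _ ≤ N * (L ^ 2 * L ^ (2 * k)) := by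
              refine mul_le_mul_of_nonneg_left ?_ (by positivity)
              exact mul_le_mul h4 s4 (by positivity) (by positivity)
          _ = _ := by ring
      calc _ ≤ (N * L ^ (2 * k + 2)) * (N / L ^ (2 * A + (2 * k + 2))) :=
            mul_le_mul_of_nonneg_right h3 (by positivity)
        _ = _ := by
            rw [pow_add L (2 * A), div_pow, ← pow_mul, mul_comm A 2]
            have hLne : L ≠ 0 := hL0.ne'
            field_simp
    calc _ ≤ _ := s2
      _ ≤ Real.sqrt (2 * N * L * (1 + L) ^ k) *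
            Real.sqrt (N / L ^ (2 * A + (2 * k + 2))) := by
          refine mul_le_mul (Real.sqrt_le_sqrt s3) (Real.sqrt_le_sqrt hE2)
            (Real.sqrt_nonneg _) (Real.sqrt_nonneg _)
      _ = Real.sqrt ((2 * N * L * (1 + L) ^ k) * (N / L ^ (2 * A + (2 * k + 2)))) := by
          exact (Real.sqrt_mul (by positivity) _).symm
      _ ≤ Real.sqrt ((N / L ^ A) ^ 2) := Real.sqrt_le_sqrt s5
      _ = _ := Real.sqrt_sq (by positivity)

end Pool.Agent.PTB
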