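import Mathlib
import Pool.Agent.PTB.Red
import Pool.Agent.PTB.Abs
import Pool.Agent.PTB.Wei
import Pool.Agent.PTB.Rgh
import Pool.Agent.PTB.LC
import Pool.Agent.PTB.SW
import Pool.Agent.PTB.BVA
import Pool.Agent.PTB.BVP
import Pool.Agent.PTB.MassP
import Pool.Agent.PTB.Last
import Pool.Agent.PTB.MassA
import Pool.Agent.PTB.Glue
import Pool.Agent.PTB.Mass

set_option autoImplicit false

/-!
# PTB / Out

The results of the block without hypotheses.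
-/

namespace Pool.Agent.PTB

open Finset Filter Pool.Agent.MT

theorem out_BVA : St_BVA :=
  thm_BVA (thm_Abs thm_Red) thm_Wei thm_Rgh thm_LC (thm_SW thm_Rgh)

/-- Bombieri-Vinogradov for `BB α`, uniformly in `α` -/
theorem out_al (η : ℝ → ℝ) (hη : IsWt η) (θ : ℝ) (h0 : 0 < θ) (h1 : θ < 1 / 2) (A K : ℕ) :
    ∀ᶠ N : ℕ in atTop, ∀ α : ℕ → ℝ, PT.AlOK N α → PT.BVOK η θ A K N (PT.BB α) := by
  filter_upwards [out_BVA η hη (1 / 1000) θ (by norm_num) (by norm_num) h0 h1 A K,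
    eventually_ge_atTop 2] with N hN h2
  intro α hα
  exact glue_BVOK (hN α (glue_adm h2 hα))

/-- Bombieri-Vinogradov for the boxes -/
theorem out_box (η : ℝ → ℝ) (hη : IsWt η) (θ : ℝ) (h0 : 0 < θ) (h1 : θ < 1 / 2) (A K : ℕ)
    (ρ : ℝ) (M n : ℕ) (hM : 1 ≤ M) (k : Fin (n + 1) → ℕ) (hk : PT.BoxOK ρ M k) :
    ∀ᶠ N : ℕ in atTop, PT.BVOK η θ A K N (PT.bx k M N) := by
  filter_upwards [out_al η hη θ h0 h1 A K, eventually_ge_atTop 2] with N hN h2
  exact hN _ (glue_al hM hk h2)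

/-- Bombieri-Vinogradov for the primes with the weight `log m / log N` -/
theorem out_prime (η : ℝ → ℝ) (hη : IsWt η) (θ : ℝ) (h0 : 0 < θ) (h1 : θ < 1 / 2) (A K : ℕ) :
    ∀ᶠ N : ℕ in atTop, PT.BVOK η θ A K N (bP N) := by
  filter_upwards [thm_BVP η hη θ h0 h1 A K] with N hN
  exact glue_BVOKP hN

/-- mass of a box -/
theorem out_mass (η : ℝ → ℝ) (hη : IsWt η) (ρ : ℝ) (M n : ℕ) (hM : 1 ≤ M)
    (k : Fin (n + 1) → ℕ) (hk : PT.BoxOK ρ M k) (ε : ℝ) (hε : 0 < ε) :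
    ∀ᶠ N : ℕ in atTop, PT.mη η * PT.mu k M * N / Real.log N - ε * N / Real.log N ≤
      PT.B0 η N (PT.bx k M N) :=
  mass_box (thm_MassA thm_Last) η hη hM hk ε hε

/-- mass of the primes -/
theorem out_massP (η : ℝ → ℝ) (hη : IsWt η) (ε : ℝ) (hε : 0 < ε) :
    ∀ᶠ N : ℕ in atTop, PT.mη η * N / Real.log N - ε * N / Real.log N ≤
      PT.B0 η N (bP N) := by
  filter_upwards [thm_MassP η hη ε hε] with N hN
  have e : PT.B0 η N (bP N) = w0 (wp η N) N := by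
    unfold PT.B0 w0
    exact sum_congr rfl fun m _ => glue_wp η N m
  rw [e]
  have h1 := (abs_le.1 hN).1
  have h2 : (∫ t in (0 : ℝ)..1, η t) = PT.mη η := rfl
  rw [h2] at h1
  linarith

end Pool.Agent.PTB
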